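import Pool.Agent.Lib.MP_ca56d1_nt.B.Bas

/-! Convergence and holomorphy of the beta integral. -/

namespace Pool.Agent.RM

open Complex MeasureTheory Filter Topology
open scoped Real

variable {c : ℕ} [NeZero c] {ε : ℝ} {a d : ℤ} {E J G : AA c → ℂ}

omit [NeZero c] in
theorem bint_ka_re : (al c ε d + be c).2.re = (1 + ε) / c := by
  rw [Prod.snd_add, add_re, al_re, be_re]; ring

omit [NeZero c] in
theorem bint_ka_im : (al c ε d + be c).2.im = 0 := by
  rw [Prod.snd_add, add_im, al_im, be_im, add_zero]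

/-- The exponential bound of the integrand on a vertical line. -/
theorem bint_bound (hP : Par c ε a d) (hE : IsE ε a d E J G) (m : ZMod c) {t s : ℝ}
    (h1 : -t < s) (h2 : s < 0) : ∃ C : ℝ, 0 ≤ C ∧ ∀ (w : AA c) (n : ZMod c) (y : ℝ),
      ‖bint ε a d E J (m, t) w (n, s + y * I)‖ ≤ C * Real.exp (-(2 * π * c / ε * s * w.2.im)) *
        Real.exp (-(2 * π * c / ε * min w.2.re ((1 + ε) / c - t - w.2.re)) * |y|) := by
  obtain ⟨C1, hC1⟩ := hE.bdE (s + t) (s + t) (by linarith)
  obtain ⟨C2, hC2⟩ := hE.bdJ (s + (1 + ε) / c) (s + (1 + ε) / c) (by linarith)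
  have hc := cast_pos (c := c)
  have he := hP.pos
  have hk : 0 < 2 * π * c / ε := by positivity
  have p1 : 0 ≤ C1 := (norm_nonneg _).trans
    ((hC1 (0, ((s + t : ℝ) : ℂ)) (by simp) (by simp)).1 (by simp))
  have p2 : 0 ≤ C2 := (norm_nonneg _).trans
    ((hC2 (0, ((s + (1 + ε) / c : ℝ) : ℂ)) (by rw [ofReal_re]) (by rw [ofReal_re])).1
      (by rw [ofReal_im]))
  refine ⟨C1 * C2, mul_nonneg p1 p2, fun w n y => ?_⟩
  set x : AA c := (n, s + y * I) with hx
  have r0 : x.2.re = s := by simp [hx]
  have i0 : x.2.im = y := by simp [hx]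
  have r1 : (x + (m, (t : ℂ))).2.re = s + t := by simp [hx]
  have i1 : (x + (m, (t : ℂ))).2.im = y := by simp [hx]
  have r2 : (x + (al c ε d + be c)).2.re = s + (1 + ε) / c := by
    rw [Prod.snd_add, add_re, r0, bint_ka_re]
  have i2 : (x + (al c ε d + be c)).2.im = y := by
    rw [Prod.snd_add, add_im, i0, bint_ka_im, add_zero]
  obtain ⟨g1, g2⟩ := hC1 _ r1.ge r1.le
  obtain ⟨g3, g4⟩ := hC2 _ r2.ge r2.le
  rw [i1] at g1 g2
  rw [i2] at g3 g4
  rw [bint, norm_mul, norm_mul, norm_BB, r0, i0, mul_assoc (C1 * C2), ← Real.exp_add]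
  rcases le_total 0 y with hy | hy
  · refine mul_le_mul (mul_le_mul (g1 hy) (g3 hy) (norm_nonneg _) p1) (Real.exp_le_exp.2 ?_)
      (Real.exp_pos _).le (mul_nonneg p1 p2)
    rw [abs_of_nonneg hy]
    have e : -2 * π * c * (s * w.2.im + y * w.2.re) / ε =
        -(2 * π * c / ε * s * w.2.im) - 2 * π * c / ε * (w.2.re * y) := by ring
    rw [e]
    have := mul_le_mul_of_nonneg_left (mul_le_mul_of_nonneg_right
      (min_le_left w.2.re ((1 + ε) / c - t - w.2.re)) hy) hk.le
    linarith
  · have g5 := g2 hy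
    have g6 := g4 hy
    simp only [gm, r1, i1, r2, i2] at g5 g6
    rw [← le_div_iff₀ (Real.exp_pos _), div_eq_mul_inv, ← Real.exp_neg] at g6
    refine (mul_le_mul_of_nonneg_right (mul_le_mul g5 g6 (norm_nonneg _) (by positivity))
      (Real.exp_pos _).le).trans ?_
    rw [mul_mul_mul_comm, mul_assoc (C1 * C2), ← Real.exp_add, ← Real.exp_add]
    refine mul_le_mul_of_nonneg_left (Real.exp_le_exp.2 ?_) (mul_nonneg p1 p2)
    rw [abs_of_nonpos hy]
    have e : -2 * π * c * y * (s + t - (1 + ε) / (2 * c)) / ε +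
        -(-2 * π * c * y * (s + (1 + ε) / c - (1 + ε) / (2 * c)) / ε) +
        -2 * π * c * (s * w.2.im + y * w.2.re) / ε =
        -(2 * π * c / ε * s * w.2.im) - 2 * π * c / ε * (((1 + ε) / c - t - w.2.re) * -y) := by
      field_simp
      ring
    rw [e]
    have := mul_le_mul_of_nonneg_left (mul_le_mul_of_nonneg_right
      (min_le_right w.2.re ((1 + ε) / c - t - w.2.re)) (neg_nonneg.2 hy)) hk.le
    linarith

theorem bint_cont (hE : IsE ε a d E J G) (m : ZMod c) {t s : ℝ} (h1 : -t < s) (h2 : s < 0)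
    (w : AA c) (n : ZMod c) :
    Continuous fun y : ℝ => bint ε a d E J (m, t) w (n, s + y * I) := by
  have k1 : Continuous fun y : ℝ => E (n + m, s + y * I + t) :=
    (hE.dE (n + m)).continuousOn.comp_continuous (f := fun y : ℝ => (s : ℂ) + y * I + t)
      (by fun_prop) fun y => by simp; linarith
  have k2 : Continuous fun y : ℝ =>
      J (n + (al c ε d + be c).1, s + y * I + (al c ε d + be c).2) :=
    (hE.dJ (n + (al c ε d + be c).1)).continuousOn.comp_continuous
      (f := fun y : ℝ => (s : ℂ) + y * I + (al c ε d + be c).2) (by fun_prop) fun y => by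
        rw [Set.mem_ofPred_eq, add_re, bint_ka_re]; simpa using h2
  have k3 : Continuous fun y : ℝ => BB ε a (n, s + y * I) w :=
    (BB_diff n w).continuous.comp (f := fun y : ℝ => (s : ℂ) + y * I) (by fun_prop)
  exact (k1.mul k2).mul k3

theorem bIntSt : BIntSt := by
  intro c _ ε a d E J G hP hE m t s h1 h2
  obtain ⟨C, hC, hb⟩ := bint_bound hP hE m h1 h2
  have hc := cast_pos (c := c)
  have he := hP.pos
  have hk : 0 < 2 * π * c / ε := by positivity
  refine ⟨fun w w1 w2 n => ?_, fun k z₀ hz₀ => ?_⟩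
  · have hm : 0 < 2 * π * c / ε * min w.2.re ((1 + ε) / c - t - w.2.re) :=
      mul_pos hk (lt_min w1 (by linarith))
    exact ((integrable_exp_abs hm).const_mul _).mono'
      (bint_cont hE m h1 h2 w n).aestronglyMeasurable (Eventually.of_forall (hb w n))
  · obtain ⟨z1, z2⟩ := hz₀
    set r := min z₀.re ((1 + ε) / c - t - z₀.re) / 2 with hr
    have hr0 : 0 < r := half_pos (lt_min z1 (by linarith))
    have hr1 := min_le_left z₀.re ((1 + ε) / c - t - z₀.re)
    have hr2 := min_le_right z₀.re ((1 + ε) / c - t - z₀.re)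
    have key : DifferentiableOn ℂ
        (fun z => ∫ y : ℝ, ∑ n : ZMod c, bint ε a d E J (m, t) (k, z) (n, s + y * I))
        (Metric.ball z₀ r) := by
      refine Shared.HoloIntegral.differentiableOn_integral Metric.isOpen_ball
        (b := fun y : ℝ => ∑ _n : ZMod c, C * Real.exp (2 * π * c / ε * (-s * (|z₀.im| + r))) *
          Real.exp (-(2 * π * c / ε * r) * |y|)) (fun z _ => ?_)
        (Eventually.of_forall fun y => ?_) (Eventually.of_forall fun y z hz => ?_) ?_
      · exact (continuous_finsetSum _ fun n _ => bint_cont hE m h1 h2 _ n).aestronglyMeasurable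
      · refine (Differentiable.fun_sum fun n _ => ?_).differentiableOn
        simp only [bint, BB_comm (n, (s : ℂ) + y * I)]
        exact (BB_diff k _).const_mul _
      · refine (norm_sum_le _ _).trans (Finset.sum_le_sum fun n _ => (hb _ n y).trans ?_)
        rw [Metric.mem_ball, dist_eq_norm] at hz
        have q1 := (abs_re_le_norm (z - z₀)).trans_lt hz
        have q2 := (abs_im_le_norm (z - z₀)).trans_lt hz
        rw [sub_re, abs_lt] at q1
        rw [sub_im, abs_lt] at q2
        have q3 : r ≤ min z.re ((1 + ε) / c - t - z.re) := le_min (by linarith) (by linarith)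
        have q4 : z.im ≤ |z₀.im| + r := by linarith [le_abs_self z₀.im]
        refine mul_le_mul (mul_le_mul_of_nonneg_left (Real.exp_le_exp.2 ?_) hC)
          (Real.exp_le_exp.2 ?_) (Real.exp_pos _).le (by positivity)
        · have := mul_le_mul_of_nonneg_left (mul_le_mul_of_nonneg_left q4 (neg_pos.2 h2).le) hk.le
          simp only
          linarith
        · exact mul_le_mul_of_nonneg_right (neg_le_neg (mul_le_mul_of_nonneg_left q3 hk.le))
            (abs_nonneg y)
      · exact integrable_finsetSum _ fun n _ => (integrable_exp_abs (mul_pos hk hr0)).const_mul _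
    exact ((key.differentiableAt (Metric.ball_mem_nhds z₀ hr0)).const_mul I).differentiableWithinAt

end Pool.Agent.RM
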