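import Pool.Agent.Lib.MP_ca56d1_nt.B.Bas

/-! The difference equations of the beta integral. -/

namespace Pool.Agent.RM

open Complex Filter Topology MeasureTheory
open scoped Real

namespace BShiftAux

/-- A decaying exponential is eventually small. -/
theorem exp_small (K κ η : ℝ) (hκ : 0 < κ) (hη : 0 < η) :
    ∃ R : ℝ, 0 ≤ R ∧ ∀ y : ℝ, R ≤ y → K * Real.exp (-(κ * y)) ≤ η := by
  have h1 : Tendsto (fun y : ℝ => K * Real.exp (-(κ * y))) atTop (𝓝 (K * 0)) :=
    (Real.tendsto_exp_neg_atTop_nhds_zero.comp (tendsto_id.const_mul_atTop hκ)).const_mul K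
  rw [mul_zero] at h1
  obtain ⟨R, hR⟩ := eventually_atTop.mp (h1.eventually (ge_mem_nhds hη))
  exact ⟨max R 0, le_max_right _ _, fun y hy => hR y ((le_max_left _ _).trans hy)⟩

variable {c : ℕ} [NeZero c] {ε : ℝ} {a d : ℤ} {E J G : AA c → ℂ}

/-- The function to which the residue theorem is applied. -/
noncomputable def g1 (ε : ℝ) (a : ℤ) (E J : AA c → ℂ) (u v' w x : AA c) : ℂ :=
  E (x + u) * J (x + v') * BB ε a x w

theorem BB_bound (hε : 0 < ε) (w : AA c) (s₀ s₁ : ℝ) : ∃ K : ℝ, 0 ≤ K ∧ ∀ x : AA c,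
    s₀ ≤ x.2.re → x.2.re ≤ s₁ →
    ‖BB ε a x w‖ ≤ K * Real.exp (-2 * π * c * (x.2.im * w.2.re) / ε) := by
  refine ⟨Real.exp (2 * π * c * ((|s₀| + |s₁|) * |w.2.im|) / ε), (Real.exp_pos _).le,
    fun x h0 h1 => ?_⟩
  rw [norm_BB, ← Real.exp_add]
  apply Real.exp_le_exp.mpr
  have h2 : |x.2.re| ≤ |s₀| + |s₁| := by
    rw [abs_le]
    constructor
    · linarith [neg_abs_le s₀, abs_nonneg s₁]
    · linarith [le_abs_self s₁, abs_nonneg s₀]
  have h3 : -(x.2.re * w.2.im) ≤ (|s₀| + |s₁|) * |w.2.im| := by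
    refine (neg_le_abs _).trans ?_
    rw [abs_mul]
    exact mul_le_mul_of_nonneg_right h2 (abs_nonneg _)
  have h4 : 0 < 2 * π * c / ε := by
    have := cast_pos (c := c)
    positivity
  have h5 := mul_le_mul_of_nonneg_left h3 h4.le
  have e : 2 * π * c * ((|s₀| + |s₁|) * |w.2.im|) / ε + -2 * π * c * (x.2.im * w.2.re) / ε -
      -2 * π * c * (x.2.re * w.2.im + x.2.im * w.2.re) / ε =
      2 * π * c / ε * ((|s₀| + |s₁|) * |w.2.im|) - 2 * π * c / ε * -(x.2.re * w.2.im) := by ring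
  linarith

/-- Decay at the bottom of the strip. -/
theorem bottom (hε : 0 < ε) (hE : IsE ε a d E J G) (m : ZMod c) {t s l l' : ℝ} {v' w : AA c}
    (hs : -t < s) (hs0 : s < 0) (hv' : v'.2 = l') (hl : l + l' = (1 + ε) / c)
    (hw : t + w.2.re < l') (η : ℝ) (hη : 0 < η) : ∃ R : ℝ, ∀ x : AA c, s ≤ x.2.re →
      x.2.re ≤ s + l → x.2.im ≤ -R → ‖g1 ε a E J (m, t) v' w x‖ ≤ η := by
  obtain ⟨C₁, h₁⟩ := hE.bdE (s + t) (s + l + t) (by linarith)
  obtain ⟨C₂, h₂⟩ := hE.bdJ (s + l') (s + l + l') (by linarith)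
  obtain ⟨K, hK0, hK⟩ := BB_bound (a := a) hε w s (s + l)
  have hc := cast_pos (c := c)
  have hκ : 0 < 2 * π * c * (l' - t - w.2.re) / ε := by
    have : 0 < l' - t - w.2.re := by linarith
    positivity
  obtain ⟨R, hR0, hR⟩ := exp_small (|C₁| * |C₂| * K) _ η hκ hη
  refine ⟨R, fun x h0 h1 h2 => ?_⟩
  have r1 : (x + ((m, (t : ℂ)) : AA c)).2.re = x.2.re + t := by simp
  have i1 : (x + ((m, (t : ℂ)) : AA c)).2.im = x.2.im := by simp
  have r2 : (x + v').2.re = x.2.re + l' := by simp [hv']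
  have i2 : (x + v').2.im = x.2.im := by simp [hv']
  have b1 := (h₁ (x + (m, (t : ℂ))) (by rw [r1]; linarith) (by rw [r1]; linarith)).2
    (by rw [i1]; linarith)
  have b2 := (h₂ (x + v') (by rw [r2]; linarith) (by rw [r2]; linarith)).2
    (by rw [i2]; linarith)
  have b3 := hK x h0 h1
  unfold gm at b1 b2
  rw [r1, i1] at b1
  rw [r2, i2] at b2
  have b1' := b1.trans (mul_le_mul_of_nonneg_right (le_abs_self C₁) (Real.exp_pos _).le)
  have b2' : ‖J (x + v')‖ ≤
      |C₂| * Real.exp (-(-2 * π * c * x.2.im * (x.2.re + l' - (1 + ε) / (2 * c)) / ε)) := by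
    rw [Real.exp_neg, ← div_eq_mul_inv, le_div_iff₀ (Real.exp_pos _)]
    exact b2.trans (le_abs_self _)
  refine le_trans ?_ (hR (-x.2.im) (by linarith))
  unfold g1
  rw [norm_mul, norm_mul]
  refine (mul_le_mul (mul_le_mul b1' b2' (norm_nonneg _) (by positivity)) b3 (norm_nonneg _)
    (by positivity)).trans (le_of_eq ?_)
  rw [mul_mul_mul_comm |C₁|, mul_mul_mul_comm (|C₁| * |C₂|), ← Real.exp_add, ← Real.exp_add]
  congr 2
  ring

/-- Decay at the top of the strip. -/
theorem top_pos (hε : 0 < ε) (hE : IsE ε a d E J G) (m : ZMod c) {t s l l' : ℝ} {v' w : AA c}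
    (hs : -t < s) (hs0 : s < 0) (hv' : v'.2 = l') (hl : l + l' = (1 + ε) / c)
    (hw : 0 < w.2.re) (η : ℝ) (hη : 0 < η) : ∃ R : ℝ, ∀ x : AA c, s ≤ x.2.re →
      x.2.re ≤ s + l → R ≤ x.2.im → ‖g1 ε a E J (m, t) v' w x‖ ≤ η := by
  obtain ⟨C₁, h₁⟩ := hE.bdE (s + t) (s + l + t) (by linarith)
  obtain ⟨C₂, h₂⟩ := hE.bdJ (s + l') (s + l + l') (by linarith)
  obtain ⟨K, hK0, hK⟩ := BB_bound (a := a) hε w s (s + l)
  have hc := cast_pos (c := c)
  have hκ : 0 < 2 * π * c * w.2.re / ε := by positivity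
  obtain ⟨R, hR0, hR⟩ := exp_small (|C₁| * |C₂| * K) _ η hκ hη
  refine ⟨R, fun x h0 h1 h2 => ?_⟩
  have r1 : (x + ((m, (t : ℂ)) : AA c)).2.re = x.2.re + t := by simp
  have i1 : (x + ((m, (t : ℂ)) : AA c)).2.im = x.2.im := by simp
  have r2 : (x + v').2.re = x.2.re + l' := by simp [hv']
  have i2 : (x + v').2.im = x.2.im := by simp [hv']
  have b1 := ((h₁ (x + (m, (t : ℂ))) (by rw [r1]; linarith) (by rw [r1]; linarith)).1
    (by rw [i1]; linarith)).trans (le_abs_self _)
  have b2 := ((h₂ (x + v') (by rw [r2]; linarith) (by rw [r2]; linarith)).1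
    (by rw [i2]; linarith)).trans (le_abs_self _)
  have b3 := hK x h0 h1
  refine le_trans ?_ (hR x.2.im h2)
  unfold g1
  rw [norm_mul, norm_mul]
  refine (mul_le_mul (mul_le_mul b1 b2 (norm_nonneg _) (by positivity)) b3 (norm_nonneg _)
    (by positivity)).trans (le_of_eq ?_)
  rw [← mul_assoc]
  congr 2
  ring

/-- The limit at the top of the strip for `w = 0`. -/
theorem top_zero (hE : IsE ε a d E J G) (m : ZMod c) {t s l l' : ℝ} {v' : AA c}
    (hs : -t < s) (hs0 : s < 0) (hv' : v'.2 = l') (hl : l + l' = (1 + ε) / c)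
    (η : ℝ) (hη : 0 < η) : ∃ R : ℝ, ∀ x : AA c, s ≤ x.2.re →
      x.2.re ≤ s + l → R ≤ x.2.im → ‖g1 ε a E J (m, t) v' 0 x - 1‖ ≤ η := by
  set δ := min 1 (η / 3) with hδ
  have hδ0 : 0 < δ := lt_min one_pos (by positivity)
  have hδ1 : δ ≤ 1 := min_le_left _ _
  have hδ2 : δ ≤ η / 3 := min_le_right _ _
  obtain ⟨R₁, h₁⟩ := hE.topE (s + t) (s + l + t) (by linarith) δ hδ0
  obtain ⟨R₂, h₂⟩ := hE.topJ (s + l') (s + l + l') (by linarith) δ hδ0
  refine ⟨max R₁ R₂, fun x h0 h1 h2 => ?_⟩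
  have r1 : (x + ((m, (t : ℂ)) : AA c)).2.re = x.2.re + t := by simp
  have i1 : (x + ((m, (t : ℂ)) : AA c)).2.im = x.2.im := by simp
  have r2 : (x + v').2.re = x.2.re + l' := by simp [hv']
  have i2 : (x + v').2.im = x.2.im := by simp [hv']
  have b1 := h₁ (x + (m, (t : ℂ))) (by rw [r1]; linarith) (by rw [r1]; linarith)
    (by rw [i1]; exact (le_max_left _ _).trans h2)
  have b2 := h₂ (x + v') (by rw [r2]; linarith) (by rw [r2]; linarith)
    (by rw [i2]; exact (le_max_right _ _).trans h2)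
  unfold g1
  rw [BB_zero_right, mul_one]
  generalize E (x + (m, (t : ℂ))) = A at b1 ⊢
  generalize J (x + v') = B at b2 ⊢
  have e : A * B - 1 = (A - 1) * (B - 1) + (A - 1) + (B - 1) := by ring
  have b3 : ‖(A - 1) * (B - 1)‖ ≤ δ := by
    rw [norm_mul]
    calc _ ≤ δ * 1 := mul_le_mul b1 (b2.trans hδ1) (norm_nonneg _) hδ0.le
      _ = δ := mul_one δ
  rw [e]
  have := norm_add₃_le (a := (A - 1) * (B - 1)) (b := A - 1) (c := B - 1)
  linarith

theorem g1_diff (hE : IsE ε a d E J G) (m : ZMod c) {t s l l' : ℝ} {v' : AA c} (w : AA c)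
    (hs : -t < s) (hs0 : s < 0) (hv' : v'.2 = l') (hl : l + l' = (1 + ε) / c) (n : ZMod c)
    {z : ℂ} (h0 : s ≤ z.re) (h1 : z.re ≤ s + l) :
    DifferentiableAt ℂ (fun z => g1 ε a E J (m, t) v' w (n, z)) z := by
  have d1 : DifferentiableAt ℂ (fun z : ℂ => E (n + m, z)) (z + t) :=
    (hE.dE (n + m)).differentiableAt ((isOpen_lt continuous_const Complex.continuous_re).mem_nhds
      (by simp only [Set.mem_ofPred_eq, add_re, ofReal_re]; linarith))
  have d2 : DifferentiableAt ℂ (fun z : ℂ => J (n + v'.1, z)) (z + v'.2) :=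
    (hE.dJ (n + v'.1)).differentiableAt ((isOpen_lt Complex.continuous_re continuous_const).mem_nhds
      (by simp only [Set.mem_ofPred_eq, add_re, hv', ofReal_re]; linarith))
  have d3 : DifferentiableAt ℂ (fun z : ℂ => E (n + m, z + t)) z :=
    d1.comp z (f := fun z : ℂ => z + t) (by fun_prop)
  have d4 : DifferentiableAt ℂ (fun z : ℂ => J (n + v'.1, z + v'.2)) z :=
    d2.comp z (f := fun z : ℂ => z + v'.2) (by fun_prop)
  exact (d3.mul d4).mul (BB_diff n w z)

/-- The difference of `g1` on the two lines. -/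
theorem diff_eq (m : ZMod c) {t s l l' : ℝ} {v v' : AA c} (w : AA c)
    (hs : -t < s) (hs0 : s < 0) (hv : v.2 = l) (hv' : v'.2 = l')
    (hka : v' + v = al c ε d + be c) (hB : BB ε a v' v = 1)
    (hEv : ∀ x : AA c, 0 < x.2.re → E (x + v) = (1 - BB ε a x v) * E x)
    (hJv : ∀ x : AA c, x.2.re < l' → J x = (1 - BB ε a x v) * J (x + v)) (y : ℝ) :
    ∑ n : ZMod c, (g1 ε a E J (m, t) v' w (n, ((s + l : ℝ) : ℂ) + y * I) -
      g1 ε a E J (m, t) v' w (n, s + y * I)) =
    (∑ n : ZMod c, bint ε a d E J (m, t) (w + v) (n, s + y * I)) *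
        (1 - BB ε a (m, t) v * BB ε a w v) -
      (∑ n : ZMod c, bint ε a d E J (m, t) w (n, s + y * I)) * (1 - BB ε a w v) := by
  have e0 : ((s + l : ℝ) : ℂ) + y * I = (s + y * I) + v.2 := by
    rw [hv]; push_cast; ring
  rw [Finset.sum_sub_distrib, e0, ← sum_shift (g1 ε a E J (m, t) v' w) v, Finset.sum_mul,
    Finset.sum_mul, ← Finset.sum_sub_distrib, ← Finset.sum_sub_distrib]
  refine Finset.sum_congr rfl fun n _ => ?_
  generalize hx : ((n, (s : ℂ) + y * I) : AA c) = x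
  have hre : x.2.re = s := by rw [← hx]; simp
  have e1 := hEv (x + (m, (t : ℂ))) (by simp only [Prod.snd_add, add_re, ofReal_re]; linarith)
  have e2 := hJv (x + v') (by simp only [Prod.snd_add, add_re, hv', ofReal_re]; linarith)
  rw [BB_add_left, hB, mul_one, add_assoc, hka] at e2
  rw [BB_add_left] at e1
  unfold g1 bint
  rw [add_right_comm x v, e1, add_assoc x v v', add_comm v v', hka, e2, BB_add_left,
    BB_add_right, BB_comm v w]
  ring

theorem main (h1 : StripSt) (h2 : BIntSt) (hP : Par c ε a d) (hE : IsE ε a d E J G) (m : ZMod c)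
    {t s l l' : ℝ} {v v' : AA c} (hs : -t < s) (hs0 : s < 0) (hv : v.2 = l) (hv' : v'.2 = l')
    (hl0 : 0 < l) (hl : l + l' = (1 + ε) / c)
    (hka : v' + v = al c ε d + be c) (hB : BB ε a v' v = 1)
    (hEv : ∀ x : AA c, 0 < x.2.re → E (x + v) = (1 - BB ε a x v) * E x)
    (hJv : ∀ x : AA c, x.2.re < l' → J x = (1 - BB ε a x v) * J (x + v)) :
    (∀ w : AA c, 0 < w.2.re → t + (w + v).2.re < (1 + ε) / c →
      lint s (bint ε a d E J (m, t) (w + v)) * (1 - BB ε a (m, t) v * BB ε a w v) =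
        lint s (bint ε a d E J (m, t) w) * (1 - BB ε a w v)) ∧
    (t + v.2.re < (1 + ε) / c →
      lint s (bint ε a d E J (m, t) v) * (1 - BB ε a (m, t) v) = c * v.2) := by
  have hI := (h2 c ε a d E J G hP hE m t s hs hs0).1
  have hvr : v.2.re = l := by rw [hv, ofReal_re]
  constructor
  · intro w hw hw'
    have hwv : (w + v).2.re = w.2.re + l := by rw [Prod.snd_add, add_re, hvr]
    have i1 := integrable_finsetSum Finset.univ fun n _ =>
      hI (w + v) (by rw [hwv]; linarith) hw' n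
    have i2 := integrable_finsetSum Finset.univ fun n _ =>
      hI w hw (by rw [hwv] at hw'; linarith) n
    have key := h1 (fun n z => g1 ε a E J (m, t) v' w (n, z)) (fun _ => ∅) (fun _ _ => 0)
      (fun _ => 0) s (s + l) (by linarith) (by simp)
      (fun n z h0 h1 _ => g1_diff hE m w hs hs0 hv' hl n h0 h1) (by simp)
      (fun n η hη => by
        obtain ⟨R₁, k1⟩ := top_pos hP.pos hE m hs hs0 hv' hl hw η hη
        obtain ⟨R₂, k2⟩ := bottom (w := w) hP.pos hE m hs hs0 hv' hl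
          (by rw [hwv] at hw'; linarith) η hη
        refine ⟨max R₁ R₂, fun z h0 h1 => ⟨fun h => ?_, fun h => ?_⟩⟩
        · rw [sub_zero]
          exact k1 (n, z) h0 h1 ((le_max_left _ _).trans h)
        · exact k2 (n, z) h0 h1 (h.trans (neg_le_neg (le_max_right _ _))))
      (by
        simp only [diff_eq m w hs hs0 hv hv' hka hB hEv hJv]
        exact (i1.mul_const _).sub (i2.mul_const _))
    simp only [diff_eq m w hs hs0 hv hv' hka hB hEv hJv] at key
    rw [integral_sub (i1.mul_const _) (i2.mul_const _), integral_mul_const,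
      integral_mul_const] at key
    simp only [zero_mul, mul_zero, add_zero, Finset.sum_const_zero] at key
    unfold lint
    linear_combination key
  · intro hw'
    have i1 := integrable_finsetSum Finset.univ fun n _ => hI v (by rw [hvr]; exact hl0) hw' n
    have e := diff_eq m 0 hs hs0 hv hv' hka hB hEv hJv
    simp only [zero_add, BB_zero_left, mul_one, sub_self, mul_zero, sub_zero] at e
    have key := h1 (fun n z => g1 ε a E J (m, t) v' 0 (n, z)) (fun _ => ∅) (fun _ _ => 0)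
      (fun _ => 1) s (s + l) (by linarith) (by simp)
      (fun n z h0 h1 _ => g1_diff hE m 0 hs hs0 hv' hl n h0 h1) (by simp)
      (fun n η hη => by
        obtain ⟨R₁, k1⟩ := top_zero hE m hs hs0 hv' hl η hη
        obtain ⟨R₂, k2⟩ := bottom (w := 0) hP.pos hE m hs hs0 hv' hl
          (by rw [hvr] at hw'; simp only [Prod.snd_zero, zero_re]; linarith) η hη
        refine ⟨max R₁ R₂, fun z h0 h1 => ⟨fun h => ?_, fun h => ?_⟩⟩
        · exact k1 (n, z) h0 h1 ((le_max_left _ _).trans h)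
        · exact k2 (n, z) h0 h1 (h.trans (neg_le_neg (le_max_right _ _))))
      (by
        simp only [e]
        exact i1.mul_const _)
    simp only [e] at key
    rw [integral_mul_const] at key
    simp only [mul_zero, add_zero, Finset.sum_const, Finset.card_univ,
      ZMod.card, nsmul_eq_mul] at key
    unfold lint
    rw [hv]
    push_cast at key
    linear_combination key

end BShiftAux

theorem bShiftSt (h1 : StripSt) (h2 : BIntSt) : BShiftSt := by
  intro c _ ε a d E J G hP hE m t s hs hs0 v hv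
  have hc := cast_pos (c := c)
  have ha : (al c ε d).2 = ((ε / c : ℝ) : ℂ) := by simp [al]
  have hb : (be c).2 = ((1 / c : ℝ) : ℂ) := by simp [be]
  rcases hv with rfl | rfl
  · exact BShiftAux.main h1 h2 hP hE m hs hs0 ha hb (div_pos hP.pos hc) (by ring) (add_comm _ _)
      (BB_be_al hP) hE.Ea hE.Ja
  · exact BShiftAux.main h1 h2 hP hE m hs hs0 hb ha (by positivity) (by ring) rfl
      (BB_al_be hP) hE.Eb hE.Jb

end Pool.Agent.RM
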