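import Pool.Agent.Lib.MP_ca56d1_nt.B.Bas
import Pool.Agent.Lib.MP_ca56d1_nt.C.Fin

/-! Existence of enough oriented bases of a stable lattice. -/

namespace Pool.Agent.RM

variable {K : Type*} [Field K] [CharZero K] {σ σ' : K →+* ℝ}

namespace BasExAux

/-- `w₁, w₂` is a basis of `L`. -/
structure ZB (L : Submodule ℤ K) (w₁ w₂ : K) : Prop where
  mem : ∀ z, z ∈ L ↔ ∃ m n : ℤ, z = m * w₁ + n * w₂
  ind : ∀ u v : ℚ, (u : K) * w₁ + v * w₂ = 0 → u = 0 ∧ v = 0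

/-- An oriented basis with totally positive first vector. -/
structure Good (σ σ' : K →+* ℝ) (L : Submodule ℤ K) (w₁ w₂ : K) : Prop where
  zb : ZB L w₁ w₂
  pos : 0 < σ w₁
  pos' : 0 < σ' w₁
  ori : dt σ σ' w₁ w₂ < 0

variable {L : Submodule ℤ K} {w₁ w₂ : K}

theorem ZB.change (h : ZB L w₁ w₂) {p q r s : ℤ} (hd : (p * s - q * r) ^ 2 = 1) {W₁ W₂ : K}
    (h1 : W₁ = p * w₁ + q * w₂) (h2 : W₂ = r * w₁ + s * w₂) : ZB L W₁ W₂ := by
  subst h1 h2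
  refine ⟨fun z => ?_, fun u v e => ?_⟩
  · rw [h.mem]
    constructor
    · rintro ⟨m, n, rfl⟩
      have hd' : ((p : K) * s - q * r) ^ 2 = 1 := by exact_mod_cast congrArg (Int.cast (R := K)) hd
      refine ⟨(p * s - q * r) * (m * s - n * r), (p * s - q * r) * (n * p - m * q), ?_⟩
      push_cast
      linear_combination -(m * w₁ + n * w₂) * hd'
    · rintro ⟨m, n, rfl⟩
      exact ⟨m * p + n * r, m * q + n * s, by push_cast; ring⟩
  · have hd' : ((p : ℚ) * s - q * r) ^ 2 = 1 := by exact_mod_cast hd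
    obtain ⟨e1, e2⟩ := h.ind (u * p + v * r) (u * q + v * s) (by push_cast; linear_combination e)
    constructor
    · linear_combination -u * hd' + ((p : ℚ) * s - q * r) * (s * e1 - r * e2)
    · linear_combination -v * hd' + ((p : ℚ) * s - q * r) * (p * e2 - q * e1)

theorem ZB.ne (h : ZB L w₁ w₂) : w₁ ≠ 0 := fun e => one_ne_zero (h.ind 1 0 (by simp [e])).1

theorem ZB.dt_ne (hK : RQ σ σ') (h : ZB L w₁ w₂) : dt σ σ' w₁ w₂ ≠ 0 := fun e => by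
  obtain ⟨c, hc⟩ := hK.dep h.ne e
  have := (h.ind c (-1) (by rw [hc]; push_cast; ring)).2
  norm_num at this

theorem Good.bas {ε : K} (hε : Eps σ σ' ε) (hL : ELat ε L) (h : Good σ σ' L w₁ w₂) :
    ∃ a b c d, c ≠ 0 ∧ Bas σ σ' ε L w₁ w₂ a b c d := by
  obtain ⟨d, c, e1⟩ := (h.zb.mem _).1 ((hL.stab w₁).2 ((h.zb.mem _).2 ⟨1, 0, by simp⟩))
  obtain ⟨b, a, e2⟩ := (h.zb.mem _).1 ((hL.stab w₂).2 ((h.zb.mem _).2 ⟨0, 1, by simp⟩))
  have h1 := (FinAux.trace_det hε h.zb.ne e1 e2).2.1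
  have h2 := dt_eps hε w₁
  have h3 := dt_right (σ := σ) (σ' := σ') d c w₁ w₂
  push_cast at h3
  rw [e1, h3] at h2
  have h4 : 0 < (σ ε - σ' ε) * (σ w₁ * σ' w₁) :=
    mul_pos (by linarith [hε.one_lt, hε.lt_one]) (mul_pos h.pos h.pos')
  have h5 : (0 : ℝ) < c := by
    by_contra h6
    have := mul_nonneg_of_nonpos_of_nonpos (not_lt.1 h6) h.ori.le
    linarith
  have h6 : 0 < c := by exact_mod_cast h5
  lift c to ℕ using h6.le
  refine ⟨a, b, c, d, by omega, h.zb.mem, h.zb.ind, h.pos, h.pos', by simpa using e1, e2, ?_⟩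
  rw [← h1, mul_comm]

theorem exists_nat {x y x' y' : ℝ} (hx : 0 < x) (hx' : 0 < x') (D : ℕ) (hD : D ≠ 0) :
    ∃ j : ℕ, 0 < y + (j * D : ℕ) * x ∧ 0 < y' + (j * D : ℕ) * x' := by
  obtain ⟨j, hj⟩ := exists_nat_gt (max (-y / x) (-y' / x'))
  have h1 : (j : ℝ) ≤ (j * D : ℕ) := by exact_mod_cast Nat.le_mul_of_pos_right j (by omega)
  have h2 := (div_lt_iff₀ hx).1 ((le_max_left _ _).trans_lt (hj.trans_le h1))
  have h3 := (div_lt_iff₀ hx').1 ((le_max_right _ _).trans_lt (hj.trans_le h1))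
  exact ⟨j, by linarith, by linarith⟩

theorem Good.shift (h : Good σ σ' L w₁ w₂) : ∃ j : ℕ, Good σ σ' L w₁ (w₂ + j * w₁) ∧
    0 < σ (w₂ + j * w₁) ∧ 0 < σ' (w₂ + j * w₁) := by
  obtain ⟨j, h1, h2⟩ := exists_nat (y := σ w₂) (y' := σ' w₂) h.pos h.pos' 1 one_ne_zero
  refine ⟨j, ⟨h.zb.change (p := 1) (q := 0) (r := j) (s := 1) (by ring) (by simp)
    (by push_cast; ring), h.pos, h.pos', ?_⟩, by simpa using h1, by simpa using h2⟩
  have := h.ori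
  simp only [dt, map_add, map_mul, map_natCast] at this ⊢
  linarith

theorem Good.rot (h : Good σ σ' L w₁ w₂) (h1 : 0 < σ w₂) (h2 : 0 < σ' w₂) :
    Good σ σ' L w₂ (-w₁) := by
  refine ⟨h.zb.change (p := 0) (q := 1) (r := -1) (s := 0) (by ring) (by simp) (by simp), h1, h2,
    ?_⟩
  have := h.ori
  simp only [dt, map_neg] at this ⊢
  linarith

theorem Good.flip (h : Good σ σ' L w₁ w₂) (h1 : 0 < σ w₂) (h2 : 0 < σ' w₂) (D : ℕ) (hD : D ≠ 0) :
    ∃ j : ℕ, Good σ σ' L (-w₁ + (j * D : ℕ) * w₂) (-w₂) := by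
  obtain ⟨j, h3, h4⟩ := exists_nat (y := -σ w₁) (y' := -σ' w₁) h1 h2 D hD
  refine ⟨j, h.zb.change (p := -1) (q := (j * D : ℕ)) (r := 0) (s := -1) (by ring)
    (by push_cast; ring) (by simp), ?_, ?_, ?_⟩
  · rwa [map_add, map_neg, map_mul, map_natCast]
  · rwa [map_add, map_neg, map_mul, map_natCast]
  · have := h.ori
    simp only [dt, map_add, map_mul, map_natCast, map_neg] at this ⊢
    linarith

theorem exists_good (hK : RQ σ σ') {ε : K} (hL : ELat ε L) :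
    ∃ w₁ w₂, Good σ σ' L w₁ w₂ ∧ 0 < σ w₂ ∧ 0 < σ' w₂ := by
  obtain ⟨w₁, w₂, hi, hm⟩ := FinAux.exists_basis hK hL
  have hz : ZB L w₁ w₂ := ⟨hm, fun u v e => by
    have h1 : (u.den : K) * u = u.num := by exact_mod_cast Rat.den_mul_eq_num u
    have h2 : (v.den : K) * v = v.num := by exact_mod_cast Rat.den_mul_eq_num v
    obtain ⟨e1, e2⟩ := hi (u.num * v.den) (v.num * u.den) (by
      push_cast
      rw [← h1, ← h2]
      linear_combination ((u.den : K) * v.den) * e)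
    simpa [u.den_nz, v.den_nz] using And.intro e1 e2⟩
  obtain ⟨n, hn, h1⟩ := hL.full 1
  obtain ⟨i, j, e⟩ := (hm _).1 h1
  have hg : 0 < Int.gcd i j := Int.gcd_pos_iff.2 (by
    by_contra hc
    push Not at hc
    simp [hc.1, hc.2, hn] at e)
  obtain ⟨i', j', hc, hi', hj'⟩ := Int.exists_gcd_one hg
  obtain ⟨s, r, hb⟩ := Int.isCoprime_iff_gcd_eq_one.2 hc
  have hg' : (0 : ℝ) < Int.gcd i j := by exact_mod_cast hg
  have hn' : (0 : ℝ) < n := by exact_mod_cast Nat.pos_of_ne_zero hn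
  have key : ∀ τ : K →+* ℝ, 0 < τ (i' * w₁ + j' * w₂) := fun τ => by
    have e' : (n : K) = (i' * w₁ + j' * w₂) * (Int.gcd i j : ℕ) := by
      generalize Int.gcd i j = g at hi' hj'
      subst hi' hj'
      push_cast at e
      linear_combination e
    have := congrArg τ e'
    rw [map_natCast, map_mul, map_natCast] at this
    exact (mul_pos_iff_of_pos_right hg').1 (this ▸ hn')
  have hz' : ZB L (i' * w₁ + j' * w₂) ((-r : ℤ) * w₁ + s * w₂) :=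
    hz.change (by linear_combination (s * i' + r * j' + 1) * hb) rfl rfl
  have : ∃ W, Good σ σ' L (i' * w₁ + j' * w₂) W := by
    rcases lt_or_gt_of_ne (hz'.dt_ne hK) with h | h
    · exact ⟨_, hz', key σ, key σ', h⟩
    · refine ⟨-((-r : ℤ) * w₁ + s * w₂), hz'.change (p := 1) (q := 0) (r := 0) (s := -1) (by ring)
        (by simp) (by simp), key σ, key σ', ?_⟩
      simp only [dt, map_neg] at h ⊢
      linarith
  obtain ⟨W, hW⟩ := this
  obtain ⟨k, hk⟩ := hW.shift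
  exact ⟨_, _, hk⟩

theorem Good.fin {ε : K} (hε : Eps σ σ' ε) (hL : ELat ε L) (h : Good σ σ' L w₁ w₂)
    (h1 : 0 < σ w₂) (h2 : 0 < σ' w₂) (u v u' v' : ℚ) (hv : ∀ k : ℤ, v ≠ k) {x y : K}
    (hx : x = u * w₁ + v * w₂) (hy : y = u' * w₁ + v' * w₂) :
    ∃ w₁ w₂ a b c d, c ≠ 0 ∧ Bas σ σ' ε L w₁ w₂ a b c d ∧ ∃ u v u' v' : ℚ,
      x - (u * w₁ + v * w₂) ∈ L ∧ y - (u' * w₁ + v' * w₂) ∈ L ∧ 0 < v ∧ v < 1 ∧ 0 ≤ v' ∧
        v + v' ≤ 1 := by
  subst hx hy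
  have f1 : (⌊v⌋ : ℚ) < v := (Int.floor_le v).lt_of_ne (hv _).symm
  have f2 := Int.lt_floor_add_one v
  have f3 := Int.floor_le v'
  have f4 := Int.lt_floor_add_one v'
  rcases le_total (v - ⌊v⌋ + (v' - ⌊v'⌋)) 1 with h3 | h3
  · obtain ⟨a, b, c, d, hc, hB⟩ := h.bas hε hL
    refine ⟨_, _, a, b, c, d, hc, hB, u, v - ⌊v⌋, u', v' - ⌊v'⌋, (h.zb.mem _).2 ⟨0, ⌊v⌋, ?_⟩,
      (h.zb.mem _).2 ⟨0, ⌊v'⌋, ?_⟩, by linarith, by linarith, by linarith, h3⟩
    · push_cast; ring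
    · push_cast; ring
  · obtain ⟨j, hj⟩ := h.flip h1 h2 (u.den * u'.den) (mul_ne_zero u.den_nz u'.den_nz)
    obtain ⟨a, b, c, d, hc, hB⟩ := hj.bas hε hL
    have e1 : (u.den : K) * u = u.num := by exact_mod_cast Rat.den_mul_eq_num u
    have e2 : (u'.den : K) * u' = u'.num := by exact_mod_cast Rat.den_mul_eq_num u'
    refine ⟨_, _, a, b, c, d, hc, hB, -u, ⌊v⌋ + 1 - v, -u', ⌊v'⌋ + 1 - v',
      (h.zb.mem _).2 ⟨0, ⌊v⌋ + 1 + j * u.num * u'.den, ?_⟩,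
      (h.zb.mem _).2 ⟨0, ⌊v'⌋ + 1 + j * u'.num * u.den, ?_⟩, by linarith, by linarith, by linarith,
      by linarith⟩
    · push_cast; rw [← e1]; ring
    · push_cast; rw [← e2]; ring

end BasExAux

open BasExAux in
theorem basExSt (hK : RQ σ σ') : BasExSt σ σ' := by
  intro ε L hε hL
  obtain ⟨w₁, w₂, h, h1, h2⟩ := exists_good hK hL
  refine ⟨⟨w₁, w₂, h.bas hε hL⟩, fun x y _ hx _ => ?_⟩
  obtain ⟨u, v, ex⟩ := span_of_indep hK.two h.zb.ind x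
  obtain ⟨u', v', ey⟩ := span_of_indep hK.two h.zb.ind y
  by_cases hv : ∀ k : ℤ, v ≠ k
  · exact h.fin hε hL h1 h2 u v u' v' hv ex ey
  · push Not at hv
    obtain ⟨k, rfl⟩ := hv
    obtain ⟨j, h3, h4, h5⟩ := (h.rot h1 h2).shift
    refine h3.fin hε hL h4 h5 (k + j * u) (-u) (v' + j * u') (-u') (fun l hl => hx ?_) ?_ ?_
    · refine (h.zb.mem _).2 ⟨-l, k, ?_⟩
      rw [ex, ← neg_neg u, hl]
      push_cast
      ring
    · rw [ex]; push_cast; ring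
    · rw [ey]; push_cast; ring

end Pool.Agent.RM
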