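import Pool.Agent.Lib.MP_ca56d1_nt.B.St

/-! Holomorphy, difference equation and decay of `dl`. -/

namespace Pool.Agent.RM

open Complex Filter Topology MeasureTheory Set
open scoped Real

namespace DlDiffAux

/-- The derivative of the integrand of the boundary term. -/
noncomputable def ph (p : ℝ) (z t : ℂ) : ℂ := cexp (-z * t) / (1 - cexp (-p * t))

theorem ph_bound {p c : ℝ} {z t : ℂ} (hc : 0 < c) (h1 : c ≤ ‖1 - cexp (-p * t)‖)
    (h2 : c * Real.exp (-(p * t.re)) ≤ ‖1 - cexp (-p * t)‖) :
    ‖ph p z t‖ ≤ 1 / c * Real.exp (z.im * t.im) *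
      Real.exp (-(min z.re (p - z.re)) * |t.re|) := by
  have e3 : (-z * t).re = z.im * t.im - z.re * t.re := by simp
  rw [ph, norm_div, Complex.norm_exp, e3, div_le_iff₀ (hc.trans_le h1)]
  rcases le_total 0 t.re with h | h
  · rw [abs_of_nonneg h]
    calc Real.exp (z.im * t.im - z.re * t.re)
        ≤ Real.exp (z.im * t.im) * Real.exp (-(min z.re (p - z.re)) * t.re) := by
          rw [← Real.exp_add, Real.exp_le_exp]
          nlinarith [min_le_left z.re (p - z.re)]
      _ = 1 / c * Real.exp (z.im * t.im) * Real.exp (-(min z.re (p - z.re)) * t.re) * c := by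
          field_simp
      _ ≤ _ := by gcongr
  · rw [abs_of_nonpos h]
    calc Real.exp (z.im * t.im - z.re * t.re)
        ≤ Real.exp (z.im * t.im) * Real.exp (-(min z.re (p - z.re)) * -t.re) *
            Real.exp (-(p * t.re)) := by
          rw [← Real.exp_add, ← Real.exp_add, Real.exp_le_exp]
          nlinarith [min_le_right z.re (p - z.re)]
      _ = 1 / c * Real.exp (z.im * t.im) * Real.exp (-(min z.re (p - z.re)) * -t.re) *
            (c * Real.exp (-(p * t.re))) := by field_simp
      _ ≤ _ := by gcongr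

theorem den_far {p : ℝ} {t : ℂ} (h : 1 ≤ p * |t.re|) :
    1 / 2 ≤ ‖1 - cexp (-p * t)‖ ∧ 1 / 2 * Real.exp (-(p * t.re)) ≤ ‖1 - cexp (-p * t)‖ := by
  have e : ‖cexp (-p * t)‖ = Real.exp (-(p * t.re)) := by
    rw [Complex.norm_exp]
    simp
  have h1 := norm_sub_norm_le (1 : ℂ) (cexp (-p * t))
  have h2 := norm_sub_norm_le (cexp (-p * t)) (1 : ℂ)
  rw [norm_sub_rev (cexp (-p * t))] at h2
  rw [e, norm_one] at h1 h2
  rcases le_total 0 t.re with h0 | h0
  · rw [abs_of_nonneg h0] at h
    have h3 := Real.add_one_le_exp (p * t.re)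
    have h4 : Real.exp (-(p * t.re)) * Real.exp (p * t.re) = 1 := by
      rw [← Real.exp_add]; simp
    have h5 := Real.exp_pos (-(p * t.re))
    have h6 : Real.exp (-(p * t.re)) ≤ 1 / 2 := by nlinarith
    constructor <;> linarith
  · rw [abs_of_nonpos h0] at h
    have h3 := Real.add_one_le_exp (-(p * t.re))
    constructor <;> linarith

theorem den_line {p δ : ℝ} (hp : 0 < p) (hδ : 0 < δ) (h : p * δ ≤ π) : ∃ c : ℝ, 0 < c ∧ ∀ r : ℝ,
    c ≤ ‖1 - cexp (-p * (r - δ * I))‖ ∧
      c * Real.exp (-(p * ((r : ℂ) - δ * I).re)) ≤ ‖1 - cexp (-p * (r - δ * I))‖ := by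
  obtain ⟨c, hc, h1⟩ := den_lower (a := p * δ) (by positivity) h
  refine ⟨c, hc, fun r => ?_⟩
  have e : |((p : ℂ) * (r - δ * I)).im| = p * δ := by
    simp [abs_mul, abs_of_pos hp, abs_of_pos hδ]
  have h2 := h1 (p * (r - δ * I)) e.ge (e.le.trans h)
  rw [← neg_mul, re_ofReal_mul] at h2
  exact h2

theorem ph_line {p δ : ℝ} (hp : 0 < p) (hδ : 0 < δ) (h : p * δ ≤ π) : ∃ C : ℝ, 0 < C ∧ ∀ r : ℝ,
    1 - cexp (-p * (r - δ * I)) ≠ 0 ∧ ∀ z : ℂ, ‖ph p z (r - δ * I)‖ ≤
      C * Real.exp (-(z.im * δ)) * Real.exp (-(min z.re (p - z.re)) * |r|) := by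
  obtain ⟨c, hc, h1⟩ := den_line hp hδ h
  refine ⟨1 / c, by positivity, fun r => ⟨norm_pos_iff.1 (hc.trans_le (h1 r).1), fun z => ?_⟩⟩
  simpa using ph_bound (z := z) hc (h1 r).1 (h1 r).2

theorem ph_cont {p δ : ℝ} (h : ∀ r : ℝ, 1 - cexp (-p * (r - δ * I)) ≠ 0) (z : ℂ) :
    Continuous fun r : ℝ => ph p z (r - δ * I) := by
  unfold ph
  exact Continuous.div (by fun_prop) (by fun_prop) h

theorem ph_integrable {p δ : ℝ} (hp : 0 < p) (hδ : 0 < δ) (h : p * δ ≤ π) {z : ℂ} (hz : 0 < z.re)
    (hz' : z.re < p) : Integrable fun r : ℝ => ph p z (r - δ * I) := by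
  obtain ⟨C, -, h1⟩ := ph_line hp hδ h
  have hm : 0 < min z.re (p - z.re) := lt_min hz (by linarith)
  exact ((integrable_exp_abs hm).const_mul (C * Real.exp (-(z.im * δ)))).mono'
    (ph_cont (fun r => (h1 r).1) z).aestronglyMeasurable
    (Eventually.of_forall fun r => (h1 r).2 z)

theorem ph_shift {p : ℝ} (hp : 0 < p) (z t : ℂ) :
    ph p z (t - (2 * π / p : ℝ) * I) = ee (z / p) * ph p z t := by
  have hp' : (p : ℂ) ≠ 0 := by exact_mod_cast hp.ne'
  have e1 : -z * (t - (2 * π / p : ℝ) * I) = 2 * π * I * (z / p) + -z * t := by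
    push_cast; field_simp; ring
  have e2 : -(p : ℂ) * (t - (2 * π / p : ℝ) * I) = -p * t + 2 * π * I := by
    push_cast; field_simp; ring
  rw [ph, ph, ee, e1, e2, Complex.exp_add, Complex.exp_add, Complex.exp_two_pi_mul_I, mul_one,
    mul_div_assoc]

theorem exp_small {C m : ℝ} (hm : 0 < m) {η : ℝ} (hη : 0 < η) :
    ∃ R : ℝ, ∀ y : ℝ, R ≤ y → C * Real.exp (-(m * y)) ≤ η := by
  have h1 : Tendsto (fun y : ℝ => C * Real.exp (-(m * y))) atTop (𝓝 (C * 0)) :=
    (Real.tendsto_exp_neg_atTop_nhds_zero.comp (tendsto_id.const_mul_atTop hm)).const_mul C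
  rw [mul_zero] at h1
  exact eventually_atTop.1 (h1.eventually (ge_mem_nhds hη))

theorem residue (hS : StripSt) {p δ : ℝ} (hp : 0 < p) (hδ : 0 < δ) (h : p * δ ≤ π) {z : ℂ}
    (hz : 0 < z.re) (hz' : z.re < p) :
    (1 - ee (z / p)) * ∫ r : ℝ, ph p z (r - δ * I) = -(2 * π * I / p * ee (z / p)) := by
  have hp' : (p : ℂ) ≠ 0 := by exact_mod_cast hp.ne'
  have hpi := Real.pi_pos
  have hδ' : δ < 2 * π / p := by rw [lt_div_iff₀ hp]; nlinarith
  have hm : 0 < min z.re (p - z.re) := lt_min hz (by linarith)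
  have e0 : ∀ y : ℝ, ph p z (-I * (((δ + 2 * π / p : ℝ) : ℂ) + y * I)) - ph p z (-I * (δ + y * I)) =
      (ee (z / p) - 1) * ph p z (y - δ * I) := fun y => by
    have e1 : -I * ((δ : ℂ) + y * I) = y - δ * I := by
      linear_combination (-(y : ℂ)) * I_mul_I
    have e2 : -I * (((δ + 2 * π / p : ℝ) : ℂ) + y * I) = y - δ * I - (2 * π / p : ℝ) * I := by
      push_cast
      linear_combination (-(y : ℂ)) * I_mul_I
    rw [e1, e2, ph_shift hp]
    ring
  have key := hS (ι := Unit) (fun _ ζ => ph p z (-I * ζ)) (fun _ => {2 * π / p})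
    (fun _ _ => ee (z / p) / (-(p * I))) (fun _ => 0) δ (δ + 2 * π / p) (by
      have : 0 < 2 * π / p := by positivity
      linarith)
    (fun _ x hx => by
      rw [Finset.mem_singleton.1 hx]
      exact ⟨hδ', by linarith⟩)
    (fun _ ζ h1 h2 h3 => by
      unfold ph
      refine DifferentiableAt.div (by fun_prop) (by fun_prop) fun h4 => ?_
      obtain ⟨n, hn⟩ := Complex.exp_eq_one_iff.1 (sub_eq_zero.1 h4).symm
      have h5 : ζ = ((n * (2 * π / p) : ℝ) : ℂ) := by
        push_cast
        field_simp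
        apply mul_right_cancel₀ I_ne_zero
        linear_combination hn
      have h6 : ζ.re = n * (2 * π / p) := by rw [h5, ofReal_re]
      have h7 : 0 < 2 * π / p := by positivity
      have h8 : (0 : ℝ) < n := by nlinarith
      have h9 : (n : ℝ) < 2 := by nlinarith
      have h10 : n = 1 := by
        have a1 : (0 : ℤ) < n := by exact_mod_cast h8
        have a2 : n < (2 : ℤ) := by exact_mod_cast h9
        omega
      apply h3 _ (Finset.mem_singleton_self _)
      rw [h5, h10]
      simp)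
    (fun _ x hx => by
      rw [Finset.mem_singleton.1 hx]
      have e1 : cexp (-p * (-I * ((2 * π / p : ℝ) : ℂ))) = 1 := by
        rw [← Complex.exp_two_pi_mul_I]
        congr 1
        push_cast
        field_simp
      have e2 : cexp (-z * (-I * ((2 * π / p : ℝ) : ℂ))) = ee (z / p) := by
        rw [ee]
        congr 1
        push_cast
        field_simp
      have d1 : HasDerivAt (fun ζ : ℂ => 1 - cexp (-p * (-I * ζ))) (-(p * I))
          ((2 * π / p : ℝ) : ℂ) := by
        have := ((((hasDerivAt_id ((2 * π / p : ℝ) : ℂ)).const_mul (-I)).const_mul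
          (-(p : ℂ))).cexp).const_sub 1
        refine this.congr_deriv ?_
        simp only [id]
        rw [e1]
        ring
      have d2 := hasDerivAt_iff_tendsto_slope.1 d1
      have d3 : Tendsto (fun ζ : ℂ => cexp (-z * (-I * ζ))) (𝓝[≠] ((2 * π / p : ℝ) : ℂ))
          (𝓝 (ee (z / p))) := by
        rw [← e2]
        exact (Continuous.tendsto (by fun_prop) _).mono_left nhdsWithin_le_nhds
      refine (d3.div d2 (neg_ne_zero.2 (mul_ne_zero hp' I_ne_zero))).congr fun ζ => ?_
      simp only [Pi.div_apply, slope_def_field, e1, sub_self, sub_zero, ph]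
      rw [div_div_eq_mul_div]
      ring)
    (fun _ η hη => by
      obtain ⟨R, hR⟩ := exp_small (C := 1 / (1 / 2) * Real.exp (|z.im| * (δ + 2 * π / p))) hm hη
      have hb : ∀ ζ : ℂ, δ ≤ ζ.re → ζ.re ≤ δ + 2 * π / p → max R (1 / p) ≤ |ζ.im| →
          ‖ph p z (-I * ζ)‖ ≤ η := fun ζ h1 h2 h3 => by
        have e1 : (-I * ζ).re = ζ.im := by simp
        have e2 : (-I * ζ).im = -ζ.re := by simp
        have h4 : 1 ≤ p * |(-I * ζ).re| := by
          rw [e1, mul_comm, ← div_le_iff₀ hp]
          exact (le_max_right _ _).trans h3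
        obtain ⟨h5, h6⟩ := den_far h4
        refine (ph_bound (by norm_num) h5 h6).trans (le_trans ?_ (hR _ ((le_max_left _ _).trans h3)))
        rw [e1, e2, neg_mul]
        gcongr _ * Real.exp ?_ * _
        refine (le_abs_self _).trans ?_
        rw [abs_mul, abs_neg, abs_of_nonneg (hδ.le.trans h1)]
        gcongr
      refine ⟨max R (1 / p), fun ζ h1 h2 => ⟨fun h3 => ?_, fun h3 => ?_⟩⟩
      · rw [sub_zero]
        exact hb ζ h1 h2 (h3.trans (le_abs_self _))
      · exact hb ζ h1 h2 ((le_neg.1 h3).trans (neg_le_abs _)))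
    (by
      simp only [Finset.univ_unique, Finset.sum_singleton, e0]
      exact (ph_integrable hp hδ h hz hz').const_mul _)
  simp only [Finset.univ_unique, Finset.sum_singleton, e0, integral_const_mul, zero_mul,
    zero_add] at key
  have e3 : ee (z / p) / (-(p * I)) = I * ee (z / p) / p := by
    field_simp
    linear_combination (-ee (z / p)) * I_mul_I
  rw [e3] at key
  apply mul_left_cancel₀ I_ne_zero
  linear_combination -key

theorem hasDeriv {p δ : ℝ} (hp : 0 < p) (hδ : 0 < δ) (h : p * δ ≤ π) {z : ℂ}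
    (hz : 0 < z.re) (hz' : z.re < p) :
    HasDerivAt (fun w => ∫ r : ℝ, ph p w (r - δ * I) / (r - δ * I))
      (-∫ r : ℝ, ph p z (r - δ * I)) z := by
  obtain ⟨C, hC, h1⟩ := ph_line hp hδ h
  set m := min z.re (p - z.re) / 2 with hmd
  have hm : 0 < m := half_pos (lt_min hz (by linarith))
  have ht : ∀ r : ℝ, δ ≤ ‖(r : ℂ) - δ * I‖ := fun r => by
    have := Complex.abs_im_le_norm ((r : ℂ) - δ * I)
    simpa [abs_of_pos hδ] using this
  have ht0 : ∀ r : ℝ, (r : ℂ) - δ * I ≠ 0 := fun r => norm_pos_iff.1 (hδ.trans_le (ht r))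
  have hc : ∀ w : ℂ, Continuous fun r : ℝ => ph p w (r - δ * I) / (r - δ * I) := fun w =>
    (ph_cont (fun r => (h1 r).1) w).div (by fun_prop) ht0
  have key := hasDerivAt_integral_of_dominated_loc_of_deriv_le (μ := volume)
    (F := fun w (r : ℝ) => ph p w (r - δ * I) / (r - δ * I)) (x₀ := z)
    (F' := fun w (r : ℝ) => -ph p w (r - δ * I))
    (bound := fun r => C * Real.exp ((|z.im| + m) * δ) * Real.exp (-m * |r|))
    (Metric.ball_mem_nhds z hm) (Eventually.of_forall fun w => (hc w).aestronglyMeasurable)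
    (((ph_integrable hp hδ h hz hz').norm.div_const δ).mono' (hc z).aestronglyMeasurable
      (Eventually.of_forall fun r => by
        rw [norm_div]
        exact div_le_div_of_nonneg_left (norm_nonneg _) hδ (ht r)))
    (ph_cont (fun r => (h1 r).1) z).neg.aestronglyMeasurable
    (Eventually.of_forall fun r w hw => by
      rw [norm_neg]
      refine ((h1 r).2 w).trans ?_
      have h2 : ‖w - z‖ < m := by rwa [Metric.mem_ball, dist_eq_norm] at hw
      have h3 := abs_lt.1 ((Complex.abs_re_le_norm (w - z)).trans_lt h2)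
      have h4 := abs_lt.1 ((Complex.abs_im_le_norm (w - z)).trans_lt h2)
      rw [sub_re] at h3
      rw [sub_im] at h4
      have h5 : m ≤ min w.re (p - w.re) := by
        have := min_le_left z.re (p - z.re)
        have := min_le_right z.re (p - z.re)
        exact le_min (by linarith) (by linarith)
      have h6 := neg_abs_le z.im
      have h7 := abs_nonneg r
      gcongr
      nlinarith)
    ((integrable_exp_abs hm).const_mul _)
    (Eventually.of_forall fun r w _ => by
      have := ((((hasDerivAt_id w).neg.mul_const ((r : ℂ) - δ * I)).cexp).div_const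
        (1 - cexp (-p * (r - δ * I)))).div_const ((r : ℂ) - δ * I)
      refine this.congr_deriv ?_
      have := ht0 r
      simp only [ph, id, Pi.neg_apply]
      field_simp)
  rw [← integral_neg]
  exact key.2

theorem diff {p q : ℝ} (hp : 0 < p) (hq : 0 < q) :
    DifferentiableOn ℂ (dl p q) {z | 0 < z.re ∧ z.re < p + q} := by
  intro z hz
  have hδ : 0 < 1 / (p + q) := by positivity
  have hδ' : 1 / (p + q) * (p + q) ≤ π := by
    rw [one_div_mul_cancel (by positivity)]
    linarith [Real.pi_gt_three]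
  obtain ⟨C, hC, h1⟩ := kern_bound hp hq hδ le_rfl hδ'
  set m := min z.re (p + q - z.re) / 2 with hmd
  have hm : 0 < m := half_pos (lt_min hz.1 (by linarith [hz.2]))
  have e : ∀ r : ℝ, ((r : ℂ) - (1 / (p + q) : ℝ) * I).im = -(1 / (p + q)) := fun r => by
    simp only [sub_im, ofReal_im, mul_im, ofReal_re, I_im, mul_one, I_re, mul_zero, add_zero,
      zero_sub]
  have e' : ∀ r : ℝ, ((r : ℂ) - (1 / (p + q) : ℝ) * I).re = r := fun r => by
    simp only [sub_re, ofReal_im, mul_re, ofReal_re, I_im, mul_one, I_re, mul_zero, sub_zero]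
  have h2 := fun (w : ℂ) (r : ℝ) => h1 w (r - (1 / (p + q) : ℝ) * I)
    (by rw [e, abs_neg, abs_of_pos hδ]) (by rw [e, abs_neg, abs_of_pos hδ])
  have hb : ∀ w ∈ Metric.ball z m, m ≤ min w.re (p + q - w.re) ∧ -w.im ≤ |z.im| + m := by
    intro w hw
    have h2 : ‖w - z‖ < m := by rwa [Metric.mem_ball, dist_eq_norm] at hw
    have h3 := abs_lt.1 ((Complex.abs_re_le_norm (w - z)).trans_lt h2)
    have h4 := abs_lt.1 ((Complex.abs_im_le_norm (w - z)).trans_lt h2)
    rw [sub_re] at h3
    rw [sub_im] at h4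
    have := min_le_left z.re (p + q - z.re)
    have := min_le_right z.re (p + q - z.re)
    have := neg_abs_le z.im
    exact ⟨le_min (by linarith) (by linarith), by linarith⟩
  have key := Shared.HoloIntegral.differentiableOn_integral (μ := volume)
    (F := fun w (r : ℝ) => kern p q w (r - (1 / (p + q) : ℝ) * I)) (U := Metric.ball z m)
    Metric.isOpen_ball
    (b := fun r => C * Real.exp ((|z.im| + m) * (1 / (p + q))) * Real.exp (-m * |r|))
    (fun w hw => by
      have h3 := (hb w hw).1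
      have h4 := min_le_left w.re (p + q - w.re)
      have h5 := min_le_right w.re (p + q - w.re)
      exact (kern_integrable' hp hq (by linarith) (by linarith) hδ (by
        rw [one_div_mul_cancel (by positivity)]; norm_num)).aestronglyMeasurable)
    (Eventually.of_forall fun r => by
      unfold kern
      fun_prop)
    (Eventually.of_forall fun r w hw => by
      refine (h2 w r).2.2.2.trans ?_
      obtain ⟨h3, h4⟩ := hb w hw
      have h7 := abs_nonneg r
      rw [e, e']
      gcongr _ * Real.exp ?_ * Real.exp ?_ <;> nlinarith)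
    ((integrable_exp_abs hm).const_mul _)
  exact (key.differentiableAt (Metric.ball_mem_nhds z hm)).differentiableWithinAt

theorem decay {p q : ℝ} (hp : 0 < p) (hq : 0 < q) {s t : ℝ} (hs : 0 < s) (ht : t < p + q) {η : ℝ}
    (hη : 0 < η) : ∃ R : ℝ, ∀ z : ℂ, s ≤ z.re → z.re ≤ t → R ≤ z.im → ‖dl p q z‖ ≤ η := by
  have hδ : 0 < 1 / (p + q) := by positivity
  have hδ' : 1 / (p + q) * (p + q) ≤ π := by
    rw [one_div_mul_cancel (by positivity)]
    linarith [Real.pi_gt_three]
  obtain ⟨C, hC, h1⟩ := kern_bound hp hq hδ le_rfl hδ'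
  set m := min s (p + q - t) with hmd
  have hm : 0 < m := lt_min hs (by linarith)
  have e : ∀ r : ℝ, ((r : ℂ) - (1 / (p + q) : ℝ) * I).im = -(1 / (p + q)) := fun r => by
    simp only [sub_im, ofReal_im, mul_im, ofReal_re, I_im, mul_one, I_re, mul_zero, add_zero,
      zero_sub]
  have e' : ∀ r : ℝ, ((r : ℂ) - (1 / (p + q) : ℝ) * I).re = r := fun r => by
    simp only [sub_re, ofReal_im, mul_re, ofReal_re, I_im, mul_one, I_re, mul_zero, sub_zero]
  obtain ⟨R, hR⟩ := exp_small (C := C * ∫ r : ℝ, Real.exp (-m * |r|)) hδ hη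
  refine ⟨R, fun z h2 h3 h4 => le_trans ?_ (hR _ h4)⟩
  have h5 : m ≤ min z.re (p + q - z.re) := by
    have := min_le_left s (p + q - t)
    have := min_le_right s (p + q - t)
    exact le_min (by linarith) (by linarith)
  have key := norm_integral_le_of_norm_le (μ := volume)
    (f := fun r : ℝ => kern p q z (r - (1 / (p + q) : ℝ) * I))
    ((integrable_exp_abs hm).const_mul (C * Real.exp (-(1 / (p + q) * z.im))))
    (Eventually.of_forall fun r => by
      refine (h1 z _ (by rw [e, abs_neg, abs_of_pos hδ])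
        (by rw [e, abs_neg, abs_of_pos hδ])).2.2.2.trans ?_
      have h7 := abs_nonneg r
      rw [e, e', mul_neg, mul_comm z.im]
      gcongr)
  rw [integral_const_mul] at key
  exact key.trans_eq (by ring)

theorem tendsto_dl {p q : ℝ} (hp : 0 < p) (hq : 0 < q) {z : ℂ} (hz : 0 < z.re)
    (hz' : z.re < p + q) : Tendsto (fun y : ℝ => dl p q (z + y * I)) atTop (𝓝 0) := by
  rw [NormedAddGroup.tendsto_nhds_zero]
  intro η hη
  obtain ⟨R, hR⟩ := decay hp hq hz hz' (half_pos hη)
  filter_upwards [eventually_ge_atTop (R - z.im)] with y hy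
  exact (hR _ (by simp) (by simp) (by simp; linarith)).trans_lt (half_lt_self hη)

theorem tendsto_ee {p : ℝ} (hp : 0 < p) (z : ℂ) :
    Tendsto (fun y : ℝ => ee ((z + y * I) / p)) atTop (𝓝 0) := by
  rw [NormedAddGroup.tendsto_nhds_zero]
  intro η hη
  obtain ⟨R, hR⟩ := exp_small (C := ‖ee (z / p)‖) (m := 2 * π / p) (by positivity) (half_pos hη)
  filter_upwards [eventually_ge_atTop R] with y hy
  refine lt_of_eq_of_lt ?_ ((hR y hy).trans_lt (half_lt_self hη))
  have hp' : (p : ℂ) ≠ 0 := by exact_mod_cast hp.ne'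
  have e : 2 * π * I * ((z + y * I) / p) = 2 * π * I * (z / p) + (-(2 * π / p * y) : ℝ) := by
    push_cast
    field_simp
    linear_combination (y : ℂ) * I_mul_I
  rw [ee, ee, e, Complex.exp_add, norm_mul, Complex.norm_exp_ofReal]

theorem diffEq (hS : StripSt) {p q : ℝ} (hp : 0 < p) (hq : 0 < q) {z : ℂ} (hz : 0 < z.re)
    (hz' : z.re < p) : cexp (dl p q (z + q)) = (1 - ee (z / p)) * cexp (dl p q z) := by
  have hp' : (p : ℂ) ≠ 0 := by exact_mod_cast hp.ne'
  have hδ : 0 < 1 / (p + q) := by positivity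
  have hδ1 : 1 / (p + q) * (p + q) = 1 := one_div_mul_cancel (by positivity)
  have hδ2 : p * (1 / (p + q)) ≤ π := by nlinarith [Real.pi_gt_three]
  set A : ℂ → ℂ := fun w => ∫ r : ℝ, ph p w (r - (1 / (p + q) : ℝ) * I) /
    (r - (1 / (p + q) : ℝ) * I) with hA
  have hA' : ∀ w : ℂ, 0 < w.re → w.re < p → A w = dl p q w - dl p q (w + q) := fun w h1 h2 => by
    rw [dl_sub hp hq h1 h2 hδ (by linarith), hA]
    simp only [ph, div_div]
  have hd : ∀ w : ℂ, 0 < w.re → w.re < p →
      HasDerivAt (fun w => cexp (A w) * (1 - ee (w / p))) 0 w := fun w h1 h2 => by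
    have d1 := (hasDeriv hp hδ hδ2 h1 h2).cexp
    have d2 : HasDerivAt (fun w : ℂ => 1 - ee (w / p)) (-(2 * π * I / p * ee (w / p))) w := by
      have := ((((hasDerivAt_id w).div_const (p : ℂ)).const_mul (2 * π * I)).cexp).const_sub 1
      refine this.congr_deriv ?_
      simp only [ee, id]
      ring
    refine (d1.mul d2).congr_deriv ?_
    have := residue hS hp hδ hδ2 h1 h2
    linear_combination (-cexp (A w)) * this
  set g : ℝ → ℂ := fun y => cexp (A (z + y * I)) * (1 - ee ((z + y * I) / p)) with hg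
  have hg' : ∀ y : ℝ, HasDerivAt g 0 y := fun y => by
    have d1 : HasDerivAt (fun w : ℂ => z + w * I) I (y : ℂ) := by
      simpa using ((hasDerivAt_id (y : ℂ)).mul_const I).const_add z
    have d2 := (hd (z + y * I) (by simpa using hz) (by simpa using hz')).comp (y : ℂ) d1
    rw [zero_mul] at d2
    exact d2.comp_ofReal
  have hc : ∀ y : ℝ, g y = g 0 := fun y =>
    is_const_of_deriv_eq_zero (fun y => (hg' y).differentiableAt) (fun y => (hg' y).deriv) y 0
  have hl : Tendsto g atTop (𝓝 (cexp (0 - 0) * (1 - 0))) := by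
    have t1 := tendsto_dl hp hq hz (by linarith)
    have t2 := tendsto_dl hp hq (z := z + q) (by simp; linarith) (by simpa using hz')
    refine (((t1.sub t2).cexp).mul ((tendsto_ee hp z).const_sub 1)).congr fun y => ?_
    rw [hg]
    simp only
    rw [hA' _ (by simpa using hz) (by simpa using hz'), add_right_comm]
  have h1 : g 0 = 1 := by
    have := tendsto_nhds_unique hl (tendsto_const_nhds.congr fun y => (hc y).symm)
    simpa using this.symm
  rw [hg] at h1
  simp only [ofReal_zero, zero_mul, add_zero] at h1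
  rw [hA' z hz hz', Complex.exp_sub] at h1
  have h2 := Complex.exp_ne_zero (dl p q (z + q))
  field_simp at h1
  linear_combination -h1

end DlDiffAux

theorem dlDiff (h : StripSt) : DlDiff := fun _ _ hp hq =>
  ⟨DlDiffAux.diff hp hq, fun _ hz hz' => DlDiffAux.diffEq h hp hq hz hz',
    fun _ _ hs ht _ hη => DlDiffAux.decay hp hq hs ht hη⟩

end Pool.Agent.RM
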