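import Pool.Agent.Lib.MP_ca56d1_nt.B.St

/-! The reflection formula of the logarithm of the double sine function. -/

namespace Pool.Agent.RM

open Complex Filter Topology MeasureTheory
open scoped Real

namespace DlReflAux

theorem den_ne {p : ℝ} (hp : 0 < p) {t : ℂ} (ht : t ≠ 0) (h : p * |t.im| < 2 * π) :
    1 - cexp (-p * t) ≠ 0 := by
  intro h0
  obtain ⟨n, hn⟩ := Complex.exp_eq_one_iff.1 (sub_eq_zero.1 h0).symm
  have h1 : -(p * t.im) = n * (2 * π) := by simpa using congrArg Complex.im hn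
  have h2 : |(n : ℝ)| * (2 * π) < 1 * (2 * π) := by
    have := congrArg abs h1
    rw [abs_neg, abs_mul, abs_mul, abs_of_pos hp, abs_of_pos Real.two_pi_pos] at this
    linarith
  have h3 : |n| < 1 := by exact_mod_cast lt_of_mul_lt_mul_right h2 Real.two_pi_pos.le
  rw [Int.abs_lt_one_iff.1 h3, Int.cast_zero, zero_mul, mul_eq_zero] at hn
  rcases hn with hn | hn
  · exact hp.ne' (by exact_mod_cast neg_eq_zero.1 hn)
  · exact ht hn

theorem kern_refl (p q : ℝ) (z t : ℂ) : kern p q (p + q - z) (-t) = -kern p q z t := by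
  have e1 : 1 - cexp (-p * -t) = -cexp (p * t) * (1 - cexp (-p * t)) := by
    rw [mul_sub, neg_mul (cexp _) (cexp _), ← Complex.exp_add]
    simp
    ring
  have e2 : 1 - cexp (-q * -t) = -cexp (q * t) * (1 - cexp (-q * t)) := by
    rw [mul_sub, neg_mul (cexp _) (cexp _), ← Complex.exp_add]
    simp
    ring
  have e3 : cexp (-(p + q - z) * -t) = cexp (p * t) * cexp (q * t) * cexp (-z * t) := by
    rw [← Complex.exp_add, ← Complex.exp_add]
    congr 1
    ring
  rw [kern, kern, e1, e2, e3, show -cexp (p * t) * (1 - cexp (-p * t)) *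
    (-cexp (q * t) * (1 - cexp (-q * t))) * -t = cexp (p * t) * cexp (q * t) *
      -((1 - cexp (-p * t)) * (1 - cexp (-q * t)) * t) by ring,
    mul_div_mul_left _ _ (mul_ne_zero (Complex.exp_ne_zero _) (Complex.exp_ne_zero _)), div_neg]

theorem den_half {p : ℝ} {t : ℂ} (h : 1 ≤ p * t.re) : 1 / 2 ≤ ‖1 - cexp (-p * t)‖ := by
  have h1 := norm_sub_norm_le (1 : ℂ) (cexp (-p * t))
  have h2 : (-p * t : ℂ).re = -(p * t.re) := by simp
  rw [norm_one, Complex.norm_exp, h2] at h1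
  have h3 : Real.exp (-(p * t.re)) ≤ 1 / 2 := by
    rw [Real.exp_neg, ← one_div]
    exact one_div_le_one_div_of_le two_pos (by linarith [Real.add_one_le_exp (p * t.re)])
  linarith

theorem kern_small {p q : ℝ} (hp : 0 < p) (hq : 0 < q) {z : ℂ} (hz : 0 < z.re) (δ : ℝ) {η : ℝ}
    (hη : 0 < η) : ∃ R : ℝ, ∀ t : ℂ, R ≤ t.re → |t.im| ≤ δ → ‖kern p q z t‖ ≤ η := by
  refine ⟨max (max (1 / p) (1 / q)) (4 * Real.exp (|z.im| * δ) / η), fun t h1 h2 => ?_⟩
  rw [max_le_iff, max_le_iff, div_le_iff₀' hp, div_le_iff₀' hq, div_le_iff₀' hη] at h1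
  obtain ⟨⟨h3, h4⟩, h5⟩ := h1
  have h6 := den_half h3
  have h7 := den_half h4
  have h8 : t.re ≤ ‖t‖ := Complex.re_le_norm t
  have h9 : 0 < t.re := pos_of_mul_pos_left (by linarith) hp.le |> fun h => h
  have e3 : (-z * t).re = z.im * t.im - z.re * t.re := by simp
  rw [kern, norm_div, norm_mul, norm_mul, Complex.norm_exp, e3,
    div_le_iff₀ (by have := h9.trans_le h8; positivity)]
  calc Real.exp (z.im * t.im - z.re * t.re) ≤ Real.exp (|z.im| * δ) := by
        rw [Real.exp_le_exp]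
        have a1 : z.im * t.im ≤ |z.im| * δ :=
          (le_abs_self _).trans (by rw [abs_mul]; gcongr)
        nlinarith
    _ ≤ η * (1 / 2 * (1 / 2) * t.re) := by linarith
    _ ≤ _ := by gcongr

theorem line_ne {y : ℝ} (hy : y ≠ 0) (r : ℝ) : (r : ℂ) + y * I ≠ 0 := fun h =>
  hy (by simpa using congrArg Complex.im h)

theorem int_two {y : ℝ} (hy : y ≠ 0) : Integrable fun r : ℝ => (((r : ℂ) + y * I) ^ 2)⁻¹ := by
  refine (integrable_inv_one_add_sq.const_mul (1 + (y ^ 2)⁻¹)).mono'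
    (Continuous.aestronglyMeasurable (Continuous.inv₀ (by fun_prop)
      fun r => pow_ne_zero _ (line_ne hy r))) (Eventually.of_forall fun r => ?_)
  have h1 : 0 < y ^ 2 := by positivity
  rw [norm_inv, norm_pow, Complex.sq_norm, Complex.normSq_add_mul_I, ← div_eq_mul_inv,
    ← one_div, div_le_div_iff₀ (by positivity) (by positivity)]
  have h2 : (y ^ 2)⁻¹ * y ^ 2 = 1 := inv_mul_cancel₀ h1.ne'
  have h3 : 0 ≤ (y ^ 2)⁻¹ * r ^ 2 := by positivity
  nlinarith

theorem int_three {y : ℝ} (hy : y ≠ 0) : Integrable fun r : ℝ => (((r : ℂ) + y * I) ^ 3)⁻¹ := by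
  refine ((int_two hy).norm.const_mul |y|⁻¹).mono'
    (Continuous.aestronglyMeasurable (Continuous.inv₀ (by fun_prop)
      fun r => pow_ne_zero _ (line_ne hy r))) (Eventually.of_forall fun r => ?_)
  rw [pow_succ', mul_inv, norm_mul, norm_inv]
  refine mul_le_mul_of_nonneg_right (inv_anti₀ (abs_pos.2 hy) ?_) (norm_nonneg _)
  simpa using Complex.abs_im_le_norm ((r : ℂ) + y * I)

theorem int_three_eq {y : ℝ} (hy : y ≠ 0) : ∫ r : ℝ, (((r : ℂ) + y * I) ^ 3)⁻¹ = 0 := by
  refine integral_eq_zero_of_hasDerivAt_of_integrable (fun r => ?_) (int_three hy)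
    ((int_two hy).const_mul (-1 / 2))
  have h1 : HasDerivAt (fun w : ℂ => w + y * I) 1 r := (hasDerivAt_id _).add_const _
  have h2 := (((h1.pow 2).inv (pow_ne_zero _ (line_ne hy r))).const_mul (-1 / 2)).comp_ofReal
  refine h2.congr_deriv ?_
  have := line_ne hy r
  simp only [Pi.pow_apply]
  field_simp
  norm_num

theorem int_two_eq (y : ℝ) : ∫ r : ℝ, (((r : ℂ) + (-y : ℝ) * I) ^ 2)⁻¹ =
    ∫ r : ℝ, (((r : ℂ) + y * I) ^ 2)⁻¹ := by
  rw [← integral_neg_eq_self]
  refine integral_congr_ae (Eventually.of_forall fun r => ?_)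
  push_cast
  ring

theorem exp_taylor : ∃ ρ : ℂ → ℂ, Tendsto ρ (𝓝 0) (𝓝 (1 / 6)) ∧
    ∀ w, cexp w = 1 + w + w ^ 2 / 2 + w ^ 3 * ρ w := by
  have h := (Complex.exp_sub_sum_range_succ_isLittleO_pow 3).tendsto_div_nhds_zero.add_const (1 / 6)
  rw [zero_add] at h
  refine ⟨_, h, fun w => ?_⟩
  by_cases hw : w = 0
  · simp [hw]
  · simp only [Finset.sum_range_succ, Finset.sum_range_zero, Nat.factorial]
    field_simp
    push_cast
    ring

/-- The kernel without its poles of order two and three. -/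
noncomputable def FF (q : ℝ) (z t : ℂ) : ℂ :=
  kern 1 q z t - (1 / q * (t ^ 3)⁻¹ + ((1 + q) / 2 - z) / q * (t ^ 2)⁻¹)

theorem residue {q : ℝ} (hq : 0 < q) (z : ℂ) :
    Tendsto (fun t => t * FF q z t) (𝓝[≠] 0) (𝓝 (b22 q z / 2)) := by
  obtain ⟨ρ, h0, h1⟩ := exp_taylor
  have hq' : (q : ℂ) ≠ 0 := by exact_mod_cast hq.ne'
  have hl : ∀ a : ℂ, Tendsto (fun t => ρ (a * t)) (𝓝 0) (𝓝 (1 / 6)) := fun a =>
    h0.comp (Continuous.tendsto' (by fun_prop) _ _ (mul_zero a))
  let N : ℂ × ℂ × ℂ × ℂ → ℂ := fun v =>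
    z ^ 2 / 2 - z ^ 3 * v.1 * v.2.1 - (1 / q * (q ^ 3 * v.2.2.2 + q ^ 2 / 4 + q * v.2.2.1 -
      v.1 * (q ^ 3 * v.2.2.2 + q ^ 2 * v.2.2.1) / 2 + v.1 ^ 2 * q ^ 3 * v.2.2.1 * v.2.2.2) +
      ((1 + q) / 2 - z) / q * (-(q + q ^ 2) / 2 + v.1 * (q ^ 3 * v.2.2.2 + q ^ 2 / 4 + q * v.2.2.1 -
      v.1 * (q ^ 3 * v.2.2.2 + q ^ 2 * v.2.2.1) / 2 + v.1 ^ 2 * q ^ 3 * v.2.2.1 * v.2.2.2)))
  let A : ℂ × ℂ × ℂ × ℂ → ℂ := fun v => 1 - v.1 / 2 + v.1 ^ 2 * v.2.2.1
  let B : ℂ × ℂ × ℂ × ℂ → ℂ := fun v => q - q ^ 2 * v.1 / 2 + q ^ 3 * v.1 ^ 2 * v.2.2.2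
  have hv : Tendsto (fun t : ℂ => (t, ρ (-z * t), ρ (-(1 : ℝ) * t), ρ (-q * t))) (𝓝 0)
      (𝓝 (0, 1 / 6, 1 / 6, 1 / 6)) :=
    tendsto_id.prodMk_nhds ((hl _).prodMk_nhds ((hl _).prodMk_nhds (hl _)))
  have hN := (Continuous.tendsto (f := N) (by simp only [N]; fun_prop) _).comp hv
  have hA := (Continuous.tendsto (f := A) (by simp only [A]; fun_prop) _).comp hv
  have hB := (Continuous.tendsto (f := B) (by simp only [B]; fun_prop) _).comp hv
  have hA0 : A (0, 1 / 6, 1 / 6, 1 / 6) ≠ 0 := by simp [A]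
  have hB0 : B (0, 1 / 6, 1 / 6, 1 / 6) ≠ 0 := by simpa [B] using hq.ne'
  have hlim := hN.div (hA.mul hB) (mul_ne_zero hA0 hB0)
  have e : N (0, 1 / 6, 1 / 6, 1 / 6) / (A (0, 1 / 6, 1 / 6, 1 / 6) * B (0, 1 / 6, 1 / 6, 1 / 6)) =
      b22 q z / 2 := by
    simp only [N, A, B, b22]
    field_simp
    ring
  rw [e] at hlim
  refine (hlim.mono_left nhdsWithin_le_nhds).congr' ?_
  filter_upwards [self_mem_nhdsWithin, (hA.eventually_ne hA0).filter_mono nhdsWithin_le_nhds,
    (hB.eventually_ne hB0).filter_mono nhdsWithin_le_nhds] with t ht ha hb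
  have ht' : t ≠ 0 := ht
  have ea : 1 - cexp (-(1 : ℝ) * t) = t * A (t, ρ (-z * t), ρ (-(1 : ℝ) * t), ρ (-q * t)) := by
    rw [h1]
    simp only [A]
    push_cast
    ring
  have eb : 1 - cexp (-q * t) = t * B (t, ρ (-z * t), ρ (-(1 : ℝ) * t), ρ (-q * t)) := by
    rw [h1]
    simp only [B]
    ring
  have en : cexp (-z * t) = t ^ 2 * N (t, ρ (-z * t), ρ (-(1 : ℝ) * t), ρ (-q * t)) +
      (1 / q + ((1 + q) / 2 - z) / q * t) * (A (t, ρ (-z * t), ρ (-(1 : ℝ) * t), ρ (-q * t)) *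
        B (t, ρ (-z * t), ρ (-(1 : ℝ) * t), ρ (-q * t))) := by
    rw [h1]
    simp only [N, A, B]
    field_simp
    ring
  simp only [Function.comp_apply, Pi.div_apply] at ha hb ⊢
  rw [FF, kern, ea, eb, en]
  generalize (t, ρ (-z * t), ρ (-(1 : ℝ) * t), ρ (-q * t)) = v at ha hb ⊢
  field_simp
  ring

theorem FF_small {q : ℝ} (hq : 0 < q) {z : ℂ} (hz : 0 < z.re) (hz' : z.re < 1 + q) (δ : ℝ) {η : ℝ}
    (hη : 0 < η) : ∃ R : ℝ, ∀ t : ℂ, R ≤ |t.re| → |t.im| ≤ δ → ‖FF q z t‖ ≤ η := by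
  obtain ⟨R₁, h1⟩ := kern_small one_pos hq hz δ (half_pos hη)
  obtain ⟨R₂, h2⟩ := kern_small one_pos hq (z := (1 : ℝ) + q - z) (by simpa using hz') δ
    (half_pos hη)
  set a : ℂ := 1 / q
  set b : ℂ := ((1 + q) / 2 - z) / q with hb
  refine ⟨max (max R₁ R₂) (max 1 ((‖a‖ + ‖b‖) / (η / 2))), fun t h3 h4 => ?_⟩
  rw [max_le_iff, max_le_iff, max_le_iff, div_le_iff₀' (half_pos hη)] at h3
  obtain ⟨⟨h5, h6⟩, h7, h8⟩ := h3
  have hk : ‖kern 1 q z t‖ ≤ η / 2 := by
    rcases le_total 0 t.re with h | h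
    · exact h1 t (by rwa [abs_of_nonneg h] at h5) h4
    · have := h2 (-t) (by rwa [abs_of_nonpos h] at h6) (by simpa using h4)
      rwa [kern_refl, norm_neg] at this
  have h9 : |t.re| ≤ ‖t‖ := Complex.abs_re_le_norm t
  have hn : ∀ n : ℕ, ‖(t ^ (n + 1))⁻¹‖ ≤ |t.re|⁻¹ := fun n => by
    rw [norm_inv, norm_pow]
    exact inv_anti₀ (by linarith) (h9.trans (le_self_pow₀ (h7.trans h9) n.succ_ne_zero))
  have hg : ‖a * (t ^ 3)⁻¹ + b * (t ^ 2)⁻¹‖ ≤ η / 2 := by
    refine (norm_add_le _ _).trans ?_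
    rw [norm_mul, norm_mul]
    refine (add_le_add (mul_le_mul_of_nonneg_left (hn 2) (norm_nonneg a))
      (mul_le_mul_of_nonneg_left (hn 1) (norm_nonneg b))).trans ?_
    rw [← add_mul, ← div_eq_mul_inv, div_le_iff₀ (by linarith)]
    exact h8
  refine (norm_sub_le _ _).trans ?_
  linarith

end DlReflAux

open DlReflAux

theorem dlRefl (h : StripSt) (_h2 : DlDiff) : DlRefl := by
  intro q hq z hz hz'
  set δ : ℝ := 1 / (1 + q) with hδ
  have hδ0 : 0 < δ := by positivity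
  have hδ1 : δ * (1 + q) = 1 := one_div_mul_cancel (by positivity)
  have hpi := Real.pi_gt_three
  have e1 : ∀ y : ℝ, -I * (δ + y * I) = y + (-δ : ℝ) * I := fun y => by
    push_cast
    linear_combination (-y) * I_mul_I
  have e2 : ∀ y : ℝ, -I * ((-δ : ℝ) + y * I) = y + δ * I := fun y => by
    push_cast
    linear_combination (-y) * I_mul_I
  have i1 := kern_integrable one_pos hq hz hz' (y := -δ) (by linarith)
    (by rw [abs_neg, abs_of_pos hδ0]; linarith)
  have i2 := kern_integrable one_pos hq hz hz' (y := δ) hδ0.ne' (by rw [abs_of_pos hδ0]; linarith)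
  have n1 : -δ ≠ 0 := by linarith
  have j1 := ((int_three n1).const_mul (1 / q)).fun_add
    ((int_two n1).const_mul (((1 + q) / 2 - z) / q))
  have j2 := ((int_three hδ0.ne').const_mul (1 / q)).fun_add
    ((int_two hδ0.ne').const_mul (((1 + q) / 2 - z) / q))
  have key := h (ι := Unit) (fun _ w => FF q z (-I * w)) (fun _ => {0})
    (fun _ _ => I * (b22 q z / 2)) (fun _ => 0) (-δ) δ (by linarith)
    (fun _ p hp => by rw [Finset.mem_singleton.1 hp]; constructor <;> linarith)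
    (fun _ w h1 h2 h3 => ?_) (fun _ p hp => ?_) (fun _ η hη => ?_) ?_
  · simp only [Finset.univ_unique, Finset.sum_singleton, e1, e2, zero_mul, zero_add, FF] at key
    rw [integral_sub (i1.sub' j1) (i2.sub' j2), integral_sub i1 j1, integral_sub i2 j2,
      integral_add ((int_three n1).const_mul _) ((int_two n1).const_mul _),
      integral_add ((int_three hδ0.ne').const_mul _) ((int_two hδ0.ne').const_mul _)] at key
    simp only [integral_const_mul, int_three_eq n1, int_three_eq hδ0.ne', int_two_eq] at key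
    have a1 : dl 1 q z = ∫ r : ℝ, kern 1 q z (r + (-δ : ℝ) * I) := by
      simp only [dl, ofReal_neg, neg_mul, ← sub_eq_add_neg, hδ]
    have a2 : dl 1 q (1 + q - z) = -∫ r : ℝ, kern 1 q z (r + δ * I) := by
      rw [dl, ← integral_neg_eq_self, ← integral_neg]
      refine integral_congr_ae (Eventually.of_forall fun r => ?_)
      have := kern_refl 1 q z (r + δ * I)
      rw [ofReal_one] at this
      simp only
      rw [← this, ← hδ]
      congr 1
      push_cast
      ring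
    rw [a1, a2]
    refine mul_left_cancel₀ I_ne_zero ?_
    linear_combination key
  · have hw : -I * w ≠ 0 := mul_ne_zero (neg_ne_zero.2 I_ne_zero)
      (by simpa using h3 0 (Finset.mem_singleton_self _))
    have him : |(-I * w).im| ≤ δ := by
      rw [abs_le]
      simp only [neg_mul, neg_im, mul_im, I_re, zero_mul, I_im, one_mul, zero_add]
      constructor <;> linarith
    have d1 := kern_diff (p := 1) (q := q) z (den_ne one_pos hw (by nlinarith))
      (den_ne hq hw (by nlinarith [mul_le_mul_of_nonneg_left him hq.le])) hw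
    have d2 : DifferentiableAt ℂ (FF q z) (-I * w) := by
      unfold FF
      generalize -I * w = t at hw d1
      have := pow_ne_zero 3 hw
      have := pow_ne_zero 2 hw
      exact d1.sub (by fun_prop (disch := assumption))
    exact d2.comp w (f := fun w : ℂ => -I * w) (by fun_prop)
  · rw [Finset.mem_singleton.1 hp, ofReal_zero]
    have t1 : Tendsto (fun w : ℂ => -I * w) (𝓝[≠] 0) (𝓝[≠] 0) :=
      tendsto_nhdsWithin_iff.2 ⟨(Continuous.tendsto' (by fun_prop) _ _
        (mul_zero _)).mono_left nhdsWithin_le_nhds, by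
          filter_upwards [self_mem_nhdsWithin] with w hw
          exact mul_ne_zero (neg_ne_zero.2 I_ne_zero) hw⟩
    refine (((residue hq z).comp t1).const_mul I).congr fun w => ?_
    simp only [Function.comp_apply]
    linear_combination (-w * FF q z (-I * w)) * I_mul_I
  · obtain ⟨R, hR⟩ := FF_small hq hz hz' δ hη
    refine ⟨R, fun w h1 h2 => ?_⟩
    have him : |(-I * w).im| ≤ δ := by
      rw [abs_le]
      simp only [neg_mul, neg_im, mul_im, I_re, zero_mul, I_im, one_mul, zero_add]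
      constructor <;> linarith
    have hre : (-I * w).re = w.im := by simp
    refine ⟨fun h3 => ?_, fun h3 => hR _ ?_ him⟩
    · rw [sub_zero]
      exact hR _ (by rw [hre]; exact h3.trans (le_abs_self _)) him
    · rw [hre]
      linarith [neg_le_abs w.im]
  · simp only [Finset.univ_unique, Finset.sum_singleton, e1, e2, FF]
    exact (i1.sub j1).sub (i2.sub j2)

end Pool.Agent.RM
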