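import Pool.Agent.Lib.MP_ca56d1_nt.B.Bas

/-! The product `EE` has the properties `IsE`. -/

namespace Pool.Agent.RM

open Complex Filter Topology
open scoped Real

namespace EAux

variable {c : ℕ}

/-- The upper end of a vertical strip. -/
def fl (c : ℕ) (s t : ℝ) : Filter (AA c) :=
  comap (fun x => x.2.im) atTop ⊓ 𝓟 {x | s ≤ x.2.re ∧ x.2.re ≤ t}

lemma ev_fl {s t : ℝ} {p : AA c → Prop} : (∀ᶠ x in fl c s t, p x) ↔
    ∃ R : ℝ, ∀ x : AA c, s ≤ x.2.re → x.2.re ≤ t → R ≤ x.2.im → p x := by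
  rw [fl, eventually_inf_principal, eventually_comap, eventually_atTop]
  constructor
  · rintro ⟨R, h⟩
    exact ⟨R, fun x h1 h2 h3 => h _ h3 x rfl ⟨h1, h2⟩⟩
  · rintro ⟨R, h⟩
    exact ⟨R, fun b hb x e hx => h x hx.1 hx.2 (e ▸ hb)⟩

lemma tend_fl {s t : ℝ} {f : AA c → ℂ} {l : ℂ} : Tendsto f (fl c s t) (𝓝 l) ↔
    ∀ η : ℝ, 0 < η → ∃ R : ℝ, ∀ x : AA c, s ≤ x.2.re → x.2.re ≤ t → R ≤ x.2.im →
      ‖f x - l‖ ≤ η := by
  rw [Metric.nhds_basis_closedBall.tendsto_right_iff]
  simp only [ev_fl, mem_closedBall_iff_norm]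

/-- A function with a limit at the upper end is bounded on the upper half strip. -/
lemma bd [NeZero c] {s t : ℝ} {f : AA c → ℂ}
    (hf : ∀ n, ContinuousOn (fun z => f (n, z)) {z | s ≤ z.re ∧ z.re ≤ t})
    (h : Tendsto f (fl c s t) (𝓝 1)) :
    ∃ C : ℝ, ∀ x : AA c, s ≤ x.2.re → x.2.re ≤ t → 0 ≤ x.2.im → ‖f x‖ ≤ C := by
  obtain ⟨R, hR⟩ := tend_fl.1 h 1 one_pos
  have hK : IsCompact (Set.Icc s t ×ℂ Set.Icc 0 R) := isCompact_Icc.reProdIm isCompact_Icc
  choose C hC using fun n => hK.exists_bound_of_continuousOn ((hf n).mono fun z hz => hz.1)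
  obtain ⟨M, hM⟩ := (Set.finite_range C).bddAbove
  refine ⟨max M 2, fun x h1 h2 h3 => ?_⟩
  rcases le_total R x.2.im with h4 | h4
  · have := hR x h1 h2 h4
    have := norm_sub_norm_le (f x) 1
    rw [norm_one] at this
    exact le_max_of_le_right (by linarith)
  · exact le_max_of_le_left ((hC x.1 x.2 ⟨⟨h1, h2⟩, h3, h4⟩).trans (hM ⟨_, rfl⟩))

lemma tend_be [NeZero c] {ε : ℝ} (a : ℤ) (hε : 0 < ε) (s t : ℝ) :
    Tendsto (fun x => BB ε a x (be c)) (fl c s t) (𝓝 0) := by
  have hc := cast_pos (c := c)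
  rw [tendsto_zero_iff_norm_tendsto_zero]
  have h1 : Tendsto (fun x : AA c => x.2.im) (fl c s t) atTop :=
    tendsto_comap.mono_left inf_le_left
  have h2 := Real.tendsto_exp_neg_atTop_nhds_zero.comp
    (h1.const_mul_atTop (show 0 < 2 * π / ε by positivity))
  refine h2.congr fun x => ?_
  rw [norm_BB, be_re, be_im, Function.comp_apply]
  congr 1
  field_simp
  ring

lemma tend_shift (s t : ℝ) :
    Tendsto (fun x => x + be c) (fl c s t) (fl c (s + 1 / c) (t + 1 / c)) := by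
  intro U hU
  obtain ⟨R, hR⟩ := ev_fl.1 hU
  refine ev_fl.2 ⟨R, fun x h1 h2 h3 => hR _ ?_ ?_ ?_⟩ <;>
    simp only [Prod.snd_add, add_re, add_im, be_re, be_im] <;> linarith

/-- The limit of the inverse function. -/
lemma topJ [NeZero c] {ε : ℝ} {a : ℤ} {E J : AA c → ℂ} (hε : 1 < ε)
    (hE : ∀ s t : ℝ, 0 < s → Tendsto E (fl c s t) (𝓝 1))
    (hm : ∀ x : AA c, 0 < x.2.re → x.2.re < (1 + ε) / c → E x * J x = 1)
    (hb : ∀ x : AA c, x.2.re < ε / c → J x = (1 - BB ε a x (be c)) * J (x + be c))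
    (s t : ℝ) (ht : t < (1 + ε) / c) : Tendsto J (fl c s t) (𝓝 1) := by
  have hc := cast_pos (c := c)
  have h0 : ∀ s t : ℝ, 0 < s → t < (1 + ε) / c → Tendsto J (fl c s t) (𝓝 1) := by
    intro s t hs ht
    have h1 := (hE s t hs).inv₀ one_ne_zero
    rw [inv_one] at h1
    refine h1.congr' (ev_fl.2 ⟨0, fun x h1 h2 _ => ?_⟩)
    exact (eq_inv_of_mul_eq_one_right (hm x (by linarith) (by linarith))).symm
  have h1 : (1 : ℝ) / c < ε / c := by gcongr
  have h2 : (1 : ℝ) / c + 1 / c < (1 + ε) / c := by rw [add_div]; linarith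
  have hk : ∀ k : ℕ, ∀ s t : ℝ, 0 < s + k * (1 / c) → t < (1 + ε) / c →
      Tendsto J (fl c s t) (𝓝 1) := by
    intro k
    induction k with
    | zero => exact fun s t hs => h0 s t (by simpa using hs)
    | succ k ih =>
      intro s t hs ht
      have h3 := (ih (s + 1 / c) (1 / c + 1 / c) (by push_cast at hs; linarith) h2).comp
        (tend_shift s (1 / c))
      have h4 := ((tend_be a (one_pos.trans hε) s (1 / c)).const_sub 1).mul h3
      rw [sub_zero, mul_one] at h4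
      have h5 : Tendsto J (fl c s (1 / c)) (𝓝 1) :=
        h4.congr' (ev_fl.2 ⟨0, fun x _ h _ => (hb x (by linarith)).symm⟩)
      refine tend_fl.2 fun η hη => ?_
      obtain ⟨R, hR⟩ := tend_fl.1 h5 η hη
      obtain ⟨R', hR'⟩ := tend_fl.1 (h0 (1 / c) t (by positivity) ht) η hη
      refine ⟨max R R', fun x x1 x2 x3 => ?_⟩
      rcases le_total x.2.re (1 / c) with h | h
      · exact hR x x1 h (le_of_max_le_left x3)
      · exact hR' x h x2 (le_of_max_le_right x3)
  obtain ⟨k, hk'⟩ := exists_nat_gt (-s * c)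
  refine hk k s t ?_ ht
  rw [mul_one_div, ← neg_lt_iff_pos_add', lt_div_iff₀ hc]
  exact hk'

end EAux

open EAux in
theorem eSt (h1 : GSt) (h2 : EqSt) : ESt := by
  intro c _ ε a d S hP hS
  have hc := cast_pos (c := c)
  obtain ⟨Gadd, Ga, Gb, G0, Gn, Gd⟩ := h1 c ε a d hP _ rfl
  obtain ⟨dE, Ea, Eb, refl, topE⟩ := h2 c ε a d S hP hS
  generalize EE (c := c) ε d (fun z => cexp (π * I * b22 ε z)) = G at *
  generalize EE (c := c) ε d S = E at *
  have Gne : ∀ x, G x ≠ 0 := fun x h => by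
    have := Gn x
    rw [h, norm_zero] at this
    exact (Real.exp_pos _).ne this
  have kre : ∀ x : AA c, (al c ε d + be c - x).2.re = (1 + ε) / c - x.2.re := fun x => by
    simp only [Prod.snd_sub, Prod.snd_add, sub_re, add_re, al_re, be_re]
    ring
  have kim : ∀ x : AA c, (al c ε d + be c - x).2.im = -x.2.im := fun x => by
    simp only [Prod.snd_sub, Prod.snd_add, sub_im, add_im, al_im, be_im]
    ring
  have Gv : ∀ x v, G v = -G 0 → G (x + v) = -BB ε a x v * G x := fun x v hv =>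
    mul_right_cancel₀ (Gne 0) (by rw [Gadd, hv]; ring)
  set J : AA c → ℂ := fun x => E (al c ε d + be c - x) / G x with hJ
  have dJ : ∀ n, DifferentiableOn ℂ (fun z => J (n, z)) {z | z.re < (1 + ε) / c} := fun n => by
    refine DifferentiableOn.div ?_ (Gd n).differentiableOn fun z _ => Gne _
    refine (dE ((al c ε d + be c).1 - n)).comp
      (f := fun z => (al c ε d + be c).2 - z) (by fun_prop) fun z hz => ?_
    have := kre (n, z)
    exact lt_of_lt_of_eq (sub_pos.2 hz) this.symm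
  have mul : ∀ x : AA c, 0 < x.2.re → x.2.re < (1 + ε) / c → E x * J x = 1 := fun x x1 x2 => by
    simp only [hJ]
    rw [← mul_div_assoc, refl x x1 x2, div_self (Gne x)]
  have Ja : ∀ x : AA c, x.2.re < 1 / c →
      J x = (1 - BB ε a x (al c ε d)) * J (x + al c ε d) := fun x hx => by
    have e1 : al c ε d + be c - x = be c - x + al c ε d := by abel
    have e2 : al c ε d + be c - (x + al c ε d) = be c - x := by abel
    have := BB_ne (ε := ε) (a := a) x (al c ε d)
    have := Gne x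
    simp only [hJ]
    rw [e1, e2, Ea _ (by simp only [Prod.snd_sub, sub_re, be_re]; linarith), Gv _ _ Ga,
      BB_sub_left, BB_be_al hP]
    field_simp
    ring
  have Jb : ∀ x : AA c, x.2.re < ε / c →
      J x = (1 - BB ε a x (be c)) * J (x + be c) := fun x hx => by
    have e1 : al c ε d + be c - x = al c ε d - x + be c := by abel
    have e2 : al c ε d + be c - (x + be c) = al c ε d - x := by abel
    have := BB_ne (ε := ε) (a := a) x (be c)
    have := Gne x
    simp only [hJ]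
    rw [e1, e2, Eb _ (by simp only [Prod.snd_sub, sub_re, al_re]; linarith), Gv _ _ Gb,
      BB_sub_left, BB_al_be hP]
    field_simp
    ring
  have tE : ∀ s t : ℝ, 0 < s → Tendsto E (fl c s t) (𝓝 1) := fun s t hs =>
    tend_fl.2 (topE s t hs)
  have tJ := EAux.topJ hP.one_lt tE mul Jb
  have bE := fun s t hs => bd (fun n => (dE n).continuousOn.mono
    fun z (hz : s ≤ z.re ∧ z.re ≤ t) => lt_of_lt_of_le hs hz.1) (tE s t hs)
  have bJ := fun s t ht => bd (fun n => (dJ n).continuousOn.mono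
    fun z (hz : s ≤ z.re ∧ z.re ≤ t) => lt_of_le_of_lt hz.2 ht) (tJ s t ht)
  have nJ : ∀ x, ‖J x‖ * gm c ε x.2 = ‖E (al c ε d + be c - x)‖ := fun x => by
    simp only [hJ]
    rw [← Gn, norm_div, div_mul_cancel₀ _ (norm_ne_zero_iff.2 (Gne x))]
  have gsym : ∀ x : AA c, gm c ε (al c ε d + be c - x).2 = gm c ε x.2 := fun x => by
    rw [gm, gm, kre, kim]
    congr 1
    field_simp
    ring
  refine ⟨J, G, dE, dJ, mul, Ea, Eb, Ja, Jb, topE, fun s t ht => tend_fl.1 (tJ s t ht),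
    fun s t hs => ?_, fun s t ht => ?_, refl, Gadd, Ga, Gb, G0⟩
  · obtain ⟨C, hC⟩ := bE s t hs
    obtain ⟨C', hC'⟩ := bJ ((1 + ε) / c - t) ((1 + ε) / c - s) (by linarith)
    refine ⟨max C C', fun x x1 x2 => ⟨fun h => le_max_of_le_left (hC x x1 x2 h), fun h => ?_⟩⟩
    have h3 := nJ (al c ε d + be c - x)
    rw [gsym, sub_sub_cancel] at h3
    rw [← h3]
    exact mul_le_mul_of_nonneg_right (le_max_of_le_right (hC' _ (by rw [kre]; linarith)
      (by rw [kre]; linarith) (by rw [kim]; linarith))) (Real.exp_pos _).le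
  · obtain ⟨C, hC⟩ := bJ s t ht
    obtain ⟨C', hC'⟩ := bE ((1 + ε) / c - t) ((1 + ε) / c - s) (by linarith)
    refine ⟨max C C', fun x x1 x2 => ⟨fun h => le_max_of_le_left (hC x x1 x2 h), fun h => ?_⟩⟩
    rw [nJ]
    exact le_max_of_le_right (hC' _ (by rw [kre]; linarith) (by rw [kre]; linarith)
      (by rw [kim]; linarith))

end Pool.Agent.RM
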