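import Pool.Agent.Lib.MP_ca56d1_nt.B.Idx

/-! The difference equations of `EE`. -/

namespace Pool.Agent.RM

open Complex
open scoped Real

theorem eqSt : EqSt := by
  intro c _ ε a d S h hS
  have hε := h.pos
  have hc := cast_pos (c := c)
  have hre : ∀ (z : ℂ) (i j : ℕ), (z + ((i : ℂ) * ε + (j : ℕ)) / c).re = z.re + (i * ε + j) / c := by
    intro z i j
    rw [idx_real, add_re, ofReal_re]
  have him : ∀ (z : ℂ) (i j : ℕ), (z + ((i : ℂ) * ε + (j : ℕ)) / c).im = z.im := by
    intro z i j
    rw [idx_real, add_im, ofReal_im, add_zero]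
  refine ⟨fun n => ?_, fun x hx => ?_, fun x hx => ?_, fun x hx hx' => ?_, fun s t hs η hη => ?_⟩
  · simp only [EE]
    refine DifferentiableOn.fun_finsetProd fun i _ => ?_
    refine hS.diff.comp (by fun_prop) fun z hz => ?_
    have h1 := idx_nonneg (c := c) hε.le i (n - (d : ZMod c) * (i : ZMod c)).val
    have hz' : 0 < z.re := hz
    show 0 < (z + ((i : ℂ) * ε + ((n - (d : ZMod c) * (i : ZMod c)).val : ℕ)) / c).re
    rw [hre]; linarith
  · refine EE_add_al h S (fun X => 1 - X) x fun r hr => hS.add_q _ ?_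
    rw [add_re, ofReal_re]; linarith
  · refine EE_add_be h S (fun X => 1 - X) x fun r hr => hS.add_one _ ?_
    rw [add_re, ofReal_re]; linarith
  · rw [EE_refl]
    simp only [EE]
    rw [← Finset.prod_mul_distrib]
    refine Finset.prod_congr rfl fun i hi => ?_
    have h1 := idx_nonneg (c := c) hε.le i (x.1 - (d : ZMod c) * (i : ZMod c)).val
    have h2 := idx_le (c := c) hε.le (Finset.mem_range.1 hi) (ZMod.val_lt (x.1 - (d : ZMod c) * (i : ZMod c)))
    refine hS.refl _ ?_ ?_ <;> rw [hre] <;> linarith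
  · have hl : 0 < Real.log (1 + η) := Real.log_pos (by linarith)
    obtain ⟨R, hR⟩ := hS.top s (t + (1 + ε)) hs (Real.log (1 + η) / c) (div_pos hl hc)
    refine ⟨R, fun x h1 h2 h3 => ?_⟩
    have key := Finset.norm_prod_one_add_sub_one_le (Finset.range c) fun i : ℕ =>
      S (x.2 + ((i : ℂ) * ε + ((x.1 - (d : ZMod c) * (i : ZMod c)).val : ℕ)) / c) - 1
    simp only [add_sub_cancel] at key
    refine key.trans ?_
    have hsum : ∑ i ∈ Finset.range c,
        ‖S (x.2 + ((i : ℂ) * ε + ((x.1 - (d : ZMod c) * (i : ZMod c)).val : ℕ)) / c) - 1‖ ≤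
        Real.log (1 + η) := by
      refine (Finset.sum_le_card_nsmul _ _ (Real.log (1 + η) / c) fun i hi => ?_).trans_eq ?_
      · have h4 := idx_nonneg (c := c) hε.le i (x.1 - (d : ZMod c) * (i : ZMod c)).val
        have h5 := idx_le (c := c) hε.le (Finset.mem_range.1 hi)
          (ZMod.val_lt (x.1 - (d : ZMod c) * (i : ZMod c)))
        have h6 : 0 ≤ (1 + ε) / c := by positivity
        refine hR _ ?_ ?_ ?_
        · rw [hre]; linarith
        · rw [hre]; linarith
        · rw [him]; exact h3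
      · rw [Finset.card_range, nsmul_eq_mul]; field_simp
    have := Real.exp_le_exp.2 hsum
    rw [Real.exp_log (by linarith)] at this
    linarith

end Pool.Agent.RM
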