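import Pool.Agent.Lib.MP_ca56d1_nt.B.Bas

/-! From the pentagon identity in one basis to the finite Fourier identities. -/

namespace Pool.Agent.RM

open Complex

variable {K : Type*} [Field K] {σ σ' : K →+* ℝ} {ε : K} {L : Submodule ℤ K}

theorem fin_Fm {x y : K} (h : x - y ∈ L) : Fm σ σ' ε L x = Fm σ σ' ε L y := by
  have : coset L x = coset L y := Set.ext fun z =>
    ⟨fun hz => by simpa [coset] using L.add_mem hz h,
      fun hz => by simpa [coset] using L.sub_mem hz h⟩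
  rw [Fm, Fm, this]

theorem fin_Fp {x y : K} (h : x - y ∈ L) : Fp σ σ' ε L x = Fp σ σ' ε L y := by
  have : x ∈ L ↔ y ∈ L :=
    ⟨fun hx => by simpa using L.sub_mem hx h, fun hy => by simpa using L.add_mem h hy⟩
  rw [Fp, Fp, fin_Fm h]
  by_cases hx : x ∈ L
  · rw [if_pos hx, if_pos (this.1 hx)]
  · rw [if_neg hx, if_neg (mt this.2 hx)]

theorem fin_Gk {x y : K} (h : x - y ∈ L) : Gk σ σ' ε L x = Gk σ σ' ε L y := by
  rw [Gk, Gk, fin_Fp h, fin_Fm (x := -x) (y := -y) (by convert L.neg_mem h using 1; ring)]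

theorem fin_Bk {x x' y y' : K} (h : x - x' ∈ L) (h' : y - y' ∈ L) :
    Bk σ σ' ε L x y = Bk σ σ' ε L x' y' := by
  rw [Bk, Bk, fin_Gk h, fin_Gk h',
    fin_Gk (x := x + y) (y := x' + y') (by convert L.add_mem h h' using 1; ring)]

theorem fin_Fm_ne (x : K) : Fm σ σ' ε L x ≠ 0 := Complex.exp_ne_zero _

theorem fin_Fp_ne (h : Eps σ σ' ε) (x : K) : Fp σ σ' ε L x ≠ 0 := by
  rw [Fp]
  split_ifs
  · exact mul_ne_zero (by exact_mod_cast h.pos.ne') (fin_Fm_ne x)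
  · exact fin_Fm_ne x

theorem fin_Gk_ne (h : Eps σ σ' ε) (x : K) : Gk σ σ' ε L x ≠ 0 :=
  mul_ne_zero (fin_Fp_ne h x) (fin_Fm_ne _)

theorem fin_Gk_neg (x : K) : Gk σ σ' ε L (-x) = Gk σ σ' ε L x := by
  rw [Gk, Gk, Fp, Fp, neg_neg]
  by_cases h : x ∈ L
  · rw [if_pos h, if_pos (L.neg_mem h), mul_right_comm]
  · rw [if_neg h, if_neg (mt L.neg_mem_iff.1 h), mul_comm]

theorem fin_Bk_comm (x y : K) : Bk σ σ' ε L x y = Bk σ σ' ε L y x := by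
  rw [Bk, Bk, add_comm, mul_comm (Gk σ σ' ε L x)]

theorem fin_Bk_neg (x y : K) : Bk σ σ' ε L (-x) (-y) = Bk σ σ' ε L x y := by
  rw [Bk, Bk, ← neg_add, fin_Gk_neg, fin_Gk_neg, fin_Gk_neg]

theorem fin_Bk_zero (h : Eps σ σ' ε) (x : K) : Bk σ σ' ε L x 0 = 1 := by
  rw [Bk, add_zero]
  exact div_self (mul_ne_zero (fin_Gk_ne h _) (fin_Gk_ne h _))

theorem fin_add {x y : K} (hx : (ε - 1) * x ∈ L) (hy : (ε - 1) * y ∈ L) : (ε - 1) * (x + y) ∈ L := by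
  rw [mul_add]
  exact L.add_mem hx hy

theorem fin_neg {x : K} (hx : (ε - 1) * x ∈ L) : (ε - 1) * (-x) ∈ L := by
  rw [mul_neg]
  exact L.neg_mem hx

theorem fin_of_sub (hL : ELat ε L) {x y : K} (hx : (ε - 1) * x ∈ L) (h : x - y ∈ L) :
    (ε - 1) * y ∈ L := by
  convert L.add_mem (L.sub_mem hx ((hL.stab _).2 h)) h using 1
  ring

theorem fin_sum {s s' : Finset K} (hs : Reps ε L s) (hs' : Reps ε L s') (φ : K → K)
    (h1 : ∀ x, (ε - 1) * x ∈ L → (ε - 1) * φ x ∈ L) (h2 : ∀ x y, φ x - φ y ∈ L ↔ x - y ∈ L)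
    (h3 : ∀ y, (ε - 1) * y ∈ L → ∃ x, (ε - 1) * x ∈ L ∧ φ x = y) (f : K → ℂ)
    (hf : ∀ x y, x - y ∈ L → f x = f y) : ∑ g ∈ s, f (φ g) = ∑ g ∈ s', f g := by
  choose r hr using fun x hx => (hs'.2 x hx).exists
  refine Finset.sum_bij (fun g hg => r (φ g) (h1 g (hs.1 g hg))) (fun g hg => (hr _ _).1)
    (fun g hg g' hg' e => ?_) (fun b hb => ?_) fun g hg => hf _ _ (hr _ _).2
  · have a1 := (hr (φ g) (h1 g (hs.1 g hg))).2
    have a2 := (hr (φ g') (h1 g' (hs.1 g' hg'))).2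
    rw [e] at a1
    refine (hs.2 g (hs.1 g hg)).unique ⟨hg, by simp⟩ ⟨hg', (h2 _ _).1 ?_⟩
    simpa using L.sub_mem a1 a2
  · obtain ⟨x, hx, rfl⟩ := h3 b (hs'.1 b hb)
    obtain ⟨g, hg, hxg⟩ := (hs.2 x hx).exists
    refine ⟨g, hg, (hs'.2 _ (h1 g (hs.1 g hg))).unique (hr _ _) ⟨hb, (h2 _ _).2 ?_⟩⟩
    simpa using L.neg_mem hxg

theorem fin_PId {s s' : Finset K} (hs : Reps ε L s) (hs' : Reps ε L s') {u u' w w' : K}
    (hu : u - u' ∈ L) (hw : w - w' ∈ L) (h : PId σ σ' ε L s u' w') : PId σ σ' ε L s' u w := by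
  rw [PId] at h ⊢
  rw [fin_Fp hu, fin_Fp hw,
    fin_Fm (x := u + w) (y := u' + w') (by convert L.add_mem hu hw using 1; ring), ← h,
    ← fin_sum hs hs' id (fun _ h => h) (fun _ _ => Iff.rfl) (fun y hy => ⟨y, hy, rfl⟩)
      (fun g => Fp σ σ' ε L (g + u) / Fm σ σ' ε L g * Bk σ σ' ε L g w) fun x y hxy => by
      rw [fin_Fm hxy, fin_Bk hxy (y := w) (y' := w) (by simp),
        fin_Fp (x := x + u) (y := y + u) (by simpa using hxy)]]
  congr 1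
  refine Finset.sum_congr rfl fun g _ => ?_
  rw [id, fin_Fp (x := g + u) (y := g + u') (by simpa using hu),
    fin_Bk (x := g) (x' := g) (by simp) hw]

section

variable (hε : Eps σ σ' ε) (hB : ∀ x y z, (ε - 1) * x ∈ L → (ε - 1) * y ∈ L → (ε - 1) * z ∈ L →
  Bk σ σ' ε L x (y + z) = Bk σ σ' ε L x y * Bk σ σ' ε L x z)

include hε hB

theorem fin_Bk_self {x : K} (hx : (ε - 1) * x ∈ L) :
    Bk σ σ' ε L x x = (Gk σ σ' ε L x / Gk σ σ' ε L 0) ^ 2 := by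
  have h := hB x x (-x) hx hx (fin_neg hx)
  rw [add_neg_cancel, fin_Bk_zero hε, Bk.eq_1 σ σ' ε L x (-x), add_neg_cancel, fin_Gk_neg] at h
  have h0 := fin_Gk_ne (L := L) hε 0
  have h1 := fin_Gk_ne (L := L) hε x
  field_simp at h ⊢
  exact h.symm

theorem fin_flip {s : Finset K} (hs : Reps ε L s) {u w : K} (hu : (ε - 1) * u ∈ L)
    (hw : (ε - 1) * w ∈ L) (h : PId σ σ' ε L s u (-(u + w))) : PId σ σ' ε L s u w := by
  rw [PId] at h ⊢
  rw [← fin_sum hs hs (fun g => -(g + u)) (fun x hx => fin_neg (fin_add hx hu))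
    (fun x y => by rw [← L.neg_mem_iff]; congr! 1; ring)
    (fun y hy => ⟨-(y + u), fin_neg (fin_add hy hu), by ring⟩)
    (fun g => Fp σ σ' ε L (g + u) / Fm σ σ' ε L g * Bk σ σ' ε L g (-(u + w))) fun x y hxy => by
      rw [fin_Fm hxy, fin_Bk hxy (y := -(u + w)) (y' := -(u + w)) (by simp),
        fin_Fp (x := x + u) (y := y + u) (by simpa using hxy)]] at h
  have g0 := fin_Gk_ne (L := L) hε 0
  have gu := fin_Gk_ne (L := L) hε u
  have gw := fin_Gk_ne (L := L) hε w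
  have guw := fin_Gk_ne (L := L) hε (u + w)
  have e1 : ∀ x, Fp σ σ' ε L (-x) = Gk σ σ' ε L x / Fm σ σ' ε L x := fun x => by
    rw [← fin_Gk_neg, Gk, neg_neg, mul_div_cancel_right₀ _ (fin_Fm_ne x)]
  have e2 : ∀ x, Fm σ σ' ε L (-x) = Gk σ σ' ε L x / Fp σ σ' ε L x := fun x => by
    rw [Gk, mul_div_cancel_left₀ _ (fin_Fp_ne hε x)]
  have e3 : ∀ g ∈ s, Fp σ σ' ε L (-(g + u) + u) / Fm σ σ' ε L (-(g + u)) *
      Bk σ σ' ε L (-(g + u)) (-(u + w)) = Gk σ σ' ε L (u + w) / Gk σ σ' ε L w *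
        (Fp σ σ' ε L (g + u) / Fm σ σ' ε L g * Bk σ σ' ε L g w) := fun g hg => by
    have hg' := hs.1 g hg
    have gg := fin_Gk_ne (L := L) hε g
    have ggu := fin_Gk_ne (L := L) hε (g + u)
    have mg := fin_Fm_ne (σ := σ) (σ' := σ') (ε := ε) (L := L) g
    have pg := fin_Fp_ne (L := L) hε (g + u)
    rw [show -(g + u) + u = -g by ring, e1, e2, fin_Bk_neg, fin_Bk_comm,
      hB _ _ _ (fin_add hu hw) hg' hu, fin_Bk_comm _ g, fin_Bk_comm _ u, hB _ _ _ hg' hu hw,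
      hB _ _ _ hu hu hw, fin_Bk_self hε hB hu, Bk.eq_1 σ σ' ε L g u, Bk.eq_1 σ σ' ε L u w]
    field_simp
  rw [Finset.sum_congr rfl e3, ← Finset.mul_sum, show u + -(u + w) = -w by ring, e1, e2] at h
  have pw := fin_Fp_ne (L := L) hε w
  have muw := fin_Fm_ne (σ := σ) (σ' := σ') (ε := ε) (L := L) (u + w)
  refine mul_left_cancel₀ (div_ne_zero guw gw) ?_
  rw [mul_left_comm, h]
  field_simp

theorem fin_sq {x : K} (hx : (ε - 1) * x ∈ L) (n : ℕ) : (ε - 1) * (n * x) ∈ L ∧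
    Bk σ σ' ε L x (n * x) = (Gk σ σ' ε L x / Gk σ σ' ε L 0) ^ (2 * n) ∧
    Gk σ σ' ε L (n * x) / Gk σ σ' ε L 0 = (Gk σ σ' ε L x / Gk σ σ' ε L 0) ^ (n ^ 2) := by
  have g0 := fin_Gk_ne (L := L) hε 0
  induction n with
  | zero => simp [fin_Bk_zero hε, g0]
  | succ n ih =>
    obtain ⟨h1, h2, h3⟩ := ih
    have e : ((n + 1 : ℕ) : K) * x = x + n * x := by push_cast; ring
    have gx := fin_Gk_ne (L := L) hε x
    have gn := fin_Gk_ne (L := L) hε (n * x)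
    rw [e]
    refine ⟨fin_add hx h1, ?_, ?_⟩
    · rw [hB _ _ _ hx hx h1, h2, fin_Bk_self hε hB hx]
      ring
    · rw [show (n + 1) ^ 2 = 2 * n + (n ^ 2 + 1) by ring, pow_add, pow_succ, ← h2, ← h3, Bk]
      generalize Gk σ σ' ε L (x + n * x) = A
      generalize Gk σ σ' ε L (n * x) = C at gn
      field_simp

end

variable [CharZero K]

theorem partBP (hK : RQ σ σ') (h1 : PBSt σ σ') (h2 : BasExSt σ σ') : PartBP σ σ' := by
  intro ε L hε hL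
  obtain ⟨⟨w₁, w₂, a, b, c, d, hc, hb⟩, hx⟩ := h2 ε L hε hL
  obtain ⟨hB, ⟨m, hm, hG⟩, s, hs, -⟩ := h1 ε L w₁ w₂ a b c d hc hε hL hb
  have hP : ∀ x, (ε - 1) * x ∈ L → x ∉ L → ∀ y, (ε - 1) * y ∈ L → PId σ σ' ε L s x y := by
    intro x hx1 hx2 y hy
    obtain ⟨w₁, w₂, a, b, c, d, hc, hb, u, v, u', v', e1, e2, v0, v1, v2, v3⟩ :=
      hx x y hx1 hx2 hy
    obtain ⟨-, -, s', hs', hp⟩ := h1 ε L w₁ w₂ a b c d hc hε hL hb
    rcases v3.lt_or_eq with v3 | v3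
    · exact fin_PId hs' hs e1 e2
        (hp u v u' v' (fin_of_sub hL hx1 e1) (fin_of_sub hL hy e2) v0 v2 v3)
    · have e3 : -(x + y) - (((-(u + u') : ℚ) : K) * w₁ + ((0 : ℚ) : K) * w₂) ∈ L := by
        have e4 : w₂ ∈ L := (hb.mem w₂).2 ⟨0, 1, by simp⟩
        have e5 : (v : K) + v' = 1 := by exact_mod_cast congrArg ((↑) : ℚ → K) v3
        convert L.neg_mem (L.add_mem (L.add_mem e1 e2) e4) using 1
        push_cast
        linear_combination (-w₂) * e5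
      exact fin_flip hε hB hs hx1 hy (fin_PId hs' hs e1 e3 (hp u v _ 0 (fin_of_sub hL hx1 e1)
        (fin_of_sub hL (fin_neg (fin_add hx1 hy)) e3) v0 le_rfl (by simpa using v1)))
  have r0 : ((√(σ ε) : ℝ) : ℂ) ≠ 0 := by exact_mod_cast (Real.sqrt_pos.2 hε.pos).ne'
  have r1 : ((√(σ ε) : ℝ) : ℂ) ^ 2 = (σ ε : ℝ) := by exact_mod_cast Real.sq_sqrt hε.pos.le
  have r2 : ((σ ε : ℝ) : ℂ) ≠ 0 := by exact_mod_cast hε.pos.ne'
  refine ⟨((σ ε : ℝ) - 1) / (√(σ ε) : ℝ), (√(σ ε) : ℝ) * Fm σ σ' ε L 0, s, Bk σ σ' ε L, ?_,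
    ⟨2 * m, by omega, ?_⟩, hs.1, fun g hg h h' => hB g h h' (hs.1 g hg), fun g _ h hh => ?_,
    fun x hx1 hx2 y hy => ?_, fun g hg => ?_⟩
  · rw [div_pow, r1, hε.snd]
    push_cast
    field_simp
    ring
  · rw [pow_mul, mul_pow, r1, ← hG, Gk, Fp, if_pos L.zero_mem, neg_zero, sq, mul_assoc]
  · rw [fin_Bk (x := g) (x' := g) (y' := 0) (by simp) (by simpa using hh), fin_Bk_zero hε]
  · have h := hP x hx1 hx2 y hy
    rw [PId] at h
    simp only [mul_assoc ((√(σ ε) : ℝ) * Fm σ σ' ε L 0), ← Finset.mul_sum]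
    rw [div_mul_eq_mul_div, ← h, ← r1]
    field_simp
  · obtain ⟨n, hn, hg'⟩ := hL.full g
    have h := (fin_sq hε hB hg n).2.2
    have g0 := fin_Gk_ne (L := L) hε 0
    rw [fin_Gk (y := 0) (by simpa using hg'), div_self g0, div_pow, eq_div_iff (pow_ne_zero _ g0),
      one_mul] at h
    refine ⟨n ^ 2 * m, by positivity, ?_⟩
    rw [← Gk, pow_mul, ← h, ← pow_mul, mul_comm, pow_mul, hG, one_pow]

end Pool.Agent.RM
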