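import Pool.Agent.Lib.MP_ca56d1_nt.B.Bas

/-! The Gaussian attached to the modular quantum dilogarithm. -/

namespace Pool.Agent.RM

open Complex
open scoped Real

namespace GAux

variable {c : ℕ} [NeZero c] {ε : ℝ} {a d : ℤ}

theorem sum_val {R : Type*} [AddCommMonoid R] (f : ℕ → ZMod c → R) :
    ∑ i ∈ Finset.range c, f i i = ∑ i : ZMod c, f i.val i := by
  refine Finset.sum_nbij' (fun i => (i : ZMod c)) (fun i => i.val) (fun _ _ => Finset.mem_univ _)
    (fun i _ => Finset.mem_range.2 (ZMod.val_lt i))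
    (fun i hi => ZMod.val_cast_of_lt (Finset.mem_range.1 hi)) (fun i _ => ZMod.natCast_zmod_val i)
    fun i hi => ?_
  rw [ZMod.val_cast_of_lt (Finset.mem_range.1 hi)]

theorem sum_id {R : Type*} [Field R] [CharZero R] :
    ∑ i : ZMod c, ((i.val : ℕ) : R) = c * (c - 1) / 2 := by
  rw [← sum_val fun i _ => (i : R)]
  generalize c = n
  induction n with
  | zero => simp
  | succ n ih =>
    rw [Finset.sum_range_succ, ih]
    push_cast
    ring

theorem sum_perm {R : Type*} [AddCommMonoid R] (h : (a : ZMod c) * d = 1) (n : ZMod c)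
    (f : ZMod c → R) : ∑ i : ZMod c, f (n - d * i) = ∑ i : ZMod c, f i :=
  (Finite.injective_iff_bijective.1 fun i j (hij : n - d * i = n - d * j) => by
    linear_combination (-(a : ZMod c)) * hij - (i - j) * h).sum_comp f

theorem val_pred (y : ZMod c) :
    (((y - 1).val : ℕ) : ℚ) = y.val - 1 + if y = 0 then (c : ℚ) else 0 := by
  have hc := NeZero.pos c
  split_ifs with h
  · have h1 : y - 1 = ((c - 1 : ℕ) : ZMod c) := by
      rw [h, Nat.cast_pred hc, ZMod.natCast_self]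
    rw [h1, ZMod.val_cast_of_lt (by omega), h, ZMod.val_zero, Nat.cast_pred hc]
    push_cast
    ring
  · have h0 : 0 < y.val := Nat.pos_of_ne_zero fun h0 => h ((ZMod.val_eq_zero y).1 h0)
    have h1 : y - 1 = ((y.val - 1 : ℕ) : ZMod c) := by
      rw [Nat.cast_pred h0, ZMod.natCast_zmod_val]
    have h2 := ZMod.val_lt y
    rw [h1, ZMod.val_cast_of_lt (by omega), Nat.cast_pred h0, add_zero]

/-- The mixed sum. -/
def P (d : ℤ) (n : ZMod c) : ℚ := ∑ i : ZMod c, ((i.val : ℕ) : ℚ) * ((n - d * i).val : ℕ)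

theorem P_pred (h : (a : ZMod c) * d = 1) (n : ZMod c) :
    P d (n - 1) = P d n - c * (c - 1) / 2 + c * ((a * n).val : ℕ) := by
  have h1 : ∀ i : ZMod c, ((i.val : ℕ) : ℚ) * ((n - 1 - d * i).val : ℕ) =
      ((i.val : ℕ) : ℚ) * ((n - d * i).val : ℕ) - i.val +
        if i = a * n then (c : ℚ) * i.val else 0 := fun i => by
    have h2 : n - d * i = 0 ↔ i = a * n :=
      ⟨fun h3 => by linear_combination (-(a : ZMod c)) * h3 - i * h,
        fun h3 => by linear_combination (-(d : ZMod c)) * h3 - n * h⟩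
    rw [sub_right_comm, val_pred]
    simp only [h2]
    split_ifs <;> ring
  simp only [P, h1, Finset.sum_add_distrib, Finset.sum_sub_distrib, sum_id, Finset.sum_ite_eq',
    Finset.mem_univ, if_true]

theorem P_neg (h : (a : ZMod c) * d = 1) :
    P d (-(d : ZMod c)) = P d (0 : ZMod c) - c * (c - 1) / 2 := by
  have h1 : ∀ i : ZMod c, (((i - 1).val : ℕ) : ℚ) * ((-(d : ZMod c) - d * (i - 1)).val : ℕ) =
      ((i.val : ℕ) : ℚ) * ((0 - d * i).val : ℕ) - ((0 - d * i).val : ℕ) := fun i => by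
    have h2 : -(d : ZMod c) - d * (i - 1) = 0 - d * i := by ring
    rw [h2, val_pred]
    split_ifs with h3
    · simp [h3]
    · ring
  rw [P, ← Equiv.sum_comp (Equiv.subRight (1 : ZMod c))]
  simp only [Equiv.subRight_apply, h1, Finset.sum_sub_distrib]
  rw [sum_perm h 0 fun i => ((i.val : ℕ) : ℚ), sum_id, P]

/-- The rational constant in the exponent. -/
def rr (a d : ℤ) (n : ZMod c) : ℚ :=
  (c * (a + d + 3) / 6 - (c - 1) * (a + d + 2) / 2 +
    (a + d) * (∑ i : ZMod c, ((i.val : ℕ) : ℚ) ^ 2) / c ^ 2) / 2 + P d n / c ^ 2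

theorem rr_pred (h : (a : ZMod c) * d = 1) (n : ZMod c) :
    rr a d (n - 1) = rr a d n - (c - 1) / (2 * c) + ((a * n).val : ℕ) / c := by
  have hc : (c : ℚ) ≠ 0 := by exact_mod_cast NeZero.ne c
  rw [rr, rr, P_pred h]
  field_simp
  ring

theorem rr_neg (h : (a : ZMod c) * d = 1) :
    rr a d (-(d : ZMod c)) = rr a d (0 : ZMod c) - (c - 1) / (2 * c) := by
  have hc : (c : ℚ) ≠ 0 := by exact_mod_cast NeZero.ne c
  rw [rr, rr, P_neg h]
  field_simp
  ring

theorem term (h : Par c ε a d) (z i j : ℂ) : b22 ε (z + (i * ε + j) / c) =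
    b22 ε z + (2 * z - (1 + ε)) / c * i + (2 * z - (1 + ε)) / (c * ε) * j + ε / c ^ 2 * i ^ 2 +
      1 / (ε * c ^ 2) * j ^ 2 + 2 / c ^ 2 * (i * j) := by
  have h1 := h.ne
  have h2 := cast_ne (c := c)
  simp only [b22]
  field_simp
  ring

theorem EE_eq (h : Par c ε a d) (x : AA c) : EE ε d (fun z => cexp (π * I * b22 ε z)) x =
    ee ((c * x.2 ^ 2 - (1 + ε) * x.2) / (2 * ε)) * ee (rr a d x.1) := by
  have h1 := h.ne
  have h2 := cast_ne (c := c)
  have h3 : (ε : ℂ) + (ε : ℂ)⁻¹ = a + d := by exact_mod_cast congrArg ((↑) : ℝ → ℂ) h.tr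
  rw [EE, ← Complex.exp_sum, ← Finset.mul_sum, ← ee_add, ee,
    sum_val (c := c) fun (i : ℕ) (j : ZMod c) =>
      b22 ε (x.2 + (i * ε + ((x.1 - (d : ZMod c) * j).val : ℕ)) / c)]
  congr 1
  simp only [term h, Finset.sum_add_distrib, ← Finset.mul_sum]
  rw [sum_perm h.det x.1 fun i => ((i.val : ℕ) : ℂ),
    sum_perm h.det x.1 fun i => ((i.val : ℕ) : ℂ) ^ 2, sum_id, Finset.sum_const, Finset.card_univ,
    ZMod.card, nsmul_eq_mul]
  simp only [rr, P, b22]
  push_cast
  rw [← h3]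
  field_simp
  ring

theorem gam_pred (h : (a : ZMod c) * d = 1) (n : ZMod c) : ee (rr a d (n - 1)) =
    ee (rr a d n) * ee (-((c - 1) / (2 * c))) * ZMod.stdAddChar ((a : ZMod c) * n) := by
  rw [rr_pred h, psi_val, ← ee_add, ← ee_add]
  push_cast
  rw [sub_eq_add_neg]

theorem gam_add (h : (a : ZMod c) * d = 1) (n m : ZMod c) :
    ee (rr a d (n + m)) * ee (rr a d (0 : ZMod c)) =
      ee (rr a d n) * ee (rr a d m) * ZMod.stdAddChar (-(a : ZMod c) * n * m) := by
  obtain ⟨k, rfl⟩ : ∃ k : ℕ, m = -(k : ZMod c) :=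
    ⟨(-m).val, by rw [ZMod.natCast_zmod_val, neg_neg]⟩
  induction k with
  | zero => simp
  | succ k ih =>
    have h1 : -((k + 1 : ℕ) : ZMod c) = -(k : ZMod c) - 1 := by
      push_cast
      ring
    have h2 : -(a : ZMod c) * n * (-(k : ZMod c) - 1) = -(a : ZMod c) * n * -k + a * n := by ring
    rw [h1, ← add_sub_assoc, gam_pred h, gam_pred h, h2, mul_add, AddChar.map_add_eq_mul,
      AddChar.map_add_eq_mul]
    linear_combination ee (-((c - 1) / (2 * c))) * ZMod.stdAddChar ((a : ZMod c) * n) *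
      ZMod.stdAddChar ((a : ZMod c) * -(k : ZMod c)) * ih

theorem ee_half : ee (-(1 / 2)) = -1 := by
  have h : 2 * π * I * -(1 / 2) = -(π * I) := by ring
  rw [ee, h, Complex.exp_neg, Complex.exp_pi_mul_I]
  norm_num

theorem ee_sign : ee (-(1 / (2 * c))) * ee (-((c - 1) / (2 * c))) = -1 := by
  have h2 := cast_ne (c := c)
  rw [← ee_add, ← ee_half]
  congr 1
  field_simp
  ring

theorem ee_pow (z : ℂ) (m : ℕ) : ee z ^ m = ee (m * z) := by
  rw [ee, ee, ← Complex.exp_nat_mul]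
  congr 1
  ring

end GAux

open GAux

theorem gSt : GSt := by
  intro c _ ε a d h G hG
  have h1 := h.ne
  have h2 := cast_ne (c := c)
  have hE : ∀ x : AA c, G x =
      ee ((c * x.2 ^ 2 - (1 + ε) * x.2) / (2 * ε)) * ee (rr a d x.1) := fun x => by
    rw [hG, EE_eq h]
  have h0 : G 0 = ee (rr a d (0 : ZMod c)) := by
    rw [hE]
    simp [ee_zero]
  refine ⟨fun x y => ?_, ?_, ?_, ⟨(rr a d (0 : ZMod c)).den, Rat.den_ne_zero _, ?_⟩, fun x => ?_,
    fun n => ?_⟩
  · have h3 : (c * (x.2 + y.2) ^ 2 - (1 + ε) * (x.2 + y.2)) / (2 * ε) =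
        (c * x.2 ^ 2 - (1 + ε) * x.2) / (2 * ε) + (c * y.2 ^ 2 - (1 + ε) * y.2) / (2 * ε) +
          c * x.2 * y.2 / ε := by
      field_simp
      ring
    rw [h0, hE, hE, hE, BB, Prod.fst_add, Prod.snd_add, h3, ee_add, ee_add, mul_assoc,
      gam_add h.det]
    ring
  · have h3 : (c * ((ε : ℂ) / c) ^ 2 - (1 + ε) * (ε / c)) / (2 * ε) = -(1 / (2 * c)) := by
      field_simp
      ring
    rw [h0, hE]
    simp only [al]
    rw [h3, rr_neg h.det]
    push_cast
    rw [sub_eq_add_neg, ee_add]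
    linear_combination ee (rr a d (0 : ZMod c)) * ee_sign (c := c)
  · have h3 : (c * (1 / (c : ℂ)) ^ 2 - (1 + ε) * (1 / c)) / (2 * ε) = -(1 / (2 * c)) := by
      field_simp
      ring
    have h4 := gam_pred h.det 0
    rw [zero_sub, mul_zero, AddChar.map_zero_eq_one, mul_one] at h4
    rw [h0, hE]
    simp only [be]
    rw [h3, h4]
    linear_combination ee (rr a d (0 : ZMod c)) * ee_sign (c := c)
  · rw [h0, ee_pow, ee_eq_one]
    exact ⟨(rr a d (0 : ZMod c)).num, by exact_mod_cast Rat.den_mul_eq_num _⟩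
  · have h3 : (2 * ε : ℂ) = ((2 * ε : ℝ) : ℂ) := by push_cast; rfl
    have h4 : (c : ℝ) ≠ 0 := cast_pos.ne'
    have h5 := h.pos.ne'
    rw [hE, norm_mul, norm_ee, norm_ee, ratCast_im, mul_zero, Real.exp_zero, mul_one, gm, h3,
      Complex.div_ofReal_im]
    congr 1
    simp only [sq, sub_im, mul_im, mul_re, natCast_re, natCast_im, add_re, add_im, one_re, one_im,
      ofReal_re, ofReal_im]
    field_simp
    ring
  · simp only [hE]
    exact (ee_diff.comp (by fun_prop)).mul_const _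

end Pool.Agent.RM
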