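import Pool.Agent.Lib.MP_ca56d1_nt.B.Bas

/-! Localisation of the beta integral. -/

namespace Pool.Agent.RM

open Complex Filter Topology MeasureTheory
open scoped Real

namespace LocAux

/-- The top end of a vertical strip. -/
def ftop (s t : ℝ) : Filter ℂ := comap Complex.im atTop ⊓ 𝓟 {z | s ≤ z.re ∧ z.re ≤ t}

theorem ev_top {s t : ℝ} {p : ℂ → Prop} :
    (∀ᶠ z in ftop s t, p z) ↔ ∃ R : ℝ, ∀ z : ℂ, s ≤ z.re → z.re ≤ t → R ≤ z.im → p z := by
  simp only [ftop, eventually_inf_principal, eventually_comap, eventually_atTop, Set.mem_ofPred_eq]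
  exact ⟨fun ⟨R, h⟩ => ⟨R, fun z h1 h2 h3 => h _ h3 z rfl ⟨h1, h2⟩⟩,
    fun ⟨R, h⟩ => ⟨R, fun b hb z e h1 => h z h1.1 h1.2 (e ▸ hb)⟩⟩

theorem tends_top {s t : ℝ} {φ : ℂ → ℂ} {L : ℂ} : Tendsto φ (ftop s t) (𝓝 L) ↔
    ∀ η : ℝ, 0 < η → ∃ R : ℝ, ∀ z : ℂ, s ≤ z.re → z.re ≤ t → R ≤ z.im → ‖φ z - L‖ ≤ η := by
  rw [Metric.nhds_basis_closedBall.tendsto_right_iff]
  simp only [ev_top, Metric.mem_closedBall, dist_eq_norm]

theorem tends_exp {s t k : ℝ} (hk : 0 < k) :
    Tendsto (fun z : ℂ => Real.exp (-k * z.im)) (ftop s t) (𝓝 0) := by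
  have h : Tendsto Complex.im (ftop s t) atTop := tendsto_comap.mono_left inf_le_left
  exact Real.tendsto_exp_atBot.comp (h.const_mul_atTop_of_neg (by linarith))

variable {c : ℕ} [NeZero c] {ε : ℝ} {a d : ℤ} {E J G : AA c → ℂ}

theorem norm_BB_real (x y : AA c) (hy : y.2.im = 0) :
    ‖BB ε a x y‖ = Real.exp (-(2 * π * c * y.2.re / ε) * x.2.im) := by
  rw [norm_BB, hy]; congr 1; ring

theorem tends_BB (hP : Par c ε a d) {s t : ℝ} (n : ZMod c) {y : AA c} (hy : y.2.im = 0)
    (hy' : 0 < y.2.re) : Tendsto (fun z => BB ε a (n, z) y) (ftop s t) (𝓝 0) := by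
  rw [tendsto_zero_iff_norm_tendsto_zero]
  simp only [norm_BB_real _ _ hy]
  have := cast_pos (c := c)
  have := hP.pos
  exact tends_exp (by positivity)

theorem diff_id (hP : Par c ε a d) (hE : IsE ε a d E J G) {u w x : AA c}
    (hu : BB ε a u (al c ε d - be c) = 1) (hw : BB ε a w (al c ε d - be c) = 1)
    (h1 : 0 < (x + u).2.re) (h2 : x.2.re < 0) (h3 : BB ε a x (al c ε d - be c) ≠ 1) :
    E (x + (al c ε d - be c) + u + be c) * J (x + (al c ε d - be c) + be c) *
        BB ε a (x + (al c ε d - be c)) w /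
        (1 - BB ε a (x + (al c ε d - be c)) (al c ε d - be c)) -
      E (x + u + be c) * J (x + be c) * BB ε a x w / (1 - BB ε a x (al c ε d - be c)) =
      -(1 - BB ε a u (be c)) * bint ε a d E J u (w + be c) x := by
  have hU : BB ε a u (al c ε d) = BB ε a u (be c) := by
    rw [BB_sub_right, div_eq_one_iff_eq (BB_ne _ _)] at hu
    exact hu
  have e1 : x + (al c ε d - be c) + u + be c = x + u + al c ε d := by abel
  have e2 : x + (al c ε d - be c) + be c = x + al c ε d := by abel
  have j1 := hE.Jb (x + al c ε d) (by rw [Prod.snd_add, add_re, al_re]; linarith)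
  have j2 := hE.Ja (x + be c) (by rw [Prod.snd_add, add_re, be_re]; linarith)
  rw [add_assoc, BB_add_left, BB_al_be hP, mul_one] at j1
  rw [add_assoc, add_comm (be c), BB_add_left, BB_be_al hP, mul_one] at j2
  rw [e1, e2, hE.Ea _ h1, hE.Eb _ h1, j1, j2, BB_add_left x _ (al c ε d - be c), BB_de_de hP,
    BB_add_left x _ w, BB_comm (al c ε d - be c) w, hw, BB_add_left, BB_add_left, hU, bint, BB_add_right x w,
    mul_one, mul_one, ← sub_div, div_eq_iff (sub_ne_zero.2 h3.symm), BB_sub_right]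
  have := BB_ne (ε := ε) (a := a) x (be c)
  field_simp
  ring

theorem residue (hP : Par c ε a d) (n : ZMod c) {p : ℂ}
    (hp : BB ε a (n, p) (al c ε d - be c) = 1) {g : ℂ → ℂ} (hg : ContinuousAt g p) :
    Tendsto (fun z => (z - p) * (g z / (1 - BB ε a (n, z) (al c ε d - be c)))) (𝓝[≠] p)
      (𝓝 (-(g p * ε / ((ε - 1) * (2 * π * I))))) := by
  have h1 := hP.ne
  have h2 := cast_ne (c := c)
  have h3 : (ε : ℂ) - 1 ≠ 0 := by exact_mod_cast (sub_pos.2 hP.one_lt).ne'
  have h4 := Complex.two_pi_I_ne_zero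
  have hd : HasDerivAt (fun z => BB ε a (n, z) (al c ε d - be c))
      (2 * π * I * ((ε - 1) / ε)) p := by
    have : HasDerivAt (fun z => BB ε a (n, z) (al c ε d - be c))
        (BB ε a (n, p) (al c ε d - be c) * (2 * π * I * ((ε - 1) / ε))) p := by
      simp only [BB, ee]
      have := (((((hasDerivAt_id p).const_mul (c : ℂ)).mul_const
        (al c ε d - be c).2).div_const (ε : ℂ)).const_mul (2 * π * I)).cexp.mul_const
        (ZMod.stdAddChar (-(a : ZMod c) * n * (al c ε d - be c).1))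
      refine this.congr_deriv ?_
      simp only [id, Prod.snd_sub, al, be]
      field_simp
    rwa [hp, one_mul] at this
  have h5 := (hasDerivAt_iff_tendsto_slope.1 hd).inv₀ (by
    exact mul_ne_zero h4 (div_ne_zero h3 h1))
  have h6 := ((hg.tendsto.mono_left nhdsWithin_le_nhds).mul h5).neg
  have e : -(g p * (2 * π * I * ((ε - 1) / ε))⁻¹) = -(g p * ε / ((ε - 1) * (2 * π * I))) := by
    field_simp
  rw [e] at h6
  refine h6.congr fun z => ?_
  rw [slope_def_field, hp, inv_div, ← neg_sub 1, div_neg]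
  ring

theorem bottom (hP : Par c ε a d) (hE : IsE ε a d E J G) {u w : AA c} (hu : u.2.im = 0)
    (hw : w.2.im = 0) (hs : u.2.re + w.2.re < (ε - 1) / c) {s t : ℝ} (h1 : 0 < s + u.2.re + 1 / c)
    (h2 : t < ε / c) (n : ZMod c) (η : ℝ) (hη : 0 < η) : ∃ R : ℝ, ∀ z : ℂ, s ≤ z.re → z.re ≤ t →
      z.im ≤ -R → ‖E ((n, z) + u + be c) * J ((n, z) + be c) * BB ε a (n, z) w /
        (1 - BB ε a (n, z) (al c ε d - be c))‖ ≤ η := by
  have hc := cast_pos (c := c)
  have hε := hP.pos
  obtain ⟨C1, k1⟩ := hE.bdE (s + u.2.re + 1 / c) (t + u.2.re + 1 / c) h1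
  obtain ⟨C2, k2⟩ := hE.bdJ (s + 1 / c) (t + 1 / c) (by rw [add_div]; linarith)
  set κ := 2 * π * c / ε with hκ
  have hκ0 : 0 < κ := by positivity
  set l := (ε - 1) / c with hl
  have hl0 : 0 < l := div_pos (sub_pos.2 hP.one_lt) hc
  have t1 : Tendsto (fun y : ℝ => 2 * (|C1| * |C2|) * Real.exp (-(κ * (l - u.2.re - w.2.re)) * y))
      atTop (𝓝 0) := by
    have := (Real.tendsto_exp_atBot.comp (tendsto_id.const_mul_atTop_of_neg
      (show -(κ * (l - u.2.re - w.2.re)) < 0 from neg_neg_of_pos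
        (mul_pos hκ0 (by linarith))))).const_mul (2 * (|C1| * |C2|))
    simpa using this
  have t2 : Tendsto (fun y : ℝ => Real.exp (κ * l * y)) atTop atTop :=
    Real.tendsto_exp_atTop.comp (tendsto_id.const_mul_atTop (by positivity))
  obtain ⟨R, hR⟩ := eventually_atTop.1 ((t1.eventually_le_const hη).and
    ((t2.eventually_ge_atTop 2).and (eventually_ge_atTop 0)))
  refine ⟨R, fun z z1 z2 z3 => ?_⟩
  obtain ⟨r1, r2, r3⟩ := hR (-z.im) (by linarith)
  have a1 := (k1 ((n, z) + u + be c) (by simp [be_re]; linarith) (by simp [be_re]; linarith)).2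
    (by simp [be_im, hu]; linarith)
  have a2 := (k2 ((n, z) + be c) (by simp [be_re]; linarith) (by simp [be_re]; linarith)).2
    (by simp [be_im]; linarith)
  have a3 : gm c ε ((n, z) + u + be c).2 =
      Real.exp (κ * u.2.re * -z.im) * gm c ε ((n, z) + be c).2 := by
    simp only [gm, Prod.snd_add, add_re, add_im, be_im, hu, ← Real.exp_add, hκ]
    congr 1; ring
  have a4 : ‖BB ε a (n, z) w‖ = Real.exp (κ * w.2.re * -z.im) := by
    rw [norm_BB_real _ _ hw, hκ]; congr 1; ring
  have a5 : ‖BB ε a (n, z) (al c ε d - be c)‖ = Real.exp (κ * l * -z.im) := by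
    rw [norm_BB_real _ _ (by simp [al_im, be_im]), hκ, hl]
    simp only [Prod.snd_sub, sub_re, al_re, be_re]
    congr 1; ring
  have a6 : Real.exp (κ * l * -z.im) / 2 ≤ ‖1 - BB ε a (n, z) (al c ε d - be c)‖ := by
    have := norm_sub_norm_le (BB ε a (n, z) (al c ε d - be c)) 1
    rw [norm_sub_rev, norm_one, a5] at this
    linarith
  have hg : 0 < gm c ε ((n, z) + be c).2 := Real.exp_pos _
  refine le_trans ?_ r1
  rw [norm_div, norm_mul, norm_mul, div_le_iff₀ (lt_of_lt_of_le (by positivity) a6), a4]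
  calc _ ≤ |C1| * (Real.exp (κ * u.2.re * -z.im) * gm c ε ((n, z) + be c).2) *
          ‖J ((n, z) + be c)‖ * Real.exp (κ * w.2.re * -z.im) := by
        rw [← a3]
        gcongr
        exact a1.trans (mul_le_mul_of_nonneg_right (le_abs_self _) (Real.exp_pos _).le)
    _ = |C1| * (‖J ((n, z) + be c)‖ * gm c ε ((n, z) + be c).2) *
          (Real.exp (κ * u.2.re * -z.im) * Real.exp (κ * w.2.re * -z.im)) := by ring
    _ ≤ |C1| * |C2| * (Real.exp (κ * u.2.re * -z.im) * Real.exp (κ * w.2.re * -z.im)) := by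
        gcongr
        exact a2.trans (le_abs_self _)
    _ = 2 * (|C1| * |C2|) * Real.exp (-(κ * (l - u.2.re - w.2.re)) * -z.im) *
          (Real.exp (κ * l * -z.im) / 2) := by
        rw [← Real.exp_add, show κ * u.2.re * -z.im + κ * w.2.re * -z.im =
          -(κ * (l - u.2.re - w.2.re)) * -z.im + κ * l * -z.im by ring, Real.exp_add]
        ring
    _ ≤ _ := by gcongr

theorem sum_psi (hP : Par c ε a d) {k : ZMod c} (hk : k ≠ 0) :
    ∑ n : ZMod c, BB ε a (n, 0) (k, 0) = 0 := by
  simp only [BB, mul_zero, zero_div, ee_zero, one_mul]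
  have h : -(a : ZMod c) * k ≠ 0 := fun h => hk (by linear_combination -(d : ZMod c) * h - k * hP.det)
  have := AddChar.sum_mulShift (ψ := ZMod.stdAddChar (N := c)) (-(a : ZMod c) * k)
    (ZMod.isPrimitive_stdAddChar c)
  rw [if_neg h] at this
  simpa [mul_comm, mul_left_comm, mul_assoc] using this

end LocAux

open LocAux in
theorem locSt (h1 : StripSt) (h2 : BIntSt) (h3 : BetaSt) : LocSt := by
  classical
  intro c _ ε a d E J G hP hE D hD u hu w hw hu0 huw
  have hc := cast_pos (c := c)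
  have hε := hP.pos
  have hε1 := sub_pos.2 hP.one_lt
  set l : ℝ := (ε - 1) / c with hl
  set h : ℝ := ε / ((ε - 1) * c) with hh
  have hh0 : 0 < h := by positivity
  have hN : l = ((a + d - 2 : ℤ) : ℝ) * h := by
    push_cast
    rw [← hP.tr, hl, hh]; field_simp; ring
  have him : ∀ x : AA c, BB ε a x (al c ε d - be c) = 1 → x.2 = x.2.re ∧ ∃ j : ℤ, x.2.re = j * h :=
    fun x hx => by
      obtain ⟨j, hj⟩ := de_spec hP hx
      exact ⟨by rw [hj, ofReal_re], j, by rw [hj, ofReal_re]⟩
  obtain ⟨u1, -, -⟩ := (hD u).1 hu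
  obtain ⟨w1, w2, -⟩ := (hD w).1 hw
  obtain ⟨m, uz⟩ := u
  obtain ⟨ur, j, hj⟩ := him _ u1
  simp only at ur hj hu0 huw
  set t := uz.re with ht
  have wr := (him _ w1).1
  have wi : w.2.im = 0 := by rw [wr, ofReal_im]
  have hirr : Irrational (c * t) := by
    have hj0 : j ≠ 0 := by rintro rfl; simp at hj; linarith
    have e : c * t = j + j * (ε - 1)⁻¹ := by rw [hj, hh]; field_simp; ring
    rw [e]
    exact (Irrational.intCast_mul (Irrational.inv (by simpa using hP.irr.sub_intCast 1)) hj0).intCast_add j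
  set k := ⌊c * t⌋₊ with hk
  set t₀ := t - k / c with ht₀
  have k1 : (k : ℝ) < c * t := lt_of_le_of_ne (Nat.floor_le (by positivity))
    (fun e => hirr.ne_nat k e.symm)
  have k2 : c * t < k + 1 := Nat.lt_floor_add_one _
  have t1 : 0 < t₀ := by rw [ht₀, sub_pos, div_lt_iff₀ hc]; linarith
  have t2 : t₀ < 1 / c := by rw [ht₀, sub_lt_iff_lt_add, ← add_div, lt_div_iff₀ hc]; linarith
  have t3 : t₀ + k / c = t := by rw [ht₀]; ring
  have t4 : t₀ ≤ t := by rw [ht₀]; exact sub_le_self _ (by positivity)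
  set s := -(min t₀ h / 2) with hs
  have s0 : 0 < min t₀ h := lt_min t1 hh0
  have s1 : s < 0 := by rw [hs]; linarith
  have s2 : -t₀ < s := by rw [hs]; linarith [min_le_left t₀ h]
  have s3 : -h < s := by rw [hs]; linarith [min_le_right t₀ h]
  have hl1 : l + 1 / c = ε / c := by rw [hl]; ring
  have hc1 : (0 : ℝ) < 1 / c := by positivity
  have hin : ∀ x : AA c, BB ε a x (al c ε d - be c) = 1 → s ≤ x.2.re → x.2.re ≤ s + l → x ∈ D :=
    fun x hx a1 a2 => by
      obtain ⟨-, i, hi⟩ := him x hx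
      refine (hD x).2 ⟨hx, ?_, by linarith⟩
      have : (-1 : ℝ) < i := by
        by_contra hcon
        push Not at hcon
        nlinarith
      have : 0 ≤ i := by
        have : (-1 : ℤ) < i := by exact_mod_cast this
        omega
      rw [hi]; positivity
  have hout : ∀ x ∈ D, s < x.2.re ∧ x.2.re < s + l := fun x hx => by
    obtain ⟨a1, a2, a3⟩ := (hD x).1 hx
    obtain ⟨-, i, hi⟩ := him x a1
    refine ⟨by linarith, ?_⟩
    have : (i : ℝ) < ((a + d - 2 : ℤ) : ℝ) := by
      rw [hi, hN] at a3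
      exact lt_of_mul_lt_mul_right a3 hh0.le
    have : i + 1 ≤ a + d - 2 := by exact_mod_cast this
    have : (i : ℝ) + 1 ≤ ((a + d - 2 : ℤ) : ℝ) := by exact_mod_cast this
    rw [hi, hN]; nlinarith
  set g : AA c → ℂ := fun x => E (x + (m, uz) + be c) * J (x + be c) * BB ε a x w with hg
  have gd : ∀ (n : ZMod c) (z : ℂ), s ≤ z.re → z.re ≤ s + l →
      DifferentiableAt ℂ (fun z => g (n, z)) z := fun n z z1 z2 => by
    have d1 := ((hE.dE (n + m + -1)).differentiableAt ((isOpen_lt continuous_const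
      continuous_re).mem_nhds (show 0 < (z + uz + (be c).2).re by
        simp only [add_re, be_re]; linarith))).comp z
      (show DifferentiableAt ℂ (fun z : ℂ => z + uz + (be c).2) z by fun_prop)
    have d2 := ((hE.dJ (n + -1)).differentiableAt ((isOpen_lt continuous_re
      continuous_const).mem_nhds (show (z + (be c).2).re < (1 + ε) / c by
        simp only [add_re, be_re, add_div]; linarith))).comp z
      (show DifferentiableAt ℂ (fun z : ℂ => z + (be c).2) z by fun_prop)
    exact (d1.mul d2).mul (BB_diff n w z)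
  have hbe : 0 < (w + be c).2.re := by simp only [Prod.snd_add, add_re, be_re]; linarith
  have hbe' : t + (w + be c).2.re < (1 + ε) / c := by
    simp only [Prod.snd_add, add_re, be_re, add_div]; linarith
  have hdiff : ∀ y : ℝ, ∑ n : ZMod c,
      (g (n, (s + l : ℝ) + y * I) / (1 - BB ε a (n, (s + l : ℝ) + y * I) (al c ε d - be c)) -
        g (n, s + y * I) / (1 - BB ε a (n, s + y * I) (al c ε d - be c))) =
      -(1 - BB ε a (m, uz) (be c)) *
        ∑ n : ZMod c, bint ε a d E J (m, t) (w + be c) (n, s + y * I) := fun y => by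
    have e : ((s + l : ℝ) : ℂ) + y * I = s + y * I + (al c ε d - be c).2 := by
      simp only [Prod.snd_sub, al, be, hl]; push_cast; ring
    rw [Finset.sum_sub_distrib, e, ← sum_shift (fun x => g x / (1 - BB ε a x (al c ε d - be c))),
      ← Finset.sum_sub_distrib, Finset.mul_sum, ← ur]
    refine Finset.sum_congr rfl fun n _ => diff_id hP hE u1 w1 (by simp; linarith) (by simpa)
      fun hx => ?_
    have := (hout _ (hin _ hx (by simp) (by simp; positivity))).1
    simp at this
  have key := h1 (fun n z => g (n, z) / (1 - BB ε a (n, z) (al c ε d - be c)))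
    (fun n => (D.filter fun x => x.1 = n).image fun x => x.2.re)
    (fun n p => -(g (n, p) * ε / ((ε - 1) * (2 * π * I))))
    (fun n => if w.2 = 0 then BB ε a (n, 0) w else 0) s (s + l) (by linarith [div_pos hε1 hc])
    (fun n p hp => by
      obtain ⟨x, hx, rfl⟩ := Finset.mem_image.1 hp
      exact hout x (Finset.mem_filter.1 hx).1)
    (fun n z z1 z2 hz => (gd n z z1 z2).div ((BB_diff n _ z).const_sub 1) fun h0 => by
      have hx := (sub_eq_zero.1 h0).symm
      exact hz z.re (Finset.mem_image.2 ⟨(n, z), Finset.mem_filter.2 ⟨hin _ hx z1 z2, rfl⟩, rfl⟩)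
        (him _ hx).1)
    (fun n p hp => by
      obtain ⟨x, hx', rfl⟩ := Finset.mem_image.1 hp
      obtain ⟨hx, hn⟩ := Finset.mem_filter.1 hx'
      subst hn
      have hx1 := ((hD x).1 hx).1
      refine residue hP x.1 (by rw [← (him x hx1).1]; exact hx1) (gd _ _ ?_ ?_).continuousAt
      · simpa using (hout x hx).1.le
      · simpa using (hout x hx).2.le)
    (fun n η hη => by
      have b1 : Tendsto (fun z => E ((n, z) + (m, uz) + be c)) (ftop s (s + l)) (𝓝 1) :=
        tends_top.2 fun η hη => by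
          obtain ⟨R, hR⟩ := hE.topE (s + t + 1 / c) (s + l + t + 1 / c) (by linarith) η hη
          refine ⟨R, fun z z1 z2 z3 => hR _ ?_ ?_ ?_⟩
          · simp only [Prod.snd_add, add_re, be_re]; linarith
          · simp only [Prod.snd_add, add_re, be_re]; linarith
          · simp only [Prod.snd_add, add_im, be_im]
            rw [ur, ofReal_im]; linarith
      have b2 : Tendsto (fun z => J ((n, z) + be c)) (ftop s (s + l)) (𝓝 1) :=
        tends_top.2 fun η hη => by
          obtain ⟨R, hR⟩ := hE.topJ (s + 1 / c) (s + l + 1 / c) (by rw [add_div]; linarith) η hη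
          refine ⟨R, fun z z1 z2 z3 => hR _ ?_ ?_ ?_⟩
          · simp only [Prod.snd_add, add_re, be_re]; linarith
          · simp only [Prod.snd_add, add_re, be_re]; linarith
          · simp only [Prod.snd_add, add_im, be_im]; linarith
      have b3 : Tendsto (fun z => BB ε a (n, z) w) (ftop s (s + l))
          (𝓝 (if w.2 = 0 then BB ε a (n, 0) w else 0)) := by
        split_ifs with h0
        · simp only [BB, h0, mul_zero]
          exact tendsto_const_nhds
        · refine tends_BB hP n wi (lt_of_le_of_ne w2 fun e => h0 ?_)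
          rw [wr, ← e, ofReal_zero]
      have b4 := tends_BB hP (s := s) (t := s + l) n (y := al c ε d - be c)
        (by simp [al_im, be_im]) (by
          simp only [Prod.snd_sub, sub_re, al_re, be_re]; linarith [div_pos hε1 hc])
      have b5 := ((b1.mul b2).mul b3).div (b4.const_sub 1) (by simp)
      simp only [one_mul, sub_zero, div_one] at b5
      obtain ⟨R1, r1⟩ := tends_top.1 b5 η hη
      obtain ⟨R2, r2⟩ := bottom hP hE (u := (m, uz)) (w := w) (by rw [ur, ofReal_im]) wi huw
        (s := s) (t := s + l) (by simp only; linarith) (by linarith) n η hη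
      exact ⟨max R1 R2, fun z z1 z2 => ⟨fun z3 => r1 z z1 z2 ((le_max_left _ _).trans z3),
        fun z3 => r2 z z1 z2 (by linarith [le_max_right R1 R2])⟩⟩)
    (by
      simp only [hdiff]
      exact (integrable_finsetSum _ fun n _ =>
        (h2 c ε a d E J G hP hE m t s (by linarith) s1).1 _ hbe hbe' n).const_mul _)
  have beta := h3 c ε a d E J G hP hE k m t₀ s t2 s2 s1 (w + be c) hbe (by rw [t3]; exact hbe')
  have hsum : ∑ n : ZMod c, ∑ p ∈ ((D.filter fun x => x.1 = n).image fun x => x.2.re : Finset ℝ),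
      -(g (n, (p : ℝ)) * ε / ((ε - 1) * (2 * π * I))) =
      -((∑ x ∈ D, g x) * ε / ((ε - 1) * (2 * π * I))) := by
    rw [← Finset.sum_fiberwise D (fun x => x.1) g, Finset.sum_mul, Finset.sum_div,
      ← Finset.sum_neg_distrib]
    refine Finset.sum_congr rfl fun n _ => ?_
    rw [Finset.sum_image, Finset.sum_mul, Finset.sum_div, ← Finset.sum_neg_distrib]
    · refine Finset.sum_congr rfl fun x hx => ?_
      obtain ⟨hx, hn⟩ := Finset.mem_filter.1 hx
      rw [← (him x ((hD x).1 hx).1).1, ← hn]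
    · intro x hx y hy e
      obtain ⟨hx, a1⟩ := Finset.mem_filter.1 hx
      obtain ⟨hy, a2⟩ := Finset.mem_filter.1 hy
      refine Prod.ext (a1.trans a2.symm) ?_
      rw [(him x ((hD x).1 hx).1).1, (him y ((hD y).1 hy).1).1]
      exact congrArg ofReal e
  simp only [hdiff] at key
  rw [integral_const_mul, mul_left_comm, Finset.sum_add_distrib, ← Finset.mul_sum, hsum,
    ← Finset.sum_mul] at key
  rw [t3, lint] at beta
  rw [beta, ← ur] at key
  have eb := hE.Eb (m, uz) hu0
  have ej := hE.mul (be c) (by rw [be_re]; exact hc1) (by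
    rw [be_re, add_div]; linarith [div_pos hε hc])
  have q1 : (ε : ℂ) - 1 ≠ 0 := by exact_mod_cast hε1.ne'
  have q2 := Complex.two_pi_I_ne_zero
  have q3 : 2 * π * I * -((∑ x ∈ D, g x) * ε / ((ε - 1) * (2 * π * I))) =
      -((∑ x ∈ D, g x) * ε / (ε - 1)) := by field_simp
  have q4 : (∑ x ∈ D, g x) * ε / (ε - 1) * (ε - 1) = (∑ x ∈ D, g x) * ε := div_mul_cancel₀ _ q1
  rw [q3, ← add_assoc] at key
  split_ifs with h0
  · subst h0
    have q5 : (c : ℂ) * ((s + l : ℝ) - s) = ε - 1 := by
      have := cast_ne (c := c)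
      rw [hl]; push_cast; field_simp; ring
    have q6 := hE.mul ((m, uz) + be c) (by simp only [Prod.snd_add, add_re, be_re]; linarith)
      (by simpa using hbe')
    simp only [Prod.snd_zero, if_true, BB_zero_right, Finset.sum_const, Finset.card_univ,
      ZMod.card, nsmul_eq_mul, mul_one, zero_add, add_zero, q5] at key ⊢
    rw [eb] at q6 ⊢
    linear_combination (ε - 1) * E (be c) * key - E (be c) * q4 +
      (ε - 1) * E (be c) * (1 - BB ε a (m, uz) (be c)) * E (m, uz) * J ((m, uz) + be c) * ej +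
      (ε - 1) * (1 - ε) * E (be c) * q6
  · have q5 : (∑ n : ZMod c, if w.2 = 0 then BB ε a (n, 0) w else 0) = 0 := by
      split_ifs with h4
      · obtain ⟨k', wz⟩ := w
        simp only at h4
        subst h4
        exact sum_psi hP fun e => h0 (by rw [e]; rfl)
      · simp
    rw [q5] at key
    rw [eb]
    linear_combination (ε - 1) * E (be c) * key - E (be c) * q4 +
      (ε - 1) * (1 - BB ε a (m, uz) (be c)) * E (m, uz) * E (w + be c) *
        J ((m, uz) + w + be c) * ej

end Pool.Agent.RM
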