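import Pool.Agent.Lib.MP_ca56d1_nt.B.PB1

/-! The finite pentagon identity in one basis. -/

set_option linter.unusedSectionVars false

namespace Pool.Agent.RM

namespace PBAux

open Complex

variable {K : Type*} [Field K] [CharZero K] {σ σ' : K →+* ℝ} {ε : K} {L : Submodule ℤ K}
  {w₁ w₂ : K} {a b d : ℤ} {c : ℕ} [NeZero c] {E J G : AA c → ℂ}

/-- The data of one basis. -/
structure Dat (σ σ' : K →+* ℝ) (ε : K) (L : Submodule ℤ K) (w₁ w₂ : K) (a b : ℤ) (c : ℕ)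
    [NeZero c] (d : ℤ) (E J G : AA c → ℂ) : Prop where
  hε : Eps σ σ' ε
  hL : ELat ε L
  hB : Bas σ σ' ε L w₁ w₂ a b c d
  hE : IsE (σ ε) a d E J G
  val : ∀ x p v, (ε - 1) * x ∈ L → Rep (σ ε) w₁ w₂ c d x p v → 0 ≤ v → v < 1 →
    Fm σ σ' ε L x = E (p + be c)

variable (h : Dat σ σ' ε L w₁ w₂ a b c d E J G) {x y : K} {p q : AA c} {v v' : ℚ}

include h

theorem Dat.P : Par c (σ ε) a d := par h.hε h.hB

theorem Dat.w₂_mem (m : ℤ) : (m : K) * w₂ ∈ L := (h.hB.mem _).2 ⟨0, m, by simp⟩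

open Classical in
theorem Dat.fp₀ (hx : (ε - 1) * x ∈ L) (hr : Rep (σ ε) w₁ w₂ c d x p v) (h0 : 0 ≤ v)
    (h1 : v < 1) : Fp σ σ' ε L x = (if p = 0 then ((σ ε : ℝ) : ℂ) else 1) * E (p + be c) := by
  rw [Fp, h.val x p v hx hr h0 h1]
  by_cases hp : p = 0
  · rw [if_pos hp, if_pos (Rep.mem h.hB h.hε.one_lt (hp ▸ hr))]
  · rw [if_neg hp, if_neg fun hL => hp (hr.eq_zero h.hB hL (by linarith) h1), one_mul]

theorem Dat.fp (hx : (ε - 1) * x ∈ L) (hr : Rep (σ ε) w₁ w₂ c d x p v) (h0 : 0 < v)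
    (h1 : v < 2) : Fp σ σ' ε L x = E (p + be c) := by
  rcases lt_or_ge v 1 with h2 | h2
  · rw [h.fp₀ hx hr h0.le h2, if_neg, one_mul]
    rintro rfl
    have := (Rep.zero.sub hr).nonneg (w₁ := w₁) (w₂ := w₂) (d := d) h.hε.one_lt
    rw [sub_self] at this
    linarith [this.1 (by simp)]
  · have h3 := hr.sub (Rep.de 1)
    have h4 : x - (x - (1 : ℤ) * w₂) ∈ L := by simpa using h.w₂_mem 1
    have h5 := fin_of_sub h.hL hx h4
    have h6 : (0 : ℚ) ≤ v - (1 : ℤ) := by push_cast; linarith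
    rw [fin_Fp h4, h.fp₀ h5 h3 h6 (by push_cast; linarith),
      ← h.hE.psi h.P _ (h3.orth h.hB h.P h5) ((h3.nonneg h.hε.one_lt).2 h6)]
    congr 1
    rw [one_smul]
    abel

theorem Dat.strip (hr : Rep (σ ε) w₁ w₂ c d x p v) (h0 : 0 ≤ v) (h1 : v < 1) :
    0 < (p + be c).2.re ∧ (p + be c).2.re < (1 + σ ε) / c := by
  have hc := cast_pos (c := c)
  have a1 := (hr.nonneg h.hε.one_lt).2 h0
  have a2 := (hr.lt h.hε.one_lt).2 h1
  have a3 : (0 : ℝ) < 1 / c := by positivity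
  rw [Prod.snd_add, add_re, be_re]
  rw [sub_div] at a2
  rw [add_div]
  constructor <;> linarith

theorem Dat.inv (hx : (ε - 1) * x ∈ L) (hr : Rep (σ ε) w₁ w₂ c d x p v) (h0 : 0 ≤ v)
    (h1 : v < 1) : (Fm σ σ' ε L x)⁻¹ = J (p + be c) := by
  rw [h.val x p v hx hr h0 h1]
  exact inv_eq_of_mul_eq_one_right (h.hE.mul _ (h.strip hr h0 h1).1 (h.strip hr h0 h1).2)

theorem Dat.gk₀ (hx : (ε - 1) * x ∈ L) (hr : Rep (σ ε) w₁ w₂ c d x p v) (h0 : 0 ≤ v)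
    (h1 : v < 1) : Gk σ σ' ε L x = G (p + be c) := by
  have h3 := (Rep.de 1).sub hr
  have h4 : -x - ((1 : ℤ) * w₂ - x) ∈ L := by
    convert L.neg_mem (h.w₂_mem 1) using 1
    ring
  rw [← fin_Gk_neg, Gk, neg_neg, h.val x p v hx hr h0 h1, fin_Fp h4,
    h.fp (fin_of_sub h.hL (fin_neg hx) h4) h3 (by push_cast; linarith) (by push_cast; linarith),
    ← h.hE.refl _ (h.strip hr h0 h1).1 (h.strip hr h0 h1).2, mul_comm]
  congr 2
  rw [one_smul]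
  abel

theorem Dat.G0_ne : G 0 ≠ 0 := by
  obtain ⟨m, h1, h2⟩ := h.hE.G0
  intro h3
  rw [h3, zero_pow h1] at h2
  exact zero_ne_one h2

theorem Dat.G_be (p : AA c) : G (p + be c) = -G p * BB (σ ε) a p (be c) := by
  refine mul_right_cancel₀ h.G0_ne ?_
  rw [h.hE.Gadd, h.hE.Gb]
  ring

theorem Dat.G_step (hp : BB (σ ε) a p (al c (σ ε) d - be c) = 1) :
    G (p + (al c (σ ε) d - be c) + be c) = G (p + be c) := by
  rw [BB_sub_right, div_eq_one_iff_eq (BB_ne _ _)] at hp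
  rw [add_assoc, sub_add_cancel, h.G_be, ← hp]
  refine mul_right_cancel₀ h.G0_ne ?_
  rw [h.hE.Gadd, h.hE.Ga]
  ring

theorem Dat.G_per (hx : (ε - 1) * x ∈ L) (hr : Rep (σ ε) w₁ w₂ c d x p v) (m : ℤ) :
    G (p + m • (al c (σ ε) d - be c) + be c) = G (p + be c) := by
  have key : ∀ k : ℤ, G (p + (k + 1) • (al c (σ ε) d - be c) + be c) =
      G (p + k • (al c (σ ε) d - be c) + be c) := fun k => by
    rw [add_smul, one_smul, ← add_assoc]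
    refine h.G_step ((hr.add (Rep.de k)).orth h.hB h.P (fin_of_sub h.hL hx ?_))
    simpa using h.w₂_mem k
  induction m using Int.induction_on with
  | zero => simp
  | succ k ih => rw [key, ih]
  | pred k ih => rw [← key, sub_add_cancel, ih]

theorem Dat.gk (hx : (ε - 1) * x ∈ L) (hr : Rep (σ ε) w₁ w₂ c d x p v) :
    Gk σ σ' ε L x = G (p + be c) := by
  have h4 : x - (x + (-⌊v⌋ : ℤ) * w₂) ∈ L := by simpa using h.w₂_mem ⌊v⌋
  rw [fin_Gk h4, h.gk₀ (fin_of_sub h.hL hx h4) (hr.add (Rep.de _))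
    (by push_cast; linarith [Int.floor_le v]) (by push_cast; linarith [Int.lt_floor_add_one v]),
    h.G_per hx hr]

theorem Dat.bk (hx : (ε - 1) * x ∈ L) (hr : Rep (σ ε) w₁ w₂ c d x p v)
    (hy : (ε - 1) * y ∈ L) (hr' : Rep (σ ε) w₁ w₂ c d y q v') :
    Bk σ σ' ε L x y = BB (σ ε) a p q := by
  rw [Bk, div_eq_iff (mul_ne_zero (fin_Gk_ne h.hε _) (fin_Gk_ne h.hε _)), h.gk hx hr, h.gk hy hr',
    h.gk (fin_add hx hy) (hr.add hr'), h.gk (by simp) Rep.zero, h.G_be, h.G_be, h.G_be, h.G_be,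
    BB_zero_left, BB_add_left]
  linear_combination (BB (σ ε) a p (be c) * BB (σ ε) a q (be c)) * h.hE.Gadd p q

theorem Dat.fin : {p : AA c | BB (σ ε) a p (al c (σ ε) d - be c) = 1 ∧ 0 ≤ p.2.re ∧
    p.2.re < (σ ε - 1) / c}.Finite := by
  refine (((Set.finite_univ (α := ZMod c)).prod (Set.finite_Ico (0 : ℤ) (a + d - 2))).image
    fun t => ((t.1, ((((t.2 / (a + d - 2 : ℤ) : ℚ) : ℝ) * (σ ε - 1) / c : ℝ) : ℂ)) : AA c)).subset ?_
  rintro p ⟨h1, h2, h3⟩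
  obtain ⟨x, j, -, hr⟩ := surj h.hB h.P h1
  have hN : (0 : ℚ) < (a + d - 2 : ℤ) := by exact_mod_cast N_pos h.P
  have a1 := (hr.nonneg h.hε.one_lt).1 h2
  have a2 := (hr.lt h.hε.one_lt).1 h3
  rw [le_div_iff₀ hN, zero_mul] at a1
  rw [div_lt_one hN] at a2
  obtain ⟨u, n, -, -, rfl⟩ := hr
  exact ⟨(n, j), ⟨trivial, by exact_mod_cast a1, by exact_mod_cast a2⟩, rfl⟩

theorem Dat.main (h3 : LocSt) : ∃ s, Reps ε L s ∧ ∀ u v u' v' : ℚ,
    (ε - 1) * (u * w₁ + v * w₂) ∈ L → (ε - 1) * (u' * w₁ + v' * w₂) ∈ L → 0 < v → 0 ≤ v' →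
    v + v' < 1 → PId σ σ' ε L s (u * w₁ + v * w₂) (u' * w₁ + v' * w₂) := by
  classical
  have he := h.hε.one_lt
  obtain ⟨D, hD⟩ : ∃ D : Finset (AA c), ∀ p, p ∈ D ↔ BB (σ ε) a p (al c (σ ε) d - be c) = 1 ∧
      0 ≤ p.2.re ∧ p.2.re < (σ ε - 1) / c := ⟨h.fin.toFinset, fun p => h.fin.mem_toFinset⟩
  have hr : ∀ p : AA c, ∃ (x : K) (v : ℚ), p ∈ D → (ε - 1) * x ∈ L ∧
      Rep (σ ε) w₁ w₂ c d x p v ∧ 0 ≤ v ∧ v < 1 := fun p => by
    by_cases hp : p ∈ D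
    · obtain ⟨a1, a2, a3⟩ := (hD p).1 hp
      obtain ⟨x, j, b1, b2⟩ := surj h.hB h.P a1
      exact ⟨x, _, fun _ => ⟨b1, b2, (b2.nonneg he).1 a2, (b2.lt he).1 a3⟩⟩
    · exact ⟨0, 0, fun h' => (hp h').elim⟩
  choose r t hr using hr
  have mem : ∀ {x p v}, (ε - 1) * x ∈ L → Rep (σ ε) w₁ w₂ c d x p v → 0 ≤ v → v < 1 → p ∈ D :=
    fun hx a1 a2 a3 => (hD _).2 ⟨a1.orth h.hB h.P hx, (a1.nonneg he).2 a2, (a1.lt he).2 a3⟩
  have inj : ∀ p ∈ D, ∀ q ∈ D, r p - r q ∈ L → p = q := fun p hp q hq a1 => by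
    obtain ⟨-, b1, b2, b3⟩ := hr p hp
    obtain ⟨-, c1, c2, c3⟩ := hr q hq
    exact sub_eq_zero.1 ((b1.sub c1).eq_zero h.hB a1 (by linarith) (by linarith))
  refine ⟨D.image r, ⟨fun g hg => ?_, fun x hx => ?_⟩, fun u v u' v' hx hy h0 h1 h2 => ?_⟩
  · obtain ⟨p, hp, rfl⟩ := Finset.mem_image.1 hg
    exact (hr p hp).1
  · obtain ⟨p, v, a1⟩ := exists_rep h.hε h.hB hx
    have h4 : x - (x + (-⌊v⌋ : ℤ) * w₂) ∈ L := by simpa using h.w₂_mem ⌊v⌋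
    have a2 := a1.add (Rep.de (-⌊v⌋))
    have a3 := mem (fin_of_sub h.hL hx h4) a2 (by push_cast; linarith [Int.floor_le v])
      (by push_cast; linarith [Int.lt_floor_add_one v])
    have a4 := a2.sub (hr _ a3).2.1
    rw [sub_self] at a4
    have a5 := L.add_mem h4 (a4.mem h.hB he)
    rw [sub_add_sub_cancel] at a5
    refine ⟨_, ⟨Finset.mem_image_of_mem r a3, a5⟩, ?_⟩
    rintro g ⟨hg, a6⟩
    obtain ⟨q, hq, rfl⟩ := Finset.mem_image.1 hg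
    rw [inj q hq _ a3 (by simpa using L.sub_mem a5 a6)]
  · obtain ⟨P, hP⟩ := rep_of h.hB (σ ε) hx
    obtain ⟨W, hW⟩ := rep_of h.hB (σ ε) hy
    have a1 : 0 < P.2.re := by
      by_contra hn
      have := ((Rep.zero.sub hP).nonneg (w₁ := w₁) (w₂ := w₂) (d := d) he).1
        (by simpa using hn)
      linarith
    have a2 := ((hP.add hW).lt he).2 h2
    have key := h3 c (σ ε) a d E J G h.P h.hE D hD P (mem hx hP h0.le (by linarith)) W
      (mem hy hW h1 (by linarith)) a1 a2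
    rw [PId, Finset.sum_image fun p hp q hq e => inj p hp q hq (by rw [e]; simp),
      h.val 0 0 0 (by simp) Rep.zero le_rfl one_pos, zero_add, div_eq_mul_inv,
      h.inv (fin_add hx hy) (hP.add hW) (by linarith) h2, h.fp hx hP h0 (by linarith),
      h.fp₀ hy hW h1 (by linarith)]
    refine Eq.trans ?_ (key.trans (by congr))
    congr 1
    refine Finset.sum_congr rfl fun p hp => ?_
    obtain ⟨b0, b1, b2, b3⟩ := hr p hp
    rw [div_eq_mul_inv, h.inv b0 b1 b2 b3, h.bk b0 b1 hy hW,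
      h.fp (fin_add b0 hx) (b1.add hP) (by linarith) (by linarith)]

end PBAux

open PBAux

variable {K : Type*} [Field K] [CharZero K] {σ σ' : K →+* ℝ}

theorem pbSt (_hK : RQ σ σ') (h1 : SSt) (h2 : ESt) (h3 : LocSt) (h4 : ValSt σ σ') :
    PBSt σ σ' := by
  intro ε L w₁ w₂ a b c d hc hε hL hB
  have : NeZero c := ⟨hc⟩
  obtain ⟨S, hS⟩ := h1 (σ ε) hε.pos
  obtain ⟨J, G, hE⟩ := h2 c (σ ε) a d S (PBAux.par hε hB) hS
  have h : Dat σ σ' ε L w₁ w₂ a b c d (EE (σ ε) d S) J G := ⟨hε, hL, hB, hE, by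
    rintro _ _ v hx ⟨u, n, rfl, a1, rfl⟩ a2 a3
    exact h4 ε L w₁ w₂ a b c d S hε hL hB hS u v n a1 a2 a3 hx⟩
  refine ⟨fun x y z hx hy hz => ?_, ?_, h.main h3⟩
  · obtain ⟨p, _, hp⟩ := exists_rep hε hB hx
    obtain ⟨q, _, hq⟩ := exists_rep hε hB hy
    obtain ⟨r, _, hr⟩ := exists_rep hε hB hz
    rw [h.bk hx hp (fin_add hy hz) (hq.add hr), h.bk hx hp hy hq, h.bk hx hp hz hr, BB_add_right]
  · obtain ⟨m, a1, a2⟩ := hE.G0
    refine ⟨2 * m, by omega, ?_⟩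
    rw [h.gk (by simp) Rep.zero, zero_add, hE.Gb, pow_mul, neg_sq, ← pow_mul, mul_comm, pow_mul, a2,
      one_pow]

end Pool.Agent.RM
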