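import Pool.Agent.Lib.MP_ca56d1_nt.B.Bas

/-! A holomorphic function on a strip with two incommensurable periods is constant. -/

namespace Pool.Agent.RM

open Complex Filter Topology

namespace PerAux

variable {c : ℕ} {f : AA c → ℂ} {l : ℝ}

/-- `(m, t)` is a period of `f` on the strip. -/
def P (f : AA c → ℂ) (l : ℝ) (m : ZMod c) (t : ℝ) : Prop :=
  ∀ x : AA c, 0 < x.2.re → x.2.re + t < l → f (x + (m, (t : ℂ))) = f x

theorem an {g : ℂ → ℂ} {b : ℝ} (h : DifferentiableOn ℂ g {z | 0 < z.re ∧ z.re < b}) :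
    AnalyticOnNhd ℂ g {z | 0 < z.re ∧ z.re < b} :=
  h.analyticOnNhd ((isOpen_lt continuous_const continuous_re).inter
    (isOpen_lt continuous_re continuous_const))

theorem conn (b : ℝ) : IsPreconnected {z : ℂ | 0 < z.re ∧ z.re < b} :=
  ((convex_halfSpace_re_gt 0).inter (convex_halfSpace_re_lt b)).isPreconnected

theorem sub (hf : ∀ n, DifferentiableOn ℂ (fun z => f (n, z)) {z | 0 < z.re ∧ z.re < l})
    {m m' : ZMod c} {t t' : ℝ} (h : P f l m t) (h' : P f l m' t') (h0 : 0 < t') (h1 : t' < t)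
    (h2 : t < l) : P f l (m - m') (t - t') := by
  rintro ⟨n, z⟩ hz hz'
  have a1 : DifferentiableOn ℂ (fun z => f (n + (m - m'), z + ((t - t' : ℝ) : ℂ)))
      {z | 0 < z.re ∧ z.re < l - (t - t')} :=
    (hf (n + (m - m'))).comp (f := fun z : ℂ => z + ((t - t' : ℝ) : ℂ)) (by fun_prop)
      fun w hw => by
        simp only [Set.mem_ofPred_eq, add_re, ofReal_re] at hw ⊢
        constructor <;> linarith
  have a2 : DifferentiableOn ℂ (fun z => f (n, z)) {z | 0 < z.re ∧ z.re < l - (t - t')} :=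
    (hf n).mono fun w hw => ⟨hw.1, by linarith [hw.2]⟩
  refine (an a1).eqOn_of_preconnected_of_eventuallyEq (an a2) (conn _)
    (z₀ := ((t' + (l - t) / 2 : ℝ) : ℂ)) ⟨?_, ?_⟩ ?_ ⟨hz, by simp only at hz'; linarith⟩
  · rw [ofReal_re]; linarith
  · rw [ofReal_re]; linarith
  · have ho : {w : ℂ | t' < w.re ∧ w.re < l - (t - t')} ∈ 𝓝 ((t' + (l - t) / 2 : ℝ) : ℂ) :=
      ((isOpen_lt continuous_const continuous_re).inter
        (isOpen_lt continuous_re continuous_const)).mem_nhds
        ⟨by rw [Set.mem_ofPred_eq, ofReal_re]; linarith,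
          by rw [Set.mem_ofPred_eq, ofReal_re]; linarith⟩
    filter_upwards [ho] with w hw
    have e1 := h (n - m', w - t') (by simp; linarith [hw.1]) (by simp; linarith [hw.2])
    have e2 := h' (n - m', w - t') (by simp; linarith [hw.1]) (by simp; linarith [hw.2])
    simp only [Prod.mk_add_mk, sub_add_cancel] at e1 e2
    rw [e2, ← e1]
    congr 2
    · ring
    · push_cast; ring

theorem iter {m : ZMod c} {t : ℝ} (h : P f l m t) (h0 : 0 < t) (j : ℕ) :
    P f l (j * m) (j * t) := by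
  induction j with
  | zero => intro x _ _; simp [Prod.mk_zero_zero]
  | succ j ih =>
    intro x hx hx'
    have hj : (0 : ℝ) ≤ j * t := by positivity
    push_cast at hx'
    rw [← ih x hx (by linarith), ← h (x + ((j : ZMod c) * m, ((j * t : ℝ) : ℂ)))
      (by simp; linarith) (by simp; linarith)]
    congr 1
    ext
    · simp only [Prod.fst_add]; push_cast; ring
    · simp only [Prod.snd_add]; push_cast; ring

theorem small (hf : ∀ n, DifferentiableOn ℂ (fun z => f (n, z)) {z | 0 < z.re ∧ z.re < l})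
    {m m' : ZMod c} {p q : ℝ} (h : P f l m p) (h' : P f l m' q) (hp : 0 < p) (hq : 0 < q)
    (hp' : p < l) (hq' : q < l) (hi : Irrational (p / q)) {δ : ℝ} (hδ : 0 < δ) :
    ∃ m t, P f l m t ∧ 0 < t ∧ t < δ := by
  by_contra hc
  push Not at hc
  have key : ∀ k : ℕ, ∃ m m' t t', P f l m t ∧ P f l m' t' ∧ 0 < t ∧ 0 < t' ∧ t < l ∧ t' < l ∧
      Irrational (t / t') ∧ t + t' + k * δ ≤ p + q := by
    intro k
    induction k with
    | zero => exact ⟨m, m', p, q, h, h', hp, hq, hp', hq', hi, by simp⟩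
    | succ k ih =>
      obtain ⟨n, n', t, t', h1, h2, h3, h4, h5, h6, h7, h8⟩ := ih
      have d1 := hc _ _ h1 h3
      have d2 := hc _ _ h2 h4
      rcases lt_trichotomy t t' with e | e | e
      · refine ⟨_, _, _, _, sub hf h2 h1 h3 e h6, h1, by linarith, h3, by linarith, h5, ?_, by
          push_cast; linarith⟩
        rw [sub_div, div_self h3.ne', ← inv_div]
        simpa using h7.inv.sub_natCast 1
      · rw [e, div_self h4.ne'] at h7
        exact absurd h7 not_irrational_one
      · refine ⟨_, _, _, _, sub hf h1 h2 h4 e h5, h2, by linarith, h4, by linarith, h6, ?_, by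
          push_cast; linarith⟩
        rw [sub_div, div_self h4.ne']
        simpa using h7.sub_natCast 1
  obtain ⟨k, hk⟩ := exists_nat_gt ((p + q) / δ)
  obtain ⟨-, -, t, t', -, -, h3, h4, -, -, -, h8⟩ := key k
  rw [div_lt_iff₀ hδ] at hk
  linarith

end PerAux

open PerAux in
theorem perSt : PerSt := by
  intro c _ f l p q m hp hp' hq hq' hi hf h h'
  have hc := cast_pos (c := c)
  have h1 : ∀ (n : ZMod c) (z w : ℂ), 0 < z.re → z.re < l → 0 < w.re → w.re < l →
      f (n, w) = f (n, z) := fun n z w hz hz' hw hw' => by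
    refine (an (hf n)).eqOn_of_preconnected_of_frequently_eq analyticOnNhd_const (conn l)
      (z₀ := z) ⟨hz, hz'⟩ ?_ ⟨hw, hw'⟩
    rw [frequently_iff]
    intro U hU
    obtain ⟨r, hr, hU⟩ := Metric.mem_nhdsWithin_iff.1 hU
    obtain ⟨k, t, h2, h3, h4⟩ := small hf h h' hp hq hp' hq' hi
      (div_pos (lt_min hr (sub_pos.2 hz')) hc)
    rw [lt_div_iff₀' hc, lt_min_iff] at h4
    have h5 : (0 : ℝ) < c * t := by positivity
    refine ⟨z + ((c * t : ℝ) : ℂ), hU ⟨?_, ?_⟩, ?_⟩
    · rw [Metric.mem_ball, dist_eq_norm, add_sub_cancel_left, norm_real, Real.norm_of_nonneg h5.le]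
      exact h4.1
    · simp only [Set.mem_compl_iff, Set.mem_singleton_iff, add_eq_left, ofReal_eq_zero]
      exact h5.ne'
    · have := iter h2 h3 c (n, z) hz (by linarith [h4.2])
      simpa using this
  have h2 : ∀ (j : ℕ) (z w : ℂ), 0 < z.re → z.re < l → 0 < w.re → w.re < l →
      f (j, w) = f (0, z) := fun j => by
    induction j with
    | zero => simpa using h1 0
    | succ j ih =>
      intro z w hz hz' hw hw'
      have e := h' (((j + 1 : ℕ) : ZMod c), (((l - q) / 2 : ℝ) : ℂ)) (by rw [ofReal_re]; linarith)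
        (by rw [ofReal_re]; linarith)
      rw [h1 _ (((l - q) / 2 : ℝ) : ℂ) w (by rw [ofReal_re]; linarith) (by rw [ofReal_re]; linarith)
        hw hw', ← e, ← ih z ((((l - q) / 2 : ℝ) : ℂ) + q) hz hz'
        (by rw [add_re, ofReal_re, ofReal_re]; linarith)
        (by rw [add_re, ofReal_re, ofReal_re]; linarith)]
      congr 1
      ext
      · simp
      · rfl
  rintro ⟨n, z⟩ ⟨n', w⟩ hz hz' hw hw'
  rw [← ZMod.natCast_zmod_val n, ← ZMod.natCast_zmod_val n', h2 _ z z hz hz' hz hz',
    h2 _ z w hz hz' hw hw']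

end Pool.Agent.RM
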