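import Pool.Agent.Lib.MP_ca56d1_nt.B.St

/-! Construction of the double sine function on the right half plane. -/

namespace Pool.Agent.RM

open Complex Filter Topology
open scoped Real

/-- The continuation of `exp (dl 1 q)` to the strip shifted by `n`. -/
noncomputable def ssT (q : ℝ) : ℕ → ℂ → ℂ
  | 0, z => cexp (dl 1 q z)
  | n + 1, z => (1 - ee ((z - 1) / q)) * ssT q n (z - 1)

/-- The double sine function. -/
noncomputable def ssS (q : ℝ) (z : ℂ) : ℂ := ssT q (⌈z.re⌉₊ - 1) z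

theorem ss_ee_diff : Differentiable ℂ ee := by
  unfold ee
  fun_prop

theorem ss_norm_ee (w : ℂ) : ‖ee w‖ = Real.exp (-(2 * π * w.im)) := by
  rw [ee, Complex.norm_exp]
  simp

theorem ss_open (a b : ℝ) : IsOpen {z : ℂ | a < z.re ∧ z.re < b} :=
  (isOpen_lt continuous_const continuous_re).inter (isOpen_lt continuous_re continuous_const)

theorem ss_diff (h1 : DlDiff) {q : ℝ} (hq : 0 < q) (n : ℕ) :
    ∀ z : ℂ, n < z.re → z.re < n + 1 + q → DifferentiableAt ℂ (ssT q n) z := by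
  induction n with
  | zero =>
    intro z h2 h3
    have h := ((h1 1 q one_pos hq).1.differentiableAt
      ((ss_open 0 (1 + q)).mem_nhds ⟨by simpa using h2, by simpa using h3⟩)).cexp
    exact h
  | succ n ih =>
    intro z h2 h3
    push_cast at h2 h3
    have h4 := ih (z - 1) (by simp; linarith) (by simp; linarith)
    have h5 : DifferentiableAt ℂ (fun z => ssT q n (z - 1)) z :=
      DifferentiableAt.comp (f := fun z : ℂ => z - 1) z h4 (by fun_prop)
    have h6 : DifferentiableAt ℂ (fun z : ℂ => ee ((z - 1) / q)) z :=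
      DifferentiableAt.comp (f := fun z : ℂ => (z - 1) / q) z (ss_ee_diff _) (by fun_prop)
    exact (h6.const_sub 1).mul h5

theorem ss_succ (h1 : DlDiff) {q : ℝ} (hq : 0 < q) (n : ℕ) :
    ∀ z : ℂ, n + 1 < z.re → z.re < n + 1 + q → ssT q (n + 1) z = ssT q n z := by
  induction n with
  | zero =>
    intro z h2 h3
    have h := (h1 q 1 hq one_pos).2.1 (z - 1) (by simp at h2 ⊢; linarith)
      (by simp at h3 ⊢; linarith)
    rw [dl_comm q 1, dl_comm q 1, ofReal_one, sub_add_cancel] at h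
    exact h.symm
  | succ n ih =>
    intro z h2 h3
    push_cast at h2 h3
    have h := ih (z - 1) (by simp; linarith) (by simp; linarith)
    change (1 - ee ((z - 1) / q)) * ssT q (n + 1) (z - 1) =
      (1 - ee ((z - 1) / q)) * ssT q n (z - 1)
    rw [h]

theorem ss_le (h1 : DlDiff) {q : ℝ} (hq : 0 < q) {n m : ℕ} (h : n ≤ m) {z : ℂ} (h2 : m < z.re)
    (h3 : z.re < n + 1 + q) : ssT q m z = ssT q n z := by
  induction m, h using Nat.le_induction with
  | base => rfl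
  | succ m h ih =>
    push_cast at h2
    have h4 : (n : ℝ) ≤ m := by exact_mod_cast h
    rw [ss_succ h1 hq m z h2 (by linarith), ih (by linarith)]

theorem ss_ceil {x : ℝ} (hx : 0 < x) :
    ((⌈x⌉₊ - 1 : ℕ) : ℝ) < x ∧ x ≤ ((⌈x⌉₊ - 1 : ℕ) : ℝ) + 1 := by
  have h1 : 1 ≤ ⌈x⌉₊ := Nat.ceil_pos.2 hx
  rw [Nat.cast_sub h1, Nat.cast_one]
  exact ⟨by linarith [Nat.ceil_lt_add_one hx.le], by linarith [Nat.le_ceil x]⟩

theorem ss_eq (h1 : DlDiff) {q : ℝ} (hq : 0 < q) {n : ℕ} {z : ℂ} (h2 : n < z.re)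
    (h3 : z.re < n + 1 + q) : ssS q z = ssT q n z := by
  obtain ⟨h4, h5⟩ := ss_ceil ((Nat.cast_nonneg n).trans_lt h2)
  refine ss_le h1 hq ?_ h4 h3
  have h6 : (n : ℝ) < ((⌈z.re⌉₊ - 1 : ℕ) : ℝ) + 1 := h2.trans_le h5
  have h7 : n < ⌈z.re⌉₊ - 1 + 1 := by exact_mod_cast h6
  omega

theorem ss_diffS (h1 : DlDiff) {q : ℝ} (hq : 0 < q) {z : ℂ} (hz : 0 < z.re) :
    DifferentiableAt ℂ (ssS q) z := by
  obtain ⟨h4, h5⟩ := ss_ceil hz
  set n := ⌈z.re⌉₊ - 1
  refine (ss_diff h1 hq n z h4 (by linarith)).congr_of_eventuallyEq ?_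
  filter_upwards [(ss_open n (n + 1 + q)).mem_nhds ⟨h4, by linarith⟩] with w hw
  exact ss_eq h1 hq hw.1 hw.2

theorem ss_zero (h1 : DlDiff) {q : ℝ} (hq : 0 < q) {z : ℂ} (h2 : 0 < z.re) (h3 : z.re < 1 + q) :
    ssS q z = cexp (dl 1 q z) :=
  ss_eq h1 hq (n := 0) (by simpa using h2) (by simpa using h3)

theorem ss_add_one (h1 : DlDiff) {q : ℝ} (hq : 0 < q) {z : ℂ} (hz : 0 < z.re) :
    ssS q (z + 1) = (1 - ee (z / q)) * ssS q z := by
  obtain ⟨h4, h5⟩ := ss_ceil hz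
  rw [ss_eq h1 hq (n := ⌈z.re⌉₊ - 1 + 1) (by push_cast; simp only [add_re, one_re]; linarith)
    (by push_cast; simp only [add_re, one_re]; linarith)]
  change (1 - ee ((z + 1 - 1) / q)) * ssT q (⌈z.re⌉₊ - 1) (z + 1 - 1) = _
  rw [add_sub_cancel_right, ssS]

theorem ss_add_q (h1 : DlDiff) {q : ℝ} (hq : 0 < q) {z : ℂ} (hz : 0 < z.re) :
    ssS q (z + q) = (1 - ee z) * ssS q z := by
  have ho : IsOpen {z : ℂ | 0 < z.re} := isOpen_lt continuous_const continuous_re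
  have d1 : DifferentiableOn ℂ (fun z => ssS q (z + q)) {z : ℂ | 0 < z.re} := fun w hw =>
    (DifferentiableAt.comp (f := fun z : ℂ => z + q) w
      (ss_diffS h1 hq (by have : 0 < w.re := hw; simp; linarith)) (by fun_prop)).differentiableWithinAt
  have d2 : DifferentiableOn ℂ (fun z => (1 - ee z) * ssS q z) {z : ℂ | 0 < z.re} := fun w hw =>
    (((ss_ee_diff w).const_sub 1).mul (ss_diffS h1 hq hw)).differentiableWithinAt
  have hm : ((1 / 2 : ℝ) : ℂ) ∈ {z : ℂ | 0 < z.re} := by simp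
  refine (d1.analyticOnNhd ho).eqOn_of_preconnected_of_eventuallyEq (d2.analyticOnNhd ho)
    (convex_halfSpace_re_gt 0).isPreconnected hm ?_ hz
  filter_upwards [(ss_open 0 1).mem_nhds (show ((1 / 2 : ℝ) : ℂ) ∈ _ from
    ⟨by simp, by rw [ofReal_re]; norm_num⟩)] with w hw
  have h := (h1 1 q one_pos hq).2.1 w hw.1 hw.2
  rw [ofReal_one, div_one] at h
  rw [ss_zero h1 hq (by simp; linarith [hw.1]) (by simpa using hw.2),
    ss_zero h1 hq hw.1 (by linarith [hw.2]), h]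

theorem ss_top0 (h1 : DlDiff) {q : ℝ} (hq : 0 < q) {s η : ℝ} (hs : 0 < s) (hη : 0 < η) :
    ∃ R : ℝ, ∀ z : ℂ, s ≤ z.re → z.re ≤ 1 + q / 2 → R ≤ z.im → ‖ssS q z - 1‖ ≤ η := by
  obtain ⟨R, hR⟩ := (h1 1 q one_pos hq).2.2 s (1 + q / 2) hs (by linarith) (min 1 (η / 2))
    (lt_min one_pos (by linarith))
  refine ⟨R, fun z h2 h3 h4 => ?_⟩
  have h5 := hR z h2 h3 h4
  rw [ss_zero h1 hq (by linarith) (by linarith)]
  refine (Complex.norm_exp_sub_one_le (h5.trans (min_le_left _ _))).trans ?_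
  linarith [min_le_right 1 (η / 2)]

theorem ss_small {q η : ℝ} (hq : 0 < q) (hη : 0 < η) {w : ℂ} (hw : q / η ≤ w.im) :
    ‖ee (w / q)‖ ≤ η := by
  rw [ss_norm_ee, div_ofReal_im, Real.exp_neg, inv_le_comm₀ (Real.exp_pos _) hη]
  have h1 : η⁻¹ ≤ w.im / q := by
    rw [le_div_iff₀ hq, mul_comm, ← div_eq_mul_inv]
    exact hw
  have h2 : 0 < η⁻¹ := inv_pos.2 hη
  have h3 := Real.add_one_le_exp (2 * π * (w.im / q))
  nlinarith [Real.pi_gt_three]

theorem ss_top (h1 : DlDiff) {q : ℝ} (hq : 0 < q) (n : ℕ) : ∀ s η : ℝ, 0 < s → 0 < η →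
    ∃ R : ℝ, ∀ z : ℂ, s ≤ z.re → z.re ≤ n → R ≤ z.im → ‖ssS q z - 1‖ ≤ η := by
  induction n with
  | zero => exact fun s η hs _ => ⟨0, fun z h2 h3 _ => by simp at h3; linarith⟩
  | succ n ih =>
    intro s η hs hη
    set η' := min 1 (η / 3) with hη'
    have k0 : 0 < η' := lt_min one_pos (by linarith)
    have k1 : η' ≤ 1 := min_le_left _ _
    have k2 : η' ≤ η / 3 := min_le_right _ _
    obtain ⟨R1, hR1⟩ := ss_top0 h1 hq hs hη
    obtain ⟨R2, hR2⟩ := ih (q / 2) η' (by linarith) k0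
    refine ⟨max R1 (max R2 (q / η')), fun z h2 h3 h4 => ?_⟩
    rcases le_total z.re (1 + q / 2) with h | h
    · exact hR1 z h2 h ((le_max_left _ _).trans h4)
    push_cast at h3
    have h5 : (z - 1).im = z.im := by simp
    have h6 := hR2 (z - 1) (by simp; linarith) (by simp; linarith)
      (h5 ▸ (le_max_left _ _).trans ((le_max_right _ _).trans h4))
    have h7 := ss_small hq k0 (w := z - 1)
      (h5 ▸ (le_max_right _ _).trans ((le_max_right _ _).trans h4))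
    have h8 := ss_add_one h1 hq (z := z - 1) (by simp; linarith)
    rw [sub_add_cancel] at h8
    have h9 : ‖ssS q (z - 1)‖ ≤ 2 := by
      have := norm_add_le (ssS q (z - 1) - 1) 1
      rw [sub_add_cancel, norm_one] at this
      linarith
    rw [h8, show (1 - ee ((z - 1) / q)) * ssS q (z - 1) - 1 =
      (ssS q (z - 1) - 1) - ee ((z - 1) / q) * ssS q (z - 1) by ring]
    refine (norm_sub_le _ _).trans ?_
    rw [norm_mul]
    have := mul_le_mul h7 h9 (norm_nonneg _) k0.le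
    linarith

theorem sSt (h1 : DlDiff) (h2 : DlRefl) : SSt := by
  intro q hq
  refine ⟨ssS q, fun z hz => (ss_diffS h1 hq hz).differentiableWithinAt,
    fun z => ss_zero h1 hq, fun z => ss_add_one h1 hq, fun z => ss_add_q h1 hq,
    fun z h3 h4 => ?_, fun s t hs η hη => ?_⟩
  · rw [ss_zero h1 hq h3 h4, ss_zero h1 hq (by simp; linarith) (by simp; linarith),
      ← Complex.exp_add, h2 q hq z h3 h4]
  · obtain ⟨R, hR⟩ := ss_top h1 hq ⌈t⌉₊ s η hs hη
    exact ⟨R, fun z h3 h4 h5 => hR z h3 (h4.trans (Nat.le_ceil t)) h5⟩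

end Pool.Agent.RM
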