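import Pool.Agent.Lib.MP_ca56d1_nt.B.Bas
import Pool.Agent.Lib.MP_ca56d1_nt.C.Fin

/-! The values `Fm` are values of the product `EE`. -/

namespace Pool.Agent.RM

open Complex

variable {K : Type*} [Field K] [CharZero K] {σ σ' : K →+* ℝ}

/-- The points of a coset in the parallelogram spanned by `w₁` and `ε w₁`. -/
theorem val_set {ε : K} {L : Submodule ℤ K} {w₁ w₂ : K} {a b : ℤ} {c : ℕ} [NeZero c] {d : ℤ}
    (hε : Eps σ σ' ε) (hB : Bas σ σ' ε L w₁ w₂ a b c d) {u v : ℚ} {n : ℤ}
    (hn : (n : ℚ) = c * u - (d - 1) * v) (hv0 : 0 ≤ v) (hv1 : v < 1) :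
    coset L (u * w₁ + v * w₂) ∩ par w₁ (ε * w₁) =
      (fun i : ℕ => (((((n : ZMod c) - 1 - (d : ZMod c) * i).val + 1 - v) / c : ℚ) : K) * w₁ +
        (((i + v) / c : ℚ) : K) * (ε * w₁)) '' (Finset.range c : Set ℕ) := by
  have hc : (0 : ℚ) < c := by exact_mod_cast NeZero.pos c
  have hcK : (c : K) ≠ 0 := by exact_mod_cast NeZero.ne c
  have hw : w₁ ≠ 0 := fun h => by simpa [h] using hB.pos
  have hdt := dt_eps_ne hε hw
  have hnK : (n : K) = c * u - (d - 1) * v := by exact_mod_cast congrArg ((↑) : ℚ → K) hn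
  ext y
  constructor
  · rintro ⟨hy, A, B, h1, h2, h3, h4, rfl⟩
    obtain ⟨m, k, hmk⟩ := (hB.mem _).1 hy
    have hAB := coord_inj hdt (a := A) (b := B) (a' := (n - v + c * m - d * k) / c)
      (b' := (k + v) / c) (by
        push_cast
        rw [hB.e₁] at hmk ⊢
        field_simp
        linear_combination (c : K) * hmk - w₁ * hnK)
    obtain ⟨rfl, rfl⟩ := hAB
    rw [lt_div_iff₀ hc] at h1
    rw [div_le_iff₀ hc] at h2
    rw [le_div_iff₀ hc] at h3
    rw [div_lt_iff₀ hc] at h4
    have k0 : 0 ≤ k := by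
      have : (-1 : ℚ) < k := by linarith
      have : -1 < k := by exact_mod_cast this
      omega
    have k1 : k < c := by
      have : (k : ℚ) < c := by linarith
      exact_mod_cast this
    have j0 : 0 ≤ n - 1 + c * m - d * k := by
      have : (0 : ℚ) < n + c * m - d * k := by linarith
      have : 0 < n + c * m - d * k := by exact_mod_cast this
      omega
    have j1 : n - 1 + c * m - d * k < c := by
      have : (n : ℚ) - 1 + c * m - d * k < c := by linarith
      exact_mod_cast this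
    obtain ⟨i, rfl⟩ := Int.eq_ofNat_of_zero_le k0
    obtain ⟨j, hj⟩ := Int.eq_ofNat_of_zero_le j0
    have hjc : j < c := by exact_mod_cast hj ▸ j1
    have e : (n : ZMod c) - 1 - (d : ZMod c) * i = j := by
      have := congrArg ((↑) : ℤ → ZMod c) hj
      push_cast at this
      rw [ZMod.natCast_self] at this
      linear_combination this
    have hjq : (n : ℚ) - 1 + c * m - d * i = j := by exact_mod_cast hj
    refine ⟨i, by simpa using k1, ?_⟩
    simp only [e, ZMod.val_cast_of_lt hjc, Int.cast_natCast]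
    congr 3
    rw [← hjq]; ring
  · rintro ⟨i, hi, rfl⟩
    have hi' : (i : ℚ) + 1 ≤ c := by exact_mod_cast Finset.mem_range.1 hi
    set j := ((n : ZMod c) - 1 - (d : ZMod c) * i).val with hj
    have hjc : (j : ℚ) + 1 ≤ c := by exact_mod_cast ZMod.val_lt _
    obtain ⟨m, hm⟩ : (c : ℤ) ∣ j - (n - 1 - d * i) := by
      rw [← ZMod.intCast_zmod_eq_zero_iff_dvd]
      push_cast
      rw [hj, ZMod.natCast_zmod_val, sub_self]
    have hmK : (j : K) - (n - 1 - d * i) = c * m := by
      exact_mod_cast congrArg ((↑) : ℤ → K) hm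
    refine ⟨(hB.mem _).2 ⟨m, i, ?_⟩, _, _, ?_, ?_, ?_, ?_, rfl⟩
    · push_cast
      rw [hB.e₁]
      field_simp
      linear_combination w₁ * hmK + w₁ * hnK
    · exact div_pos (by have : (0 : ℚ) ≤ j := j.cast_nonneg; linarith) hc
    · rw [div_le_one hc]; linarith
    · positivity
    · rw [div_lt_one hc]; linarith

theorem valSt (_hK : RQ σ σ') (hA : PartA σ σ') : ValSt σ σ' := by
  intro ε L w₁ w₂ a b c _ d S hε hL hB hS u v n hn hv0 hv1 hx
  have hc : (0 : ℚ) < c := by exact_mod_cast NeZero.pos c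
  have hcC := cast_ne (c := c)
  have hw : w₁ ≠ 0 := fun h => by simpa [h] using hB.pos
  have hdt := dt_eps_ne hε hw
  have hw1 : w₁ ∈ L := (hB.mem _).2 ⟨1, 0, by simp⟩
  have hp : w₁ ∈ per (coset L (u * w₁ + v * w₂)) := fun y => by
    change y + w₁ - _ ∈ L ↔ y - _ ∈ L
    rw [add_sub_right_comm]
    exact L.add_mem_iff_left hw1
  have hset := val_set hε hB hn hv0 hv1
  rw [Fm, ← hA.basis_pos ε _ hε (coset_lat hL _) (coset_stab hL hx) w₁ hp hB.pos hB.pos', LF,
    hset, finsum_mem_image, finsum_mem_coe_finset, Complex.exp_sum, EE]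
  · refine Finset.prod_congr rfl fun i hi => ?_
    have hb := par_bounds (σ := σ) hB.pos (q := ε * w₁)
      (by rw [map_mul]; exact mul_pos hε.pos hB.pos) (hset.ge ⟨i, hi, rfl⟩).2
    simp only [be, Prod.fst_add, Prod.snd_add, ← sub_eq_add_neg] at hb ⊢
    generalize ((n : ZMod c) - 1 - (d : ZMod c) * i).val = j at hb ⊢
    have e : σ ((((j + 1 - v) / c : ℚ) : K) * w₁ + (((i + v) / c : ℚ) : K) * (ε * w₁)) =
        σ w₁ * ((j + 1 - v) / c + (i + v) / c * σ ε) := by
      simp only [map_add, map_mul, map_ratCast]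
      push_cast
      ring
    have e' : ((v * (σ ε - 1) / c : ℝ) : ℂ) + 1 / c + (i * (σ ε : ℝ) + j) / c =
        (((j + 1 - v) / c + (i + v) / c * σ ε : ℝ) : ℂ) := by
      push_cast
      ring
    rw [e] at hb ⊢
    rw [map_mul] at hb ⊢
    have hw0 := hB.pos
    rw [e', hS.eq _ (by rw [ofReal_re]; exact (mul_pos_iff_of_pos_left hw0).1 hb.1) (by
      rw [ofReal_re]; nlinarith [hb.2]), ← dl_mul hw0 1, mul_one, mul_comm (σ ε), ofReal_mul]
  · intro i _ i' _ h
    have := (coord_inj hdt h).2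
    rw [div_left_inj' hc.ne', add_left_inj] at this
    exact_mod_cast this

end Pool.Agent.RM
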