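import Pool.Agent.Lib.MP_ca56d1_nt.B.Strip
import Pool.Agent.Lib.MP_ca56d1_nt.B.DlDiff
import Pool.Agent.Lib.MP_ca56d1_nt.B.DlRefl
import Pool.Agent.Lib.MP_ca56d1_nt.B.SS
import Pool.Agent.Lib.MP_ca56d1_nt.B.G
import Pool.Agent.Lib.MP_ca56d1_nt.B.Eq
import Pool.Agent.Lib.MP_ca56d1_nt.B.E
import Pool.Agent.Lib.MP_ca56d1_nt.B.BInt
import Pool.Agent.Lib.MP_ca56d1_nt.B.BShift
import Pool.Agent.Lib.MP_ca56d1_nt.B.Per
import Pool.Agent.Lib.MP_ca56d1_nt.B.Beta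
import Pool.Agent.Lib.MP_ca56d1_nt.B.Loc
import Pool.Agent.Lib.MP_ca56d1_nt.B.Val
import Pool.Agent.Lib.MP_ca56d1_nt.B.PB
import Pool.Agent.Lib.MP_ca56d1_nt.B.BasEx
import Pool.Agent.Lib.MP_ca56d1_nt.B.Fin
import Pool.Agent.Lib.MP_ca56d1_nt.RM.Shint

/-! The finite pentagon identity, unconditionally. -/

namespace Pool.Agent.RM

theorem hBeta : BetaSt := betaSt bIntSt (bShiftSt stripSt bIntSt) perSt

theorem hLoc : LocSt := locSt stripSt bIntSt hBeta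

theorem hS : SSt := sSt (dlDiff stripSt) (dlRefl stripSt (dlDiff stripSt))

variable {K : Type*} [Field K] [CharZero K] {σ σ' : K →+* ℝ}

theorem partB (hK : RQ σ σ') : PartBP σ σ' :=
  partBP hK (pbSt hK hS (eSt gSt eqSt) hLoc (valSt hK (partA hK))) (basExSt hK)

end Pool.Agent.RM
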