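import Pool.Agent.Lib.MP_ca56d1_nt.B.St

/-! Elementary facts on `ee`, `BB`, `al`, `be`. -/

namespace Pool.Agent.RM

open Complex
open scoped Real

theorem ee_add (x y : ℂ) : ee (x + y) = ee x * ee y := by
  simp only [ee, mul_add, Complex.exp_add]

theorem ee_zero : ee 0 = 1 := by simp [ee]

theorem ee_ne (x : ℂ) : ee x ≠ 0 := Complex.exp_ne_zero _

theorem ee_neg (x : ℂ) : ee (-x) = (ee x)⁻¹ := by simp only [ee, mul_neg, Complex.exp_neg]

theorem ee_int (n : ℤ) : ee n = 1 := by
  rw [ee, mul_comm]; exact Complex.exp_int_mul_two_pi_mul_I n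

theorem ee_eq_one {x : ℂ} : ee x = 1 ↔ ∃ n : ℤ, x = n := by
  rw [ee, Complex.exp_eq_one_iff]
  refine exists_congr fun n => ?_
  rw [mul_comm]
  exact mul_left_inj' Complex.two_pi_I_ne_zero

theorem norm_ee (x : ℂ) : ‖ee x‖ = Real.exp (-2 * π * x.im) := by
  rw [ee, Complex.norm_exp]; congr 1; simp

theorem ee_diff : Differentiable ℂ ee := by unfold ee; fun_prop

variable {c : ℕ} [NeZero c]

theorem cast_ne : (c : ℂ) ≠ 0 := by exact_mod_cast NeZero.ne c

theorem cast_pos : (0 : ℝ) < c := by exact_mod_cast NeZero.pos c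

theorem psi_int (j : ℤ) : ZMod.stdAddChar (j : ZMod c) = ee (j / c) := by
  rw [ZMod.stdAddChar_coe, ee, mul_div_assoc]

theorem psi_val (n : ZMod c) : ZMod.stdAddChar n = ee ((n.val : ℕ) / c) := by
  have := psi_int (c := c) (n.val : ℤ)
  simpa using this

theorem norm_psi (n : ZMod c) : ‖ZMod.stdAddChar n‖ = 1 := by
  rw [psi_val, norm_ee]
  have : (((n.val : ℕ) : ℂ) / c).im = 0 := by
    rw [← Complex.ofReal_natCast, ← Complex.ofReal_natCast, ← Complex.ofReal_div, ofReal_im]
  rw [this, mul_zero, Real.exp_zero]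

variable {ε : ℝ} {a d : ℤ}

theorem BB_comm (x y : AA c) : BB ε a x y = BB ε a y x := by
  simp only [BB]; congr 2 <;> ring

theorem BB_add_right (x y z : AA c) : BB ε a x (y + z) = BB ε a x y * BB ε a x z := by
  simp only [BB, Prod.fst_add, Prod.snd_add, mul_add, add_div, ee_add, AddChar.map_add_eq_mul]
  ring

theorem BB_add_left (x y z : AA c) : BB ε a (x + y) z = BB ε a x z * BB ε a y z := by
  rw [BB_comm, BB_add_right, BB_comm z, BB_comm z]

theorem BB_zero_right (x : AA c) : BB ε a x 0 = 1 := by simp [BB, ee_zero]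

theorem BB_zero_left (x : AA c) : BB ε a 0 x = 1 := by simp [BB, ee_zero]

theorem BB_ne (x y : AA c) : BB ε a x y ≠ 0 := by
  refine mul_ne_zero (ee_ne _) fun h => ?_
  have := norm_psi (-(a : ZMod c) * x.1 * y.1)
  rw [h, norm_zero] at this
  exact zero_ne_one this

theorem BB_neg_right (x y : AA c) : BB ε a x (-y) = (BB ε a x y)⁻¹ := by
  refine eq_inv_of_mul_eq_one_left ?_
  rw [← BB_add_right, neg_add_cancel, BB_zero_right]

theorem BB_neg_left (x y : AA c) : BB ε a (-x) y = (BB ε a x y)⁻¹ := by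
  rw [BB_comm, BB_neg_right, BB_comm]

theorem BB_sub_right (x y z : AA c) : BB ε a x (y - z) = BB ε a x y / BB ε a x z := by
  rw [sub_eq_add_neg, BB_add_right, BB_neg_right, div_eq_mul_inv]

theorem BB_sub_left (x y z : AA c) : BB ε a (x - y) z = BB ε a x z / BB ε a y z := by
  rw [sub_eq_add_neg, BB_add_left, BB_neg_left, div_eq_mul_inv]

theorem norm_BB (x y : AA c) :
    ‖BB ε a x y‖ = Real.exp (-2 * π * c * (x.2.re * y.2.im + x.2.im * y.2.re) / ε) := by
  rw [BB, norm_mul, norm_psi, mul_one, norm_ee, Complex.div_ofReal_im]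
  congr 1
  simp only [mul_im, mul_re, natCast_re, natCast_im]
  ring

theorem BB_diff (n : ZMod c) (y : AA c) : Differentiable ℂ fun z => BB ε a (n, z) y := by
  simp only [BB]
  exact (ee_diff.comp (by fun_prop)).mul_const _

theorem Par.pos (h : Par c ε a d) : 0 < ε := one_pos.trans h.one_lt

theorem Par.ne (h : Par c ε a d) : (ε : ℂ) ≠ 0 := by exact_mod_cast h.pos.ne'

theorem BB_al (h : Par c ε a d) (x : AA c) :
    BB ε a x (al c ε d) = ee x.2 * ZMod.stdAddChar x.1 := by
  have h1 := h.ne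
  have h2 := cast_ne (c := c)
  simp only [BB, al]
  congr 2
  · field_simp
  · linear_combination x.1 * h.det

theorem BB_be (x : AA c) :
    BB ε a x (be c) = ee (x.2 / ε) * ZMod.stdAddChar ((a : ZMod c) * x.1) := by
  have h2 := cast_ne (c := c)
  simp only [BB, be]
  congr 2
  · field_simp
  · ring

theorem BB_be_al (h : Par c ε a d) : BB ε a (be c) (al c ε d) = 1 := by
  have := psi_int (c := c) (-1)
  rw [BB_al h]
  simp only [be]
  push_cast at this
  rw [this, ← ee_add, ← add_div, add_neg_cancel, zero_div, ee_zero]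

theorem BB_al_be (h : Par c ε a d) : BB ε a (al c ε d) (be c) = 1 := by
  rw [BB_comm, BB_be_al h]

theorem BB_de_de (h : Par c ε a d) :
    BB ε a (al c ε d - be c) (al c ε d - be c) = 1 := by
  have h1 := h.ne
  have h2 := cast_ne (c := c)
  have h3 : (ε : ℂ) + (ε : ℂ)⁻¹ = a + d := by exact_mod_cast congrArg ((↑) : ℝ → ℂ) h.tr
  rw [BB_sub_left, BB_sub_right, BB_sub_right, BB_al_be h, BB_be_al h, div_one, one_div,
    div_inv_eq_mul, BB_al h, BB_be]
  have e1 := psi_int (c := c) (-d)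
  have e2 := psi_int (c := c) (-a)
  push_cast at e1 e2
  simp only [al, be, mul_neg, mul_one]
  rw [e1, e2, ← ee_add, ← ee_add, ← ee_add]
  have : (ε : ℂ) / c + -(d : ℂ) / c + (1 / c / ε + -(a : ℂ) / c) = 0 := by
    have : (ε : ℂ) / c + -(d : ℂ) / c + (1 / c / ε + -(a : ℂ) / c) =
        ((ε : ℂ) + (ε : ℂ)⁻¹ - (a + d)) / c := by field_simp; ring
    rw [this, h3, sub_self, zero_div]
  rw [this, ee_zero]

omit [NeZero c] in
theorem al_re : (al c ε d).2.re = ε / c := by
  simp only [al]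
  rw [← Complex.ofReal_natCast, ← Complex.ofReal_div, ofReal_re]

omit [NeZero c] in
theorem al_im : (al c ε d).2.im = 0 := by
  simp only [al]
  rw [← Complex.ofReal_natCast, ← Complex.ofReal_div, ofReal_im]

omit [NeZero c] in
theorem be_re : (be c).2.re = 1 / c := by
  simp only [be]
  rw [← Complex.ofReal_natCast, ← Complex.ofReal_one, ← Complex.ofReal_div, ofReal_re]

omit [NeZero c] in
theorem be_im : (be c).2.im = 0 := by
  simp only [be]
  rw [← Complex.ofReal_natCast, ← Complex.ofReal_one, ← Complex.ofReal_div, ofReal_im]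

/-- Points orthogonal to `al - be` are real and discrete. -/
theorem de_spec (h : Par c ε a d) {x : AA c} (hx : BB ε a x (al c ε d - be c) = 1) :
    ∃ j : ℤ, x.2 = ((j * (ε / ((ε - 1) * c)) : ℝ) : ℂ) := by
  have h1 := h.ne
  have h2 := cast_ne (c := c)
  have h3 : (ε : ℂ) - 1 ≠ 0 := by exact_mod_cast (sub_pos.2 h.one_lt).ne'
  rw [BB_sub_right, BB_al h, BB_be, psi_val, psi_val, ← ee_add, ← ee_add, div_eq_mul_inv,
    ← ee_neg, ← ee_add, ee_eq_one] at hx
  obtain ⟨n, hn⟩ := hx
  refine ⟨n * c - x.1.val + ((a : ZMod c) * x.1).val, ?_⟩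
  push_cast
  field_simp
  field_simp at hn
  linear_combination hn

/-- Invariance of a sum over vertical lines under a shift. -/
theorem sum_shift (f : AA c → ℂ) (v : AA c) (z : ℂ) :
    ∑ n : ZMod c, f ((n, z) + v) = ∑ n : ZMod c, f (n, z + v.2) :=
  Fintype.sum_equiv (Equiv.addRight v.1) _ _ fun _ => rfl

end Pool.Agent.RM
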