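import Pool.Agent.Lib.MP_ca56d1_nt.B.Bas

/-! The beta integral from its difference equations. -/

namespace Pool.Agent.RM

open Complex Filter Topology MeasureTheory
open scoped Real

variable {c : ℕ} [NeZero c] {ε : ℝ} {a d : ℤ} {E J G : AA c → ℂ}

theorem beta_zero (h1 : BIntSt) (h2 : BShiftSt) (h3 : PerSt) (hP : Par c ε a d)
    (h : IsE ε a d E J G) (m : ZMod c) {t s : ℝ} (ht : t < 1 / c) (hs : -t < s) (hs' : s < 0)
    (w : AA c) (hw : 0 < w.2.re) (hw' : t + w.2.re < (1 + ε) / c) :
    lint s (bint ε a d E J (m, t) w) = E (m, t) * E w * J (be c) * J ((m, (t : ℂ)) + w) := by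
  have hc := cast_pos (c := c)
  have hε := hP.pos
  have ht0 : 0 < t := by linarith
  have h1c : 1 / (c : ℝ) < ε / c := by gcongr; exact hP.one_lt
  have hsum : (1 + ε) / c = 1 / c + ε / c := add_div _ _ _
  set u : AA c := (m, (t : ℂ)) with hu
  have hur : ∀ x : AA c, (u + x).2.re = t + x.2.re := fun x => by simp [hu]
  obtain ⟨-, hd⟩ := h1 c ε a d E J G hP h m t s hs hs'
  have hA := h2 c ε a d E J G hP h m t s hs hs' (al c ε d) (Or.inl rfl)
  have hB := h2 c ε a d E J G hP h m t s hs hs' (be c) (Or.inr rfl)
  have eal : al c ε d = (-(d : ZMod c), ((ε / c : ℝ) : ℂ)) := by simp [al]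
  have ebe : be c = (-1, ((1 / c : ℝ) : ℂ)) := by simp [be]
  have key := h3 c (fun x => lint s (bint ε a d E J u x) * E (u + x) * J x) ((1 + ε) / c - t)
    (ε / c) (1 / c) (-(d : ZMod c)) (by positivity) (by linarith) (by positivity) (by linarith)
    (by
      have : ε / c / (1 / c) = ε := by field_simp
      rw [this]; exact hP.irr)
    (fun n => by
      refine DifferentiableOn.mul (DifferentiableOn.mul ((hd n).mono fun z hz => ⟨hz.1, ?_⟩) ?_)
        ((h.dJ n).mono fun z hz => ?_)
      · linarith [hz.2]
      · refine DifferentiableOn.comp (g := fun z => E (m + n, z)) (f := fun z : ℂ => (t : ℂ) + z)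
          (h.dE (m + n)) (by fun_prop) fun z hz => ?_
        have := hz.1
        simp only [Set.mem_ofPred_eq, add_re, ofReal_re]
        linarith
      · have := hz.2
        simp only [Set.mem_ofPred_eq]
        linarith)
    (fun x hx hx' => by
      rw [← eal, ← add_assoc, h.Ea (u + x) (by rw [hur]; linarith), h.Ja x (by linarith),
        BB_add_left]
      have := hA.1 x hx (by rw [Prod.snd_add, add_re, al_re]; linarith)
      linear_combination E (u + x) * J (x + al c ε d) * this)
    (fun x hx hx' => by
      rw [← ebe, ← add_assoc, h.Eb (u + x) (by rw [hur]; linarith), h.Jb x (by linarith),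
        BB_add_left]
      have := hB.1 x hx (by rw [Prod.snd_add, add_re, be_re]; linarith)
      linear_combination E (u + x) * J (x + be c) * this)
    w (be c) hw (by linarith) (by rw [be_re]; positivity) (by rw [be_re]; linarith)
  have k2 := hB.2 (by rw [be_re]; linarith)
  have k3 : (c : ℂ) * (be c).2 = 1 := by
    have := cast_ne (c := c)
    simp only [be]; field_simp
  have k4 := h.Eb u (by simpa [hu] using ht0)
  have k5 := h.mul w hw (by linarith)
  have k6 := h.mul (u + w) (by rw [hur]; linarith) (by rw [hur]; exact hw')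
  rw [k4] at key
  rw [k3] at k2
  linear_combination E w * J (u + w) * key + E u * J (be c) * E w * J (u + w) * k2
    - lint s (bint ε a d E J u w) * k6 - lint s (bint ε a d E J u w) * E (u + w) * J (u + w) * k5

theorem betaSt (h1 : BIntSt) (h2 : BShiftSt) (h3 : PerSt) : BetaSt := by
  intro c _ ε a d E J G hP h k
  have hc := cast_pos (c := c)
  induction k with
  | zero =>
    intro m t s ht hs hs' w hw hw'
    simp only [Nat.cast_zero, zero_div, add_zero] at hw' ⊢
    exact beta_zero h1 h2 h3 hP h m ht hs hs' w hw hw'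
  | succ k ih =>
    intro m t s ht hs hs' w hw hw'
    have hk : (0 : ℝ) ≤ k / c := by positivity
    have h1c : (0 : ℝ) < 1 / c := by positivity
    have hsum : (1 + ε) / c = 1 / c + ε / c := add_div _ _ _
    have e0 : t + ((k + 1 : ℕ) : ℝ) / c = t + k / c + 1 / c := by push_cast; ring
    set u : AA c := (m + 1, ((t + k / c : ℝ) : ℂ)) with hu
    have eu : ((m, ((t + ((k + 1 : ℕ) : ℝ) / c : ℝ) : ℂ)) : AA c) = u + be c := by
      rw [e0]
      simp [hu, be]
    rw [e0] at hw'
    have hwb : (w + be c).2.re = w.2.re + 1 / c := by rw [Prod.snd_add, add_re, be_re]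
    have i1 := ih (m + 1) t s ht hs hs' w hw (by linarith)
    have i2 := ih (m + 1) t s ht hs hs' (w + be c) (by rw [hwb]; linarith) (by rw [hwb]; linarith)
    obtain ⟨hi, -⟩ := h1 c ε a d E J G hP h (m + 1) (t + k / c) s (by linarith) hs'
    have j1 := hi w hw (by linarith)
    have j2 := hi (w + be c) (by rw [hwb]; linarith) (by rw [hwb]; linarith)
    rw [← hu] at i1 i2 j1 j2
    have pt : ∀ (n : ZMod c) (y : ℝ), bint ε a d E J (u + be c) w (n, s + y * I) =
        bint ε a d E J u w (n, s + y * I) -
          BB ε a u (be c) * bint ε a d E J u (w + be c) (n, s + y * I) := fun n y => by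
      simp only [bint]
      rw [← add_assoc, h.Eb _ (by simp [hu]; linarith), BB_add_left, BB_add_right]
      ring
    have e1 : lint s (bint ε a d E J (u + be c) w) = lint s (bint ε a d E J u w) -
        BB ε a u (be c) * lint s (bint ε a d E J u (w + be c)) := by
      simp only [lint, pt, Finset.sum_sub_distrib, ← Finset.mul_sum]
      rw [integral_sub (integrable_finsetSum _ fun n _ => j1 n)
        ((integrable_finsetSum _ fun n _ => j2 n).const_mul _), integral_const_mul]
      ring
    rw [eu, e1, i1, i2, h.Eb w hw, h.Eb u (by simp [hu]; linarith),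
      h.Jb (u + w) (by simp [hu]; linarith), BB_add_left,
      show u + be c + w = u + w + be c by abel, show u + (w + be c) = u + w + be c by abel]
    ring

end Pool.Agent.RM
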