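import Pool.Agent.Lib.MP_ca56d1_nt.B.Bas

/-! Index lemmas for the product `EE`, for an arbitrary function `S` and multiplier `m`. -/

namespace Pool.Agent.RM

open Complex
open scoped Real

variable {c : ℕ} [NeZero c] {ε : ℝ} {a d : ℤ}

theorem idx_val_pred (y : ZMod c) (hy : y ≠ 0) : (y - 1).val + 1 = y.val := by
  have h0 : y.val ≠ 0 := by rwa [Ne, ZMod.val_eq_zero]
  obtain ⟨k, hk⟩ := Nat.exists_eq_succ_of_ne_zero h0
  have hlt := ZMod.val_lt y
  have : y - 1 = (k : ZMod c) := by
    rw [← ZMod.natCast_zmod_val y, hk]; push_cast; ring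
  rw [this, ZMod.val_cast_of_lt (by omega), hk]

theorem idx_val_refl (y : ZMod c) : (-1 - y).val + y.val + 1 = c := by
  have hlt := ZMod.val_lt y
  obtain ⟨k, hk⟩ := Nat.exists_eq_add_of_lt hlt
  have h : ((y.val + k + 1 : ℕ) : ZMod c) = 0 := by rw [← hk]; exact ZMod.natCast_self c
  have : -1 - y = (k : ZMod c) := by
    push_cast at h
    rw [ZMod.natCast_zmod_val] at h
    linear_combination -h
  rw [this, ZMod.val_cast_of_lt (by omega)]
  omega

omit [NeZero c] in
/-- The offset of the `i`-th point. -/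
theorem idx_real (i j : ℕ) : ((i : ℂ) * ε + (j : ℕ)) / c = (((i * ε + j) / c : ℝ) : ℂ) := by
  push_cast; ring

omit [NeZero c] in
theorem idx_nonneg (hε : 0 ≤ ε) (i j : ℕ) : (0 : ℝ) ≤ (i * ε + j) / c := by positivity

theorem idx_le (hε : 0 ≤ ε) {i j : ℕ} (hi : i < c) (hj : j < c) :
    ((i * ε + j) / c : ℝ) + (1 + ε) / c ≤ 1 + ε := by
  have h0 := cast_pos (c := c)
  have h1 : (i : ℝ) + 1 ≤ c := by exact_mod_cast hi
  have h2 : (j : ℝ) + 1 ≤ c := by exact_mod_cast hj
  rw [← add_div, div_le_iff₀ h0]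
  nlinarith [mul_le_mul_of_nonneg_right h1 hε]

/-- The shift by `be`. -/
theorem EE_add_be (h : Par c ε a d) (S m : ℂ → ℂ) (x : AA c)
    (hS : ∀ r : ℝ, 0 ≤ r → S (x.2 + r + 1) = m (ee ((x.2 + r) / ε)) * S (x.2 + r)) :
    EE ε d S (x + be c) = m (BB ε a x (be c)) * EE ε d S x := by
  have h1 := h.ne
  have h2 := cast_ne (c := c)
  have hmem : ((a : ZMod c) * x.1).val ∈ Finset.range c := Finset.mem_range.2 (ZMod.val_lt _)
  simp only [EE]
  rw [← Finset.mul_prod_erase _ _ hmem, ← Finset.mul_prod_erase _ _ hmem, ← mul_assoc]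
  congr 1
  · have e0 : x.1 - (d : ZMod c) * (((a : ZMod c) * x.1).val : ℕ) = 0 := by
      rw [ZMod.natCast_zmod_val]; linear_combination (-x.1) * h.det
    have e1 : (x + be c).1 - (d : ZMod c) * (((a : ZMod c) * x.1).val : ℕ) = -1 - 0 := by
      simp only [be, Prod.fst_add]; linear_combination e0
    have e2 := idx_val_refl (0 : ZMod c)
    rw [ZMod.val_zero, add_zero] at e2
    have e3 : (((-1 - 0 : ZMod c).val : ℕ) : ℂ) = c - 1 := by
      have : (((-1 - 0 : ZMod c).val + 1 : ℕ) : ℂ) = c := by rw [e2]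
      push_cast at this ⊢
      linear_combination this
    have e4 := hS _ (idx_nonneg (c := c) h.pos.le ((a : ZMod c) * x.1).val 0)
    rw [← idx_real] at e4
    rw [e0, e1, e3, ZMod.val_zero, BB_be, psi_val, ← ee_add]
    convert e4 using 2
    · simp only [be, Prod.snd_add]; push_cast; field_simp; ring
    · congr 2; push_cast; field_simp; ring
  · refine Finset.prod_congr rfl fun i hi => ?_
    obtain ⟨hi0, hi⟩ := Finset.mem_erase.1 hi
    have hy : x.1 - (d : ZMod c) * i ≠ 0 := by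
      intro hy
      apply hi0
      have : (a : ZMod c) * x.1 = i := by linear_combination (a : ZMod c) * hy + i * h.det
      rw [this, ZMod.val_cast_of_lt (Finset.mem_range.1 hi)]
    have e1 : (x + be c).1 - (d : ZMod c) * i = x.1 - (d : ZMod c) * i - 1 := by
      simp only [be, Prod.fst_add]; ring
    rw [e1, ← idx_val_pred _ hy]
    congr 1
    simp only [be, Prod.snd_add]; push_cast; ring

/-- The shift by `al`. -/
theorem EE_add_al (h : Par c ε a d) (S m : ℂ → ℂ) (x : AA c)
    (hS : ∀ r : ℝ, 0 ≤ r → S (x.2 + r + ε) = m (ee (x.2 + r)) * S (x.2 + r)) :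
    EE ε d S (x + al c ε d) = m (BB ε a x (al c ε d)) * EE ε d S x := by
  have h2 := cast_ne (c := c)
  obtain ⟨F, hF⟩ : ∃ F : ℕ → ℂ, ∀ i : ℕ,
      F i = S (x.2 + (i * ε + ((x.1 - (d : ZMod c) * i).val : ℕ)) / c) := ⟨_, fun _ => rfl⟩
  have e1 : EE ε d S x = ∏ i ∈ Finset.range c, F i := Finset.prod_congr rfl fun i _ => (hF i).symm
  have e2 : EE ε d S (x + al c ε d) = ∏ i ∈ Finset.range c, F (i + 1) := by
    refine Finset.prod_congr rfl fun i _ => ?_
    have : (x + al c ε d).1 - (d : ZMod c) * i = x.1 - (d : ZMod c) * (i + 1 : ℕ) := by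
      simp only [al, Prod.fst_add]; push_cast; ring
    rw [hF, this]
    congr 1
    simp only [al, Prod.snd_add]; push_cast; ring
  have e3 : F c = m (BB ε a x (al c ε d)) * F 0 := by
    have e4 := hS _ (idx_nonneg (c := c) h.pos.le 0 x.1.val)
    rw [← idx_real] at e4
    rw [hF, hF, BB_al h, psi_val, ← ee_add, ZMod.natCast_self, Nat.cast_zero (R := ZMod c),
      mul_zero, sub_zero]
    convert e4 using 2
    · push_cast; field_simp; ring
    · congr 2; push_cast; ring
  obtain ⟨k, hk⟩ := Nat.exists_eq_succ_of_ne_zero (NeZero.ne c)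
  have e5 : ∏ i ∈ Finset.range c, F i = (∏ i ∈ Finset.range k, F (i + 1)) * F 0 := by
    rw [← Finset.prod_range_succ']; congr 2
  have e6 : ∏ i ∈ Finset.range c, F (i + 1) = (∏ i ∈ Finset.range k, F (i + 1)) * F c := by
    have : F c = F (k + 1) := by congr 1
    rw [this, ← Finset.prod_range_succ fun i => F (i + 1)]; congr 2
  rw [e1, e2, e5, e6, e3]; ring

/-- The reflection. -/
theorem EE_refl (ε : ℝ) (d : ℤ) (S : ℂ → ℂ) (x : AA c) :
    EE ε d S (al c ε d + be c - x) = EE ε d (fun z => S (1 + ε - z)) x := by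
  have h2 := cast_ne (c := c)
  simp only [EE]
  rw [← Finset.prod_range_reflect]
  refine Finset.prod_congr rfl fun i hi => ?_
  obtain ⟨k, hk⟩ := Nat.exists_eq_add_of_lt (Finset.mem_range.1 hi)
  have e0 : c - 1 - i = k := by omega
  have h0 : ((i + k + 1 : ℕ) : ZMod c) = 0 := by rw [← hk]; exact ZMod.natCast_self c
  have e1 : (al c ε d + be c - x).1 - (d : ZMod c) * k = -1 - (x.1 - (d : ZMod c) * i) := by
    simp only [al, be, Prod.fst_add, Prod.fst_sub]
    push_cast at h0
    linear_combination (-(d : ZMod c)) * h0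
  have e2 := idx_val_refl (x.1 - (d : ZMod c) * (i : ZMod c))
  have e3 : (((-1 - (x.1 - (d : ZMod c) * (i : ZMod c))).val : ℕ) : ℂ) =
      (c : ℂ) - 1 - (((x.1 - (d : ZMod c) * (i : ZMod c)).val : ℕ) : ℂ) := by
    have := congrArg (Nat.cast : ℕ → ℂ) e2
    push_cast at this
    linear_combination this
  have e4 : (k : ℂ) = c - 1 - i := by
    have := congrArg (Nat.cast : ℕ → ℂ) hk
    push_cast at this
    linear_combination -this
  rw [e0, e1, e3, e4]
  congr 1
  simp only [al, be, Prod.snd_add, Prod.snd_sub]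
  field_simp
  ring

end Pool.Agent.RM
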