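import Pool.Agent.Lib.MP_ca56d1_nt.B.Psi
import Pool.Agent.Lib.MP_ca56d1_nt.B.Fin
import Pool.Agent.Lib.MP_ca56d1_nt.C.Fin

/-! The dictionary between the finite group of a lattice and the points orthogonal to `al - be`. -/

set_option linter.unusedSectionVars false

namespace Pool.Agent.RM.PBAux

open Complex

variable {K : Type*} [Field K] [CharZero K] {σ σ' : K →+* ℝ} {ε : K} {L : Submodule ℤ K}
  {w₁ w₂ : K} {a b d : ℤ} {c : ℕ} [NeZero c]

/-- The point `p` corresponds to `x`, whose second coordinate is `v`. -/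
def Rep (e : ℝ) (w₁ w₂ : K) (c : ℕ) (d : ℤ) (x : K) (p : AA c) (v : ℚ) : Prop :=
  ∃ (u : ℚ) (n : ℤ), x = u * w₁ + v * w₂ ∧ (n : ℚ) = c * u - (d - 1) * v ∧
    p = ((n : ZMod c), ((v * (e - 1) / c : ℝ) : ℂ))

variable {e : ℝ} {x y : K} {p q : AA c} {v v' : ℚ}

omit [NeZero c] in
theorem Rep.add (h : Rep e w₁ w₂ c d x p v) (h' : Rep e w₁ w₂ c d y q v') :
    Rep e w₁ w₂ c d (x + y) (p + q) (v + v') := by
  obtain ⟨u, n, rfl, h2, rfl⟩ := h
  obtain ⟨u', n', rfl, h2', rfl⟩ := h'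
  refine ⟨u + u', n + n', by push_cast; ring, by push_cast; rw [h2, h2']; ring, ?_⟩
  refine Prod.ext (by simp) ?_
  simp only [Prod.snd_add]
  push_cast
  ring

omit [NeZero c] in
theorem Rep.sub (h : Rep e w₁ w₂ c d x p v) (h' : Rep e w₁ w₂ c d y q v') :
    Rep e w₁ w₂ c d (x - y) (p - q) (v - v') := by
  obtain ⟨u, n, rfl, h2, rfl⟩ := h
  obtain ⟨u', n', rfl, h2', rfl⟩ := h'
  refine ⟨u - u', n - n', by push_cast; ring, by push_cast; rw [h2, h2']; ring, ?_⟩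
  refine Prod.ext (by simp) ?_
  simp only [Prod.snd_sub]
  push_cast
  ring

omit [NeZero c] in
theorem Rep.zero : Rep e w₁ w₂ c d 0 0 0 :=
  ⟨0, 0, by simp, by simp, Prod.ext (by simp) (by simp)⟩

omit [NeZero c] in
theorem Rep.de (m : ℤ) : Rep e w₁ w₂ c d (m * w₂) (m • (al c e d - be c)) m := by
  refine ⟨0, -((d - 1) * m), by simp, by push_cast; ring, Prod.ext ?_ ?_⟩
  · rw [Prod.smul_fst, Prod.fst_sub, zsmul_eq_mul]
    simp only [al, be]
    push_cast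
    ring
  · rw [Prod.smul_snd, Prod.snd_sub, zsmul_eq_mul]
    simp only [al, be]
    push_cast
    ring

omit [NeZero c] in
theorem Rep.re (h : Rep e w₁ w₂ c d x p v) : p.2.re = v * (e - 1) / c := by
  obtain ⟨u, n, -, -, rfl⟩ := h
  exact ofReal_re _

theorem Rep.nonneg (he : 1 < e) (h : Rep e w₁ w₂ c d x p v) : 0 ≤ p.2.re ↔ 0 ≤ v := by
  have hc := cast_pos (c := c)
  have : 0 < (e - 1) / c := div_pos (sub_pos.2 he) hc
  rw [h.re, mul_div_assoc, mul_nonneg_iff_of_pos_right this, Rat.cast_nonneg]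

theorem Rep.lt (he : 1 < e) (h : Rep e w₁ w₂ c d x p v) : p.2.re < (e - 1) / c ↔ v < 1 := by
  have hc := cast_pos (c := c)
  have : 0 < (e - 1) / c := div_pos (sub_pos.2 he) hc
  rw [h.re, mul_div_assoc, mul_lt_iff_lt_one_left this]
  exact_mod_cast Iff.rfl

theorem Rep.mem (hB : Bas σ σ' ε L w₁ w₂ a b c d) (he : 1 < e) (h : Rep e w₁ w₂ c d x 0 v) :
    x ∈ L := by
  have h1 := (h.nonneg he).1 (by simp)
  have h2 := h.re
  obtain ⟨u, n, rfl, h3, h4⟩ := h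
  have hc := cast_pos (c := c)
  have hv : v = 0 := by
    have h5 : (v : ℝ) * ((e - 1) / c) = 0 := by rw [← mul_div_assoc, ← h2]; simp
    exact_mod_cast (mul_eq_zero.1 h5).resolve_right (div_pos (sub_pos.2 he) hc).ne'
  obtain ⟨k, rfl⟩ := (ZMod.intCast_zmod_eq_zero_iff_dvd n c).1 (congrArg Prod.fst h4).symm
  have hc' : (c : ℚ) ≠ 0 := by exact_mod_cast NeZero.ne c
  have hu : u = k := by
    rw [hv, mul_zero, sub_zero] at h3
    push_cast at h3
    exact (mul_left_cancel₀ hc' h3).symm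
  exact (hB.mem _).2 ⟨k, 0, by rw [hu, hv]; simp⟩

omit [NeZero c] in
theorem Rep.eq_zero (hB : Bas σ σ' ε L w₁ w₂ a b c d) (h : Rep e w₁ w₂ c d x p v) (hx : x ∈ L)
    (h1 : -1 < v) (h2 : v < 1) : p = 0 := by
  obtain ⟨u, n, rfl, h3, rfl⟩ := h
  obtain ⟨m, k, h4⟩ := (hB.mem _).1 hx
  obtain ⟨h5, h6⟩ := hB.ind (u - m) (v - k) (by push_cast; linear_combination h4)
  rw [sub_eq_zero] at h5 h6
  have hk : k = 0 := by
    rw [h6] at h1 h2
    have a1 : (-1 : ℤ) < k := by exact_mod_cast h1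
    have a2 : k < 1 := by exact_mod_cast h2
    omega
  have hv : v = 0 := by rw [h6, hk]; simp
  have hn : n = c * m := by
    rw [hv, h5, mul_zero, sub_zero] at h3
    exact_mod_cast h3
  refine Prod.ext ?_ ?_
  · simp [hn]
  · simp [hv]

omit [NeZero c] in
theorem ne₁ (hB : Bas σ σ' ε L w₁ w₂ a b c d) : w₁ ≠ 0 := fun h =>
  one_ne_zero (hB.ind 1 0 (by simp [h])).1

theorem par (hε : Eps σ σ' ε) (hB : Bas σ σ' ε L w₁ w₂ a b c d) : Par c (σ ε) a d where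
  one_lt := hε.one_lt
  irr := by
    rintro ⟨r, hr⟩
    have h1 : ε = r := σ.injective (by rw [map_ratCast, hr])
    have h2 := (hB.ind (d - r) c (by push_cast; rw [← h1]; linear_combination -hB.e₁)).2
    exact NeZero.ne c (by exact_mod_cast h2)
  det := by
    have := congrArg (Int.cast : ℤ → ZMod c) hB.det
    simpa using this
  tr := by
    have := (FinAux.trace_det hε (ne₁ hB) (a := d) (b := b) (c := c) (d := a)
      (by simpa using hB.e₁) hB.e₂).1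
    rw [← hε.snd, ← this]
    push_cast
    ring

theorem BB_io (hP : Par c e a d) (n : ℤ) (v : ℚ) :
    BB e a ((n : ZMod c), ((v * (e - 1) / c : ℝ) : ℂ)) (al c e d - be c) =
      ee (((v * (a + d - 2) + (1 - a) * n) / c : ℚ) : ℂ) := by
  have h1 := hP.ne
  have h2 := cast_ne (c := c)
  have h3 : (e : ℂ) + (e : ℂ)⁻¹ = a + d := by exact_mod_cast congrArg ((↑) : ℝ → ℂ) hP.tr
  rw [BB_sub_right, BB_al hP, BB_be, ← Int.cast_mul, psi_int, psi_int, ← ee_add, ← ee_add,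
    div_eq_mul_inv, ← ee_neg, ← ee_add]
  congr 1
  push_cast
  rw [← h3]
  field_simp
  ring

theorem N_pos (hP : Par c e a d) : 0 < a + d - 2 := by
  have h1 := hP.pos
  have h2 : 0 < (e - 1) ^ 2 / e := div_pos (pow_pos (sub_pos.2 hP.one_lt) 2) h1
  have h3 : (e - 1) ^ 2 / e = ((a + d - 2 : ℤ) : ℝ) := by
    push_cast
    rw [← hP.tr]
    field_simp
    ring
  exact_mod_cast h3 ▸ h2

omit [NeZero c] in
theorem mul_coord (hB : Bas σ σ' ε L w₁ w₂ a b c d) (u v : ℚ) :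
    (ε - 1) * (u * w₁ + v * w₂) =
      ((u * (d - 1) + v * b : ℚ) : K) * w₁ + ((u * c + v * (a - 1) : ℚ) : K) * w₂ := by
  push_cast
  linear_combination (u : K) * hB.e₁ + (v : K) * hB.e₂

omit [NeZero c] in
theorem coord_int (hB : Bas σ σ' ε L w₁ w₂ a b c d) {u v : ℚ}
    (h : (ε - 1) * (u * w₁ + v * w₂) ∈ L) :
    ∃ m k : ℤ, u * (d - 1) + v * b = m ∧ u * c + v * (a - 1) = k := by
  obtain ⟨m, k, h1⟩ := (hB.mem _).1 h
  rw [mul_coord hB] at h1
  obtain ⟨h5, h6⟩ := hB.ind (u * (d - 1) + v * b - m) (u * c + v * (a - 1) - k)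
    (by rw [Rat.cast_sub, Rat.cast_sub _ (k : ℚ), Rat.cast_intCast, Rat.cast_intCast]
        linear_combination h1)
  exact ⟨m, k, sub_eq_zero.1 h5, sub_eq_zero.1 h6⟩

omit [NeZero c] in
theorem rep_of (hB : Bas σ σ' ε L w₁ w₂ a b c d) (e : ℝ) {u v : ℚ}
    (h : (ε - 1) * (u * w₁ + v * w₂) ∈ L) : ∃ p, Rep e w₁ w₂ c d (u * w₁ + v * w₂) p v := by
  obtain ⟨m, k, h1, h2⟩ := coord_int hB h
  have h3 : (a : ℚ) * d - b * c = 1 := by exact_mod_cast hB.det
  refine ⟨_, u, d * k - c * m, rfl, ?_, rfl⟩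
  push_cast
  rw [← h1, ← h2]
  linear_combination v * h3

theorem Rep.orth (hB : Bas σ σ' ε L w₁ w₂ a b c d) (hP : Par c e a d)
    (h : Rep e w₁ w₂ c d x p v) (hx : (ε - 1) * x ∈ L) : BB e a p (al c e d - be c) = 1 := by
  obtain ⟨u, n, rfl, h3, rfl⟩ := h
  obtain ⟨m, k, h1, h2⟩ := coord_int hB hx
  have h4 : (a : ℚ) * d - b * c = 1 := by exact_mod_cast hB.det
  have hc' : (c : ℚ) ≠ 0 := by exact_mod_cast NeZero.ne c
  have h5 : (v * (a + d - 2) + (1 - a) * n) / c = ((a * m - b * k : ℤ) : ℚ) := by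
    rw [div_eq_iff hc', h3]
    push_cast
    rw [← h1, ← h2]
    linear_combination (v - u * c) * h4
  rw [BB_io hP, h5, Rat.cast_intCast, ee_int]

theorem exists_rep (hε : Eps σ σ' ε) (hB : Bas σ σ' ε L w₁ w₂ a b c d)
    (hx : (ε - 1) * x ∈ L) : ∃ p v, Rep (σ ε) w₁ w₂ c d x p v := by
  obtain ⟨m, k, h1⟩ := (hB.mem _).1 hx
  have hN : ((a + d - 2 : ℤ) : ℚ) ≠ 0 := by exact_mod_cast (N_pos (par hε hB)).ne'
  have hN' : ((a + d - 2 : ℤ) : K) ≠ 0 := by exact_mod_cast (N_pos (par hε hB)).ne'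
  have h4 : (a : K) * d - b * c = 1 := by exact_mod_cast hB.det
  have h0 : ε - 1 ≠ 0 := fun h => by
    have := hε.one_lt
    rw [sub_eq_zero.1 h, map_one] at this
    exact lt_irrefl _ this
  have h2 : x = (((b * k - (a - 1) * m) / (a + d - 2 : ℤ) : ℚ) : K) * w₁ +
      (((c * m - (d - 1) * k) / (a + d - 2 : ℤ) : ℚ) : K) * w₂ := by
    refine mul_left_cancel₀ h0 ?_
    rw [mul_coord hB, h1]
    push_cast at hN' ⊢
    congr 2
    · field_simp
      linear_combination (m : K) * h4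
    · field_simp
      linear_combination (k : K) * h4
  rw [h2] at hx ⊢
  obtain ⟨p, hp⟩ := rep_of hB (σ ε) hx
  exact ⟨p, _, hp⟩

theorem surj (hB : Bas σ σ' ε L w₁ w₂ a b c d) (hP : Par c e a d)
    (hp : BB e a p (al c e d - be c) = 1) :
    ∃ (x : K) (j : ℤ), (ε - 1) * x ∈ L ∧ Rep e w₁ w₂ c d x p (j / (a + d - 2 : ℤ)) := by
  obtain ⟨j, hj⟩ := de_spec hP hp
  obtain ⟨n, hn⟩ := ZMod.intCast_surjective p.1
  have hN : ((a + d - 2 : ℤ) : ℚ) ≠ 0 := by exact_mod_cast (N_pos hP).ne'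
  have hc' : (c : ℚ) ≠ 0 := by exact_mod_cast NeZero.ne c
  have h1 : p = ((n : ZMod c), ((((j / (a + d - 2 : ℤ) : ℚ) : ℝ) * (e - 1) / c : ℝ) : ℂ)) := by
    refine Prod.ext hn.symm (hj.trans (congrArg _ ?_))
    have a1 := hP.pos.ne'
    have a2 := (sub_pos.2 hP.one_lt).ne'
    have a3 := (cast_pos (c := c)).ne'
    have a4 : ((a : ℝ) + d - 2) = (e - 1) ^ 2 / e := by rw [← hP.tr]; field_simp; ring
    push_cast
    rw [a4]
    field_simp
  rw [h1, BB_io hP, ee_eq_one] at hp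
  obtain ⟨k, hk⟩ := hp
  have hk' : ((j : ℚ) / (a + d - 2 : ℤ) * (a + d - 2) + (1 - a) * n) / c = k := by
    exact_mod_cast hk
  set v : ℚ := j / (a + d - 2 : ℤ) with hv
  have h2 : v * (a + d - 2) = j := by
    rw [hv]
    push_cast at hN ⊢
    field_simp
  have h4 : (a : ℚ) * d - b * c = 1 := by exact_mod_cast hB.det
  rw [div_eq_iff hc', h2] at hk'
  refine ⟨((n + (d - 1) * v) / c : ℚ) * w₁ + v * w₂, j, ?_, _, n, rfl,
    by rw [mul_div_cancel₀ _ hc']; ring, h1⟩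
  rw [mul_coord hB]
  refine (hB.mem _).2 ⟨d * k + n * b, n + j, ?_⟩
  have e1 : (n + (d - 1) * v) / c * (d - 1) + v * b = ((d * k + n * b : ℤ) : ℚ) := by
    push_cast
    field_simp
    linear_combination d * h2 + d * hk' + (n - v) * h4
  have e2 : (n + (d - 1) * v) / c * c + v * (a - 1) = ((n + j : ℤ) : ℚ) := by
    push_cast
    field_simp
    linear_combination h2
  rw [e1, e2, Rat.cast_intCast, Rat.cast_intCast]

end Pool.Agent.RM.PBAux
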