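import Pool.Agent.Lib.MP_ca56d1_nt.B.Bas

/-! Periodicity of the shifted function on the points orthogonal to `al - be`. -/

namespace Pool.Agent.RM

open Complex Filter Topology
open scoped Real

variable {c : ℕ} [NeZero c] {ε : ℝ} {a d : ℤ} {E J G : AA c → ℂ}

theorem IsE.cross (hP : Par c ε a d) (h : IsE ε a d E J G) (x : AA c)
    (h0 : -(1 / c) < x.2.re) :
    (1 - BB ε a x (be c)) * E (x + al c ε d) = (1 - BB ε a x (al c ε d)) * E (x + be c) := by
  have hc := cast_pos (c := c)
  have h1 : 1 / (c : ℝ) < ε / c := by gcongr; exact hP.one_lt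
  have e1 := h.Eb (x + al c ε d) (by rw [Prod.snd_add, add_re, al_re]; linarith)
  have e2 := h.Ea (x + be c) (by rw [Prod.snd_add, add_re, be_re]; linarith)
  rw [BB_add_left, BB_al_be hP, mul_one] at e1
  rw [BB_add_left, BB_be_al hP, mul_one] at e2
  rw [← e1, ← e2]
  congr 1
  abel

theorem ee_deriv (l : ℂ) : HasDerivAt (fun z : ℂ => 1 - ee (z * l)) (-(2 * π * I * l)) 0 := by
  have h : HasDerivAt (fun z : ℂ => 2 * π * I * (z * l)) (2 * π * I * l) 0 := by
    simpa using ((hasDerivAt_id (0 : ℂ)).mul_const l).const_mul (2 * π * I)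
  simpa [ee] using h.cexp.const_sub 1

theorem IsE.al_eq (hP : Par c ε a d) (h : IsE ε a d E J G) : E (al c ε d) = ε * E (be c) := by
  have hc := cast_pos (c := c)
  have hε := hP.pos
  have hO : IsOpen {z : ℂ | 0 < z.re} := isOpen_lt continuous_const continuous_re
  have d1 : DifferentiableAt ℂ (fun z : ℂ => E (((0 : ZMod c), z) + al c ε d)) 0 := by
    have := (h.dE (al c ε d).1).differentiableAt (x := 0 + (al c ε d).2)
      (hO.mem_nhds (by rw [zero_add, Set.mem_ofPred_eq, al_re]; positivity))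
    have := this.comp (f := fun z : ℂ => z + (al c ε d).2) 0 (by fun_prop)
    simpa [Function.comp_def, Prod.add_def] using this
  have d2 : DifferentiableAt ℂ (fun z : ℂ => E (((0 : ZMod c), z) + be c)) 0 := by
    have := (h.dE (be c).1).differentiableAt (x := 0 + (be c).2)
      (hO.mem_nhds (by rw [zero_add, Set.mem_ofPred_eq, be_re]; positivity))
    have := this.comp (f := fun z : ℂ => z + (be c).2) 0 (by fun_prop)
    simpa [Function.comp_def, Prod.add_def] using this
  have k1 := (ee_deriv (ε : ℂ)⁻¹).mul d1.hasDerivAt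
  have k2 := (ee_deriv 1).mul d2.hasDerivAt
  have ev : (fun z : ℂ => 1 - ee (z * (ε : ℂ)⁻¹)) * (fun z => E (((0 : ZMod c), z) + al c ε d))
      =ᶠ[𝓝 0] (fun z : ℂ => 1 - ee (z * 1)) * fun z => E (((0 : ZMod c), z) + be c) := by
    have : {z : ℂ | -(1 / c) < z.re} ∈ 𝓝 (0 : ℂ) :=
      (isOpen_lt continuous_const continuous_re).mem_nhds (by simpa using hc)
    filter_upwards [this] with z hz
    have := h.cross hP (0, z) hz
    rw [BB_al hP, BB_be] at this
    simpa [div_eq_mul_inv] using this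
  have := (k1.congr_of_eventuallyEq ev.symm).unique k2
  have z1 : (((0 : ZMod c), (0 : ℂ)) : AA c) = 0 := rfl
  simp only [zero_mul, ee_zero, sub_self, add_zero, z1, zero_add] at this
  have h1 := hP.ne
  have h2 := Complex.two_pi_I_ne_zero
  field_simp at this
  linear_combination -this

theorem de_be_ne (hP : Par c ε a d) {x : AA c} (hx : BB ε a x (al c ε d - be c) = 1)
    (h0 : x ≠ 0) : BB ε a x (be c) ≠ 1 := by
  intro h1
  have h2 : BB ε a x (al c ε d) = 1 := by rwa [BB_sub_right, h1, div_one] at hx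
  have hc := cast_ne (c := c)
  have hε := hP.ne
  rw [BB_al hP, psi_val, ← ee_add, ee_eq_one] at h2
  rw [BB_be, psi_val, ← ee_add, ee_eq_one] at h1
  obtain ⟨m, hm⟩ := h2
  obtain ⟨n, hn⟩ := h1
  have e : ((m * c - x.1.val : ℤ) : ℂ) = ε * ((n * c - ((a : ZMod c) * x.1).val : ℤ) : ℂ) := by
    push_cast
    field_simp at hm hn
    linear_combination hn - hm
  have e' : ((m * c - x.1.val : ℤ) : ℝ) = ε * ((n * c - ((a : ZMod c) * x.1).val : ℤ) : ℝ) := by
    exact_mod_cast e
  have z1 : (n * c - ((a : ZMod c) * x.1).val : ℤ) = 0 := by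
    by_contra hne
    exact (hP.irr.mul_intCast hne).ne_int _ e'.symm
  have z2 : (m * c - x.1.val : ℤ) = 0 := by
    rw [z1, Int.cast_zero, mul_zero] at e'
    exact_mod_cast e'
  have z3 : x.1 = 0 := by
    have := congrArg (Int.cast : ℤ → ZMod c) z2
    simpa using this
  have z4 : m = 0 := by
    rw [z3, ZMod.val_zero] at z2
    simpa [NeZero.ne c] using z2
  refine h0 (Prod.ext z3 ?_)
  rw [z3, z4] at hm
  simpa using hm

open Classical in
theorem IsE.psi (hP : Par c ε a d) (h : IsE ε a d E J G) (x : AA c)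
    (hx : BB ε a x (al c ε d - be c) = 1) (h0 : 0 ≤ x.2.re) :
    E (x + al c ε d) = (if x = 0 then (ε : ℂ) else 1) * E (x + be c) := by
  split_ifs with h1
  · rw [h1, zero_add, zero_add, h.al_eq hP]
  · have hc := cast_pos (c := c)
    have := h.cross hP x (lt_of_lt_of_le (by simpa using hc) h0)
    have h2 : BB ε a x (al c ε d) = BB ε a x (be c) := by
      rwa [BB_sub_right, div_eq_one_iff_eq (BB_ne _ _)] at hx
    rw [h2] at this
    rw [one_mul]
    exact mul_left_cancel₀ (sub_ne_zero.2 (de_be_ne hP hx h1).symm) this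

end Pool.Agent.RM
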