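import Pool.Agent.Lib.MP_ca56d1_nt.C.St
import Pool.Agent.Lib.MP_ca56d1_nt.RM.DL
import Pool.Agent.Lib.MP_ca56d1_nt.RM.Basic

/-! Interface of part B: the beta integral, its localisation and the finite pentagon identity. -/

namespace Pool.Agent.RM

open Complex Filter Topology MeasureTheory
open scoped Real

/-- The exponential `exp (2 π i z)`. -/
noncomputable def ee (z : ℂ) : ℂ := cexp (2 * π * I * z)

/-- The residue theorem on a vertical strip for a finite family with simple real poles. -/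
def StripSt : Prop :=
  ∀ {ι : Type} [Fintype ι] (f : ι → ℂ → ℂ) (P : ι → Finset ℝ) (ρ : ι → ℝ → ℂ) (T : ι → ℂ)
    (s₀ s₁ : ℝ), s₀ < s₁ → (∀ n, ∀ p ∈ P n, s₀ < p ∧ p < s₁) →
    (∀ n, ∀ z : ℂ, s₀ ≤ z.re → z.re ≤ s₁ → (∀ p ∈ P n, z ≠ p) → DifferentiableAt ℂ (f n) z) →
    (∀ n, ∀ p ∈ P n, Tendsto (fun z => (z - p) * f n z) (𝓝[≠] (p : ℂ)) (𝓝 (ρ n p))) →
    (∀ n, ∀ η : ℝ, 0 < η → ∃ R : ℝ, ∀ z : ℂ, s₀ ≤ z.re → z.re ≤ s₁ →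
      (R ≤ z.im → ‖f n z - T n‖ ≤ η) ∧ (z.im ≤ -R → ‖f n z‖ ≤ η)) →
    (Integrable fun y : ℝ => ∑ n, (f n (s₁ + y * I) - f n (s₀ + y * I))) →
    I * ∫ y : ℝ, ∑ n, (f n (s₁ + y * I) - f n (s₀ + y * I)) =
      ∑ n, (T n * (s₁ - s₀) + 2 * π * I * ∑ p ∈ P n, ρ n p)

/-- The double Bernoulli polynomial with periods `1, q`. -/
noncomputable def b22 (q : ℝ) (z : ℂ) : ℂ :=
  z ^ 2 / q - (1 + q) * z / q + (1 + q ^ 2 + 3 * q) / (6 * q)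

/-- Holomorphy, difference equation and decay of `dl`. -/
def DlDiff : Prop := ∀ p q : ℝ, 0 < p → 0 < q →
  DifferentiableOn ℂ (dl p q) {z | 0 < z.re ∧ z.re < p + q} ∧
  (∀ z : ℂ, 0 < z.re → z.re < p →
    cexp (dl p q (z + q)) = (1 - ee (z / p)) * cexp (dl p q z)) ∧
  ∀ s t : ℝ, 0 < s → t < p + q → ∀ η : ℝ, 0 < η → ∃ R : ℝ, ∀ z : ℂ, s ≤ z.re → z.re ≤ t →
    R ≤ z.im → ‖dl p q z‖ ≤ η

/-- The reflection formula of `dl`. -/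
def DlRefl : Prop := ∀ q : ℝ, 0 < q → ∀ z : ℂ, 0 < z.re → z.re < 1 + q →
  dl 1 q z + dl 1 q (1 + q - z) = π * I * b22 q z

/-- `S` is the double sine function with periods `1, q` on the right half plane. -/
structure IsS (q : ℝ) (S : ℂ → ℂ) : Prop where
  diff : DifferentiableOn ℂ S {z | 0 < z.re}
  eq : ∀ z : ℂ, 0 < z.re → z.re < 1 + q → S z = cexp (dl 1 q z)
  add_one : ∀ z : ℂ, 0 < z.re → S (z + 1) = (1 - ee (z / q)) * S z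
  add_q : ∀ z : ℂ, 0 < z.re → S (z + q) = (1 - ee z) * S z
  refl : ∀ z : ℂ, 0 < z.re → z.re < 1 + q → S z * S (1 + q - z) = cexp (π * I * b22 q z)
  top : ∀ s t : ℝ, 0 < s → ∀ η : ℝ, 0 < η → ∃ R : ℝ, ∀ z : ℂ, s ≤ z.re → z.re ≤ t →
    R ≤ z.im → ‖S z - 1‖ ≤ η

/-- Existence of the double sine function. -/
def SSt : Prop := ∀ q : ℝ, 0 < q → ∃ S, IsS q S

/-- The group on which the modular quantum dilogarithm lives. -/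
abbrev AA (c : ℕ) := ZMod c × ℂ

section

variable {c : ℕ} [NeZero c]

/-- The symmetric bicharacter. -/
noncomputable def BB (ε : ℝ) (a : ℤ) (x y : AA c) : ℂ :=
  ee (c * x.2 * y.2 / ε) * ZMod.stdAddChar (-(a : ZMod c) * x.1 * y.1)

/-- The first shift. -/
noncomputable def al (c : ℕ) (ε : ℝ) (d : ℤ) : AA c := (-(d : ZMod c), (ε : ℂ) / c)

/-- The second shift. -/
noncomputable def be (c : ℕ) : AA c := (-1, 1 / (c : ℂ))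

/-- The product of `c` values of `S`. -/
noncomputable def EE (ε : ℝ) (d : ℤ) (S : ℂ → ℂ) (x : AA c) : ℂ :=
  ∏ i ∈ Finset.range c, S (x.2 + (i * ε + ((x.1 - (d : ZMod c) * i).val : ℕ)) / c)

/-- The absolute value of the Gaussian. -/
noncomputable def gm (c : ℕ) (ε : ℝ) (z : ℂ) : ℝ :=
  Real.exp (-2 * π * c * z.im * (z.re - (1 + ε) / (2 * c)) / ε)

/-- The parameters. -/
structure Par (c : ℕ) (ε : ℝ) (a d : ℤ) : Prop where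
  one_lt : 1 < ε
  irr : Irrational ε
  det : (a : ZMod c) * d = 1
  tr : ε + ε⁻¹ = a + d

/-- `E` is the modular quantum dilogarithm, `J` its inverse and `G` the Gaussian. -/
structure IsE (ε : ℝ) (a d : ℤ) (E J G : AA c → ℂ) : Prop where
  dE : ∀ n, DifferentiableOn ℂ (fun z => E (n, z)) {z | 0 < z.re}
  dJ : ∀ n, DifferentiableOn ℂ (fun z => J (n, z)) {z | z.re < (1 + ε) / c}
  mul : ∀ x : AA c, 0 < x.2.re → x.2.re < (1 + ε) / c → E x * J x = 1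
  Ea : ∀ x : AA c, 0 < x.2.re → E (x + al c ε d) = (1 - BB ε a x (al c ε d)) * E x
  Eb : ∀ x : AA c, 0 < x.2.re → E (x + be c) = (1 - BB ε a x (be c)) * E x
  Ja : ∀ x : AA c, x.2.re < 1 / c → J x = (1 - BB ε a x (al c ε d)) * J (x + al c ε d)
  Jb : ∀ x : AA c, x.2.re < ε / c → J x = (1 - BB ε a x (be c)) * J (x + be c)
  topE : ∀ s t : ℝ, 0 < s → ∀ η : ℝ, 0 < η → ∃ R : ℝ, ∀ x : AA c, s ≤ x.2.re → x.2.re ≤ t →
    R ≤ x.2.im → ‖E x - 1‖ ≤ η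
  topJ : ∀ s t : ℝ, t < (1 + ε) / c → ∀ η : ℝ, 0 < η → ∃ R : ℝ, ∀ x : AA c, s ≤ x.2.re →
    x.2.re ≤ t → R ≤ x.2.im → ‖J x - 1‖ ≤ η
  bdE : ∀ s t : ℝ, 0 < s → ∃ C : ℝ, ∀ x : AA c, s ≤ x.2.re → x.2.re ≤ t →
    (0 ≤ x.2.im → ‖E x‖ ≤ C) ∧ (x.2.im ≤ 0 → ‖E x‖ ≤ C * gm c ε x.2)
  bdJ : ∀ s t : ℝ, t < (1 + ε) / c → ∃ C : ℝ, ∀ x : AA c, s ≤ x.2.re → x.2.re ≤ t →
    (0 ≤ x.2.im → ‖J x‖ ≤ C) ∧ (x.2.im ≤ 0 → ‖J x‖ * gm c ε x.2 ≤ C)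
  refl : ∀ x : AA c, 0 < x.2.re → x.2.re < (1 + ε) / c → E x * E (al c ε d + be c - x) = G x
  Gadd : ∀ x y, G (x + y) * G 0 = G x * G y * BB ε a x y
  Ga : G (al c ε d) = -G 0
  Gb : G (be c) = -G 0
  G0 : ∃ m : ℕ, m ≠ 0 ∧ G 0 ^ m = 1

/-- The integral over a union of vertical lines. -/
noncomputable def lint (s : ℝ) (f : AA c → ℂ) : ℂ := I * ∫ y : ℝ, ∑ n : ZMod c, f (n, s + y * I)

/-- The integrand of the beta integral. -/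
noncomputable def bint (ε : ℝ) (a d : ℤ) (E J : AA c → ℂ) (u w x : AA c) : ℂ :=
  E (x + u) * J (x + (al c ε d + be c)) * BB ε a x w

end

/-- The product `EE` has the properties `IsE`, Gaussian part. -/
def GSt : Prop := ∀ (c : ℕ) [NeZero c] (ε : ℝ) (a d : ℤ), Par c ε a d →
  ∀ G : AA c → ℂ, G = EE ε d (fun z => cexp (π * I * b22 ε z)) →
    (∀ x y, G (x + y) * G 0 = G x * G y * BB ε a x y) ∧ G (al c ε d) = -G 0 ∧ G (be c) = -G 0 ∧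
    (∃ m : ℕ, m ≠ 0 ∧ G 0 ^ m = 1) ∧ (∀ x, ‖G x‖ = gm c ε x.2) ∧
    ∀ n, Differentiable ℂ fun z => G (n, z)

/-- The difference equations of `EE`. -/
def EqSt : Prop := ∀ (c : ℕ) [NeZero c] (ε : ℝ) (a d : ℤ) (S : ℂ → ℂ), Par c ε a d → IsS ε S →
  (∀ n : ZMod c, DifferentiableOn ℂ (fun z => EE ε d S (n, z)) {z | 0 < z.re}) ∧
  (∀ x : AA c, 0 < x.2.re →
    EE ε d S (x + al c ε d) = (1 - BB ε a x (al c ε d)) * EE ε d S x) ∧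
  (∀ x : AA c, 0 < x.2.re → EE ε d S (x + be c) = (1 - BB ε a x (be c)) * EE ε d S x) ∧
  (∀ x : AA c, 0 < x.2.re → x.2.re < (1 + ε) / c → EE ε d S x * EE ε d S (al c ε d + be c - x) =
    EE ε d (fun z => cexp (π * I * b22 ε z)) x) ∧
  ∀ s t : ℝ, 0 < s → ∀ η : ℝ, 0 < η → ∃ R : ℝ, ∀ x : AA c, s ≤ x.2.re → x.2.re ≤ t →
    R ≤ x.2.im → ‖EE ε d S x - 1‖ ≤ η

/-- The product `EE` has the properties `IsE`. -/
def ESt : Prop := ∀ (c : ℕ) [NeZero c] (ε : ℝ) (a d : ℤ) (S : ℂ → ℂ), Par c ε a d → IsS ε S →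
  ∃ J G : AA c → ℂ, IsE ε a d (EE ε d S) J G

/-- Convergence and holomorphy of the beta integral. -/
def BIntSt : Prop := ∀ (c : ℕ) [NeZero c] (ε : ℝ) (a d : ℤ) (E J G : AA c → ℂ), Par c ε a d →
  IsE ε a d E J G → ∀ (m : ZMod c) (t s : ℝ), -t < s → s < 0 →
    (∀ w : AA c, 0 < w.2.re → t + w.2.re < (1 + ε) / c → ∀ n : ZMod c,
      Integrable fun y : ℝ => bint ε a d E J (m, t) w (n, s + y * I)) ∧
    ∀ k : ZMod c, DifferentiableOn ℂ (fun z => lint s (bint ε a d E J (m, t) (k, z)))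
      {z | 0 < z.re ∧ t + z.re < (1 + ε) / c}

/-- The difference equations of the beta integral. -/
def BShiftSt : Prop := ∀ (c : ℕ) [NeZero c] (ε : ℝ) (a d : ℤ) (E J G : AA c → ℂ), Par c ε a d →
  IsE ε a d E J G → ∀ (m : ZMod c) (t s : ℝ), -t < s → s < 0 →
    ∀ v : AA c, (v = al c ε d ∨ v = be c) →
    (∀ w : AA c, 0 < w.2.re → t + (w + v).2.re < (1 + ε) / c →
      lint s (bint ε a d E J (m, t) (w + v)) * (1 - BB ε a (m, t) v * BB ε a w v) =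
        lint s (bint ε a d E J (m, t) w) * (1 - BB ε a w v)) ∧
    (t + v.2.re < (1 + ε) / c →
      lint s (bint ε a d E J (m, t) v) * (1 - BB ε a (m, t) v) = c * v.2)

/-- A holomorphic function on a strip with two incommensurable periods is constant. -/
def PerSt : Prop := ∀ (c : ℕ) [NeZero c] (f : AA c → ℂ) (l p q : ℝ) (m : ZMod c), 0 < p → p < l →
  0 < q → q < l → Irrational (p / q) →
  (∀ n, DifferentiableOn ℂ (fun z => f (n, z)) {z | 0 < z.re ∧ z.re < l}) →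
  (∀ x : AA c, 0 < x.2.re → x.2.re + p < l → f (x + (m, (p : ℂ))) = f x) →
  (∀ x : AA c, 0 < x.2.re → x.2.re + q < l → f (x + (-1, (q : ℂ))) = f x) →
  ∀ x y : AA c, 0 < x.2.re → x.2.re < l → 0 < y.2.re → y.2.re < l → f x = f y

/-- The beta integral. -/
def BetaSt : Prop := ∀ (c : ℕ) [NeZero c] (ε : ℝ) (a d : ℤ) (E J G : AA c → ℂ), Par c ε a d →
  IsE ε a d E J G → ∀ (k : ℕ) (m : ZMod c) (t₀ s : ℝ), t₀ < 1 / c → -t₀ < s → s < 0 →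
    ∀ w : AA c, 0 < w.2.re → t₀ + k / c + w.2.re < (1 + ε) / c →
      lint s (bint ε a d E J (m, (t₀ + k / c : ℝ)) w) =
        E (m, (t₀ + k / c : ℝ)) * E w * J (be c) * J ((m, ((t₀ + k / c : ℝ) : ℂ)) + w)

open Classical in
/-- The localisation of the beta integral. -/
def LocSt : Prop := ∀ (c : ℕ) [NeZero c] (ε : ℝ) (a d : ℤ) (E J G : AA c → ℂ), Par c ε a d →
  IsE ε a d E J G → ∀ D : Finset (AA c),
    (∀ x, x ∈ D ↔ BB ε a x (al c ε d - be c) = 1 ∧ 0 ≤ x.2.re ∧ x.2.re < (ε - 1) / c) →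
    ∀ u ∈ D, ∀ w ∈ D, 0 < u.2.re → u.2.re + w.2.re < (ε - 1) / c →
      ε * E (be c) * ∑ x ∈ D, E (x + u + be c) * J (x + be c) * BB ε a x w =
        (ε - 1) * (E (u + be c) * ((if w = 0 then (ε : ℂ) else 1) * E (w + be c)) *
          J (u + w + be c))

variable {K : Type*} [Field K] [CharZero K]

/-- An oriented basis of `L` with totally positive first vector and the matrix of `ε`. -/
structure Bas (σ σ' : K →+* ℝ) (ε : K) (L : Submodule ℤ K) (w₁ w₂ : K) (a b : ℤ) (c : ℕ)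
    (d : ℤ) : Prop where
  mem : ∀ z, z ∈ L ↔ ∃ m n : ℤ, z = m * w₁ + n * w₂
  ind : ∀ u v : ℚ, (u : K) * w₁ + v * w₂ = 0 → u = 0 ∧ v = 0
  pos : 0 < σ w₁
  pos' : 0 < σ' w₁
  e₁ : ε * w₁ = d * w₁ + c * w₂
  e₂ : ε * w₂ = b * w₁ + a * w₂
  det : a * d - b * c = 1

/-- The values `Fm` are values of `EE`. -/
def ValSt (σ σ' : K →+* ℝ) : Prop := ∀ ε L w₁ w₂ a b (c : ℕ) [NeZero c] d (S : ℂ → ℂ),
  Eps σ σ' ε → ELat ε L → Bas σ σ' ε L w₁ w₂ a b c d → IsS (σ ε) S →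
  ∀ (u v : ℚ) (n : ℤ), (n : ℚ) = c * u - (d - 1) * v → 0 ≤ v → v < 1 →
    (ε - 1) * (u * w₁ + v * w₂) ∈ L → Fm σ σ' ε L (u * w₁ + v * w₂) =
      EE (σ ε) d S (((n : ZMod c), ((v * (σ ε - 1) / c : ℝ) : ℂ)) + be c)

/-- The Gaussian on the finite group. -/
noncomputable def Gk (σ σ' : K →+* ℝ) (ε : K) (L : Submodule ℤ K) (x : K) : ℂ :=
  Fp σ σ' ε L x * Fm σ σ' ε L (-x)

/-- The bicharacter on the finite group. -/
noncomputable def Bk (σ σ' : K →+* ℝ) (ε : K) (L : Submodule ℤ K) (x y : K) : ℂ :=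
  Gk σ σ' ε L (x + y) * Gk σ σ' ε L 0 / (Gk σ σ' ε L x * Gk σ σ' ε L y)

/-- `s` is a system of representatives of `(ε - 1)⁻¹ L / L`. -/
def Reps (ε : K) (L : Submodule ℤ K) (s : Finset K) : Prop :=
  (∀ g ∈ s, (ε - 1) * g ∈ L) ∧ ∀ x, (ε - 1) * x ∈ L → ∃! g, g ∈ s ∧ x - g ∈ L

/-- The finite pentagon identity at `(u, w)`. -/
def PId (σ σ' : K →+* ℝ) (ε : K) (L : Submodule ℤ K) (s : Finset K) (u w : K) : Prop :=
  (σ ε : ℝ) * Fm σ σ' ε L 0 * ∑ g ∈ s, Fp σ σ' ε L (g + u) / Fm σ σ' ε L g * Bk σ σ' ε L g w =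
    ((σ ε : ℝ) - 1) * (Fp σ σ' ε L u * Fp σ σ' ε L w / Fm σ σ' ε L (u + w))

/-- What one basis gives. -/
def PBSt (σ σ' : K →+* ℝ) : Prop := ∀ ε L w₁ w₂ a b (c : ℕ) d, c ≠ 0 →
  Eps σ σ' ε → ELat ε L → Bas σ σ' ε L w₁ w₂ a b c d →
  (∀ x y z, (ε - 1) * x ∈ L → (ε - 1) * y ∈ L → (ε - 1) * z ∈ L →
    Bk σ σ' ε L x (y + z) = Bk σ σ' ε L x y * Bk σ σ' ε L x z) ∧
  (∃ m : ℕ, m ≠ 0 ∧ Gk σ σ' ε L 0 ^ m = 1) ∧
  ∃ s, Reps ε L s ∧ ∀ u v u' v' : ℚ, (ε - 1) * (u * w₁ + v * w₂) ∈ L →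
    (ε - 1) * (u' * w₁ + v' * w₂) ∈ L → 0 < v → 0 ≤ v' → v + v' < 1 →
    PId σ σ' ε L s (u * w₁ + v * w₂) (u' * w₁ + v' * w₂)

/-- Enough bases: for `x ∉ L` and any `y` there is an oriented basis in which the second
coordinates `v, v'` have fractional parts with `0 < {v}` and `{v} + {v'} ≤ 1`. -/
def BasExSt (σ σ' : K →+* ℝ) : Prop := ∀ ε L, Eps σ σ' ε → ELat ε L →
  (∃ w₁ w₂ a b c d, c ≠ 0 ∧ Bas σ σ' ε L w₁ w₂ a b c d) ∧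
  ∀ x y, (ε - 1) * x ∈ L → x ∉ L → (ε - 1) * y ∈ L → ∃ w₁ w₂ a b c d, c ≠ 0 ∧
    Bas σ σ' ε L w₁ w₂ a b c d ∧ ∃ u v u' v' : ℚ, x - (u * w₁ + v * w₂) ∈ L ∧
      y - (u' * w₁ + v' * w₂) ∈ L ∧ 0 < v ∧ v < 1 ∧ 0 ≤ v' ∧ v + v' ≤ 1

/-- The finite Fourier identities `(P)` and `(R)`. -/
def FourierP (σ σ' : K →+* ℝ) (ε : K) (L : Submodule ℤ K) : Prop :=
  ∃ (d μ : ℂ) (s : Finset K) (B : K → K → ℂ),
    d ^ 2 = ((σ ε + σ' ε - 2 : ℝ) : ℂ) ∧ (∃ n : ℕ, n ≠ 0 ∧ μ ^ n = 1) ∧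
    (∀ g ∈ s, (ε - 1) * g ∈ L) ∧
    (∀ g ∈ s, ∀ h h', (ε - 1) * h ∈ L → (ε - 1) * h' ∈ L → B g (h + h') = B g h * B g h') ∧
    (∀ g ∈ s, ∀ h ∈ L, B g h = 1) ∧
    (∀ a, (ε - 1) * a ∈ L → a ∉ L → ∀ h, (ε - 1) * h ∈ L →
      d * (Fp σ σ' ε L a * Fp σ σ' ε L h / Fm σ σ' ε L (a + h)) =
        ∑ g ∈ s, μ * (Fp σ σ' ε L (g + a) / Fm σ σ' ε L g) * B g h) ∧
    (∀ g, (ε - 1) * g ∈ L → ∃ n : ℕ, n ≠ 0 ∧ (Fp σ σ' ε L g * Fm σ σ' ε L (-g)) ^ n = 1)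

/-- The conclusion of part B. -/
def PartBP (σ σ' : K →+* ℝ) : Prop := ∀ ε L, Eps σ σ' ε → ELat ε L → FourierP σ σ' ε L

end Pool.Agent.RM
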