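import Pool.Agent.Lib.MP_ca56d1_nt.B.St
import Pool.Agent.Lib.MP_164d34_nt.Arg

/-! The residue theorem on a vertical strip. -/

namespace Pool.Agent.RM

open Complex Filter Topology MeasureTheory Pool.Agent.Lib.MP_164d34_nt
open scoped Real Interval

namespace StripAux

theorem bd_cont {a b c d : ℝ} (hc : c < 0) (hd : 0 < d) {P : Finset ℝ} {f : ℂ → ℂ}
    (hP : ∀ p ∈ P, a < p ∧ p < b)
    (hf : ∀ z : ℂ, a ≤ z.re → z.re ≤ b → (∀ p ∈ P, z ≠ p) → DifferentiableAt ℂ f z) :
    ContinuousOn f (argBd a b c d) := fun z hz =>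
  (hf z hz.1.1.1 hz.1.1.2 fun p hp h => hz.2 (by
    rw [h]
    exact ⟨hP p hp, hc, hd⟩)).continuousAt.continuousWithinAt

theorem rect {a b c d : ℝ} (hab : a < b) (hc : c < 0) (hd : 0 < d) (ρ : ℝ → ℂ) (P : Finset ℝ) :
    ∀ f : ℂ → ℂ, (∀ p ∈ P, a < p ∧ p < b) →
      (∀ z : ℂ, a ≤ z.re → z.re ≤ b → (∀ p ∈ P, z ≠ p) → DifferentiableAt ℂ f z) →
      (∀ p ∈ P, Tendsto (fun z => (z - p) * f z) (𝓝[≠] (p : ℂ)) (𝓝 (ρ p))) →
      argRc f a b c d = 2 * π * I * ∑ p ∈ P, ρ p := by
  classical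
  have hcd := hc.trans hd
  induction P using Finset.induction_on with
  | empty =>
    intro f _ hf _
    rw [Finset.sum_empty, mul_zero]
    exact argRc_zero hab hcd fun z hz => (hf z hz.1.1 hz.1.2 (by simp)).differentiableWithinAt
  | insert p P hp ih =>
    intro f hP hf hρ
    obtain ⟨p1, p2⟩ := hP p (Finset.mem_insert_self _ _)
    let φ : ℂ → ℂ := Function.update (fun z => (z - p) * f z) p (ρ p)
    have h1 : ∀ z : ℂ, z ≠ p → dslope φ p z = f z - ρ p * (z - p)⁻¹ := fun z hz => by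
      have := sub_ne_zero.2 hz
      rw [dslope_of_ne _ hz, slope_def_field]
      simp only [φ, Function.update_self, Function.update_of_ne hz]
      field_simp
    have h2 : ∀ z : ℂ, z ≠ p → dslope φ p =ᶠ[𝓝 z] fun z => f z - ρ p * (z - p)⁻¹ := fun z hz =>
      (eventually_ne_nhds hz).mono h1
    have h3 : AnalyticAt ℂ φ p := by
      refine analyticAt_of_differentiable_on_punctured_nhds_of_continuousAt ?_
        (continuousAt_update_same.2 (hρ p (Finset.mem_insert_self _ _)))
      have a1 : ∀ᶠ z : ℂ in 𝓝 (p : ℂ), a < z.re :=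
        continuous_re.continuousAt.eventually (lt_mem_nhds p1)
      have a2 : ∀ᶠ z : ℂ in 𝓝 (p : ℂ), z.re < b :=
        continuous_re.continuousAt.eventually (gt_mem_nhds p2)
      have a3 : ∀ᶠ z : ℂ in 𝓝 (p : ℂ), ∀ q ∈ P, z ≠ q :=
        (eventually_all_finset P).2 fun q hq => eventually_ne_nhds fun h =>
          hp (ofReal_injective h ▸ hq)
      filter_upwards [nhdsWithin_le_nhds a1, nhdsWithin_le_nhds a2, nhdsWithin_le_nhds a3,
        self_mem_nhdsWithin] with z b1 b2 b3 b4
      have b5 := hf z b1.le b2.le (Finset.forall_mem_insert _ _ _ |>.2 ⟨b4, b3⟩)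
      exact ((differentiableAt_id.sub_const _).mul b5).congr_of_eventuallyEq
        ((eventually_ne_nhds b4).mono fun w hw => Function.update_of_ne hw _ _)
    have h4 : ∀ z : ℂ, a ≤ z.re → z.re ≤ b → (∀ q ∈ P, z ≠ q) →
        DifferentiableAt ℂ (dslope φ p) z := fun z z1 z2 z3 => by
      by_cases hz : z = p
      · obtain ⟨s, hs, h5⟩ := h3.eventually_analyticAt.exists_mem
        rw [hz]
        exact ((differentiableOn_dslope hs).2 fun w hw =>
          (h5 w hw).differentiableAt.differentiableWithinAt).differentiableAt hs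
      · have a1 : DifferentiableAt ℂ (fun z : ℂ => ρ p * (z - p)⁻¹) z :=
          ((differentiableAt_id.sub_const (p : ℂ)).inv (sub_ne_zero.2 hz)).const_mul _
        exact ((hf z z1 z2 (Finset.forall_mem_insert _ _ _ |>.2 ⟨hz, z3⟩)).sub a1
          ).congr_of_eventuallyEq (h2 z hz)
    have hP' : ∀ q ∈ P, a < q ∧ q < b := fun q hq => hP q (Finset.mem_insert_of_mem hq)
    have h5 := ih (dslope φ p) hP' h4 fun q hq => by
      have a1 : (q : ℂ) ≠ p := fun h => hp (ofReal_injective h ▸ hq)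
      have a2 : ContinuousAt (fun z : ℂ => (z - q) * (ρ p * (z - p)⁻¹)) q :=
        (continuousAt_id.sub continuousAt_const).mul (continuousAt_const.mul
          ((continuousAt_id.sub continuousAt_const).inv₀ (sub_ne_zero.2 a1)))
      have a3 := (hρ q (Finset.mem_insert_of_mem hq)).sub (a2.tendsto.mono_left nhdsWithin_le_nhds)
      rw [sub_self, zero_mul, sub_zero] at a3
      refine a3.congr' (((h2 q a1).filter_mono nhdsWithin_le_nhds).mono fun z hz => ?_)
      simp only [hz, mul_sub]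
    have h6 : (p : ℂ) ∈ Set.Ioo a b ×ℂ Set.Ioo c d := ⟨⟨p1, p2⟩, hc, hd⟩
    rw [argRc_congr hab hcd (G := fun z => dslope φ p z + ρ p * (z - p)⁻¹) fun z hz => by
        rw [h1 z (sub_ne_zero.1 (arg_ne h6 hz)), sub_add_cancel],
      argRc_add hab hcd (G := fun z => ρ p * (z - p)⁻¹) (bd_cont hc hd hP' h4)
        (continuousOn_const.mul (ContinuousOn.inv₀ (by fun_prop) fun z hz => arg_ne h6 hz)),
      h5, argRc_const_mul, argRc_inv hab hcd h6, Finset.sum_insert hp]
    ring

theorem hor {a b : ℝ} (hab : a < b) {F : ℝ → ℝ → ℂ} {T : ℂ}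
    (h1 : ∀ y, 0 < y → IntervalIntegrable (F y) volume a b)
    (h2 : ∀ η : ℝ, 0 < η → ∃ R : ℝ, ∀ x y, a ≤ x → x ≤ b → R ≤ y → ‖F y x - T‖ ≤ η) :
    Tendsto (fun y => ∫ x in a..b, F y x) atTop (𝓝 (T * (b - a))) := by
  refine Metric.tendsto_nhds.2 fun ε hε => ?_
  have h0 : 0 < b - a := sub_pos.2 hab
  obtain ⟨R, hR⟩ := h2 (ε / (2 * (b - a))) (by positivity)
  filter_upwards [eventually_ge_atTop R, eventually_gt_atTop 0] with y hy hy0
  have h3 : (∫ x in a..b, F y x) - T * (b - a) = ∫ x in a..b, (F y x - T) := by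
    rw [intervalIntegral.integral_sub (h1 y hy0) intervalIntegrable_const,
      intervalIntegral.integral_const, real_smul, ofReal_sub, mul_comm]
  rw [dist_eq_norm, h3]
  refine (intervalIntegral.norm_integral_le_of_norm_le_const (C := ε / (2 * (b - a)))
    fun x hx => ?_).trans_lt ?_
  · rw [Set.uIoc_of_le hab.le] at hx
    exact hR x y hx.1.le hx.2 hy
  · rw [abs_of_pos h0, div_mul_eq_mul_div, mul_div_mul_right _ _ h0.ne']
    exact half_lt_self hε

end StripAux

open StripAux

theorem stripSt : StripSt := by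
  intro ι _ f P ρ T a b hab hP hf hρ hT hI
  have hc : ∀ n, ∀ R : ℝ, 0 < R → ContinuousOn (f n) (argBd a b (-R) R) := fun n R hR =>
    bd_cont (neg_neg_of_pos hR) hR (hP n) (hf n)
  have h1 : ∀ n, Tendsto (fun y : ℝ => ∫ x in a..b, f n (x + y * I)) atTop (𝓝 (T n * (b - a))) :=
    fun n => hor hab (fun y hy =>
      (arg_cont_hor hab (neg_lt_self hy) (hc n y hy) (Or.inr rfl)).intervalIntegrable)
      fun η hη => (hT n η hη).imp fun R hR x y h1 h2 h3 =>
        (hR (x + y * I) (by simpa using h1) (by simpa using h2)).1 (by simpa using h3)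
  have h2 : ∀ n, Tendsto (fun y : ℝ => ∫ x in a..b, f n (x + (-y : ℝ) * I)) atTop
      (𝓝 (0 * (b - a))) :=
    fun n => hor hab (fun y hy =>
      (arg_cont_hor hab (neg_lt_self hy) (hc n y hy) (Or.inl rfl)).intervalIntegrable)
      fun η hη => (hT n η hη).imp fun R hR x y h1 h2 h3 => by
        rw [sub_zero]
        exact (hR (x + (-y : ℝ) * I) (by simpa using h1) (by simpa using h2)).2 (by simpa using h3)
  have h3 := tendsto_finsetSum Finset.univ fun n _ =>
    ((h1 n).sub (h2 n)).add_const (2 * π * I * ∑ p ∈ P n, ρ n p)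
  simp only [zero_mul, sub_zero] at h3
  refine tendsto_nhds_unique ((intervalIntegral_tendsto_integral hI tendsto_neg_atTop_atBot
    tendsto_id).const_mul I) (h3.congr' ?_)
  filter_upwards [eventually_gt_atTop 0] with R hR
  have i1 := fun n => (arg_cont_ver hab (neg_lt_self hR) (hc n R hR) (Or.inl rfl)).intervalIntegrable
    (μ := volume)
  have i2 := fun n => (arg_cont_ver hab (neg_lt_self hR) (hc n R hR) (Or.inr rfl)).intervalIntegrable
    (μ := volume)
  rw [id, intervalIntegral.integral_finsetSum fun n _ => (i2 n).sub (i1 n), Finset.mul_sum]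
  refine Finset.sum_congr rfl fun n _ => ?_
  rw [intervalIntegral.integral_sub (i2 n) (i1 n),
    ← rect hab (neg_neg_of_pos hR) hR (ρ n) (P n) (f n) (hP n) (hf n) (hρ n), argRc]
  ring

end Pool.Agent.RM
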